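import Mathlib

/-!
The choice of the parameters.
-/

namespace H592R3.Hp

lemma params5 (ε : ℝ) (hε : 0 < ε) : ∃ C : ℝ, 0 < C ∧ ∀ n d g : ℕ, 2 ≤ n → 1 ≤ d →
    C * (d * Real.log (Real.log n + g + 2)) ≤ Real.log n →
    ∀ B : ℝ, B ≤ 3 → ∀ S : ℕ, (S : ℝ) ≤ (n : ℝ) ^ (B - ε) →
    ∃ h l : ℕ, 1 ≤ h ∧
      10 ^ 12 * ((S : ℝ) * (24 * h) ^ (2 * d) * (h : ℝ) ^ 2 * (l : ℝ) ^ 2) ≤ (n : ℝ) ^ B ∧
      10 ^ 9 * ((24 * (h : ℝ)) ^ d * h) ≤ n ∧
      ∀ cJ cF R : ℕ, cJ ≤ n ^ 4 → cF ≤ n ^ 2 → R ≤ n ^ 4 → cJ + S + 2 ≤ 2 ^ l ∧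
        (2 : ℝ) ^ g * 6 ^ (g + 2) * (g + 2) * (((S : ℝ) + 1) * 8 *
        (24 * R * (24 * (h : ℝ)) ^ d) ^ 4) *
        (3 * cF * (1 / 12) ^ (h + 1) +
          d * ((S * (cJ + S + 1) : ℕ) : ℝ) * (1 / 2) ^ (h + 1)) < 1 / 2 := by
  refine ⟨92 / ε + 92, by positivity, ?_⟩
  intro n d g hn hd hC B hB S hS
  have hnR : (2 : ℝ) ≤ n := by exact_mod_cast hn
  have hn0 : (0 : ℝ) < n := by linarith
  have hn1 : (1 : ℝ) ≤ n := by linarith
  have hdR : (1 : ℝ) ≤ d := by exact_mod_cast hd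
  have hlogn : 0 ≤ Real.log n := Real.log_nonneg hn1
  obtain ⟨u, hu⟩ : ∃ u : ℝ, u = Real.log n + g + 2 := ⟨_, rfl⟩
  rw [← hu] at hC
  have hg0 : (0 : ℝ) ≤ g := by positivity
  have hu2 : 2 ≤ u := by rw [hu]; linarith
  have hu0 : 0 < u := by linarith
  have hu1 : 1 ≤ u := by linarith
  have hlu : 0 ≤ Real.log u := Real.log_nonneg hu1
  -- powers of u
  have hpow : ∀ k : ℕ, (k : ℝ) * (d * Real.log u) ≤ Real.log n → u ^ (k * d) ≤ n := by
    intro k hk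
    rw [← Real.log_le_log_iff (by positivity) hn0, Real.log_pow]
    push_cast
    linarith
  have hpowε : u ^ (92 * d) ≤ (n : ℝ) ^ ε := by
    rw [← Real.log_le_log_iff (by positivity) (by positivity), Real.log_pow,
      Real.log_rpow hn0]
    push_cast
    have h1 : 92 / ε * (d * Real.log u) ≤ Real.log n := by
      have : 0 ≤ 92 * (d * Real.log u) := by positivity
      nlinarith
    have h2 : ε * (92 / ε * (d * Real.log u)) ≤ ε * Real.log n :=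
      mul_le_mul_of_nonneg_left h1 hε.le
    have h3 : ε * (92 / ε * (d * Real.log u)) = 92 * (d * Real.log u) := by
      field_simp
    linarith
  have hpown : u ^ (92 * d) ≤ n := by
    apply hpow
    push_cast
    have : 0 ≤ 92 / ε * (d * Real.log u) := by positivity
    nlinarith
  obtain ⟨lam, hlam⟩ : ∃ lam : ℕ, lam = Nat.log 2 n + 1 := ⟨_, rfl⟩
  have hlam2 : 2 ≤ lam := by
    have : 0 < Nat.log 2 n := Nat.log_pos (by norm_num) hn
    omega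
  have hnlam : n ≤ 2 ^ lam := by
    rw [hlam]
    exact (Nat.lt_pow_succ_log_self (by norm_num) n).le
  have hlamu : (lam : ℝ) ≤ 3 / 2 * Real.log n + 1 := by
    have h1 : 2 ^ Nat.log 2 n ≤ n := Nat.pow_log_le_self 2 (by omega)
    have h2 : ((2 : ℝ)) ^ Nat.log 2 n ≤ n := by exact_mod_cast h1
    have h3 := Real.log_le_log (by positivity) h2
    rw [Real.log_pow] at h3
    have h4 := Real.log_two_gt_d9
    rw [hlam]
    push_cast
    have h5 : (0 : ℝ) ≤ (Nat.log 2 n : ℝ) := by positivity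
    nlinarith
  obtain ⟨h, hh⟩ : ∃ h : ℕ, h = 60 * (g + lam) := ⟨_, rfl⟩
  obtain ⟨l, hl⟩ : ∃ l : ℕ, l = 8 * lam := ⟨_, rfl⟩
  have hh1 : 1 ≤ h := by omega
  have hhR : (1 : ℝ) ≤ h := by exact_mod_cast hh1
  have hhu : (h : ℝ) ≤ 90 * u := by
    rw [hh, hu]; push_cast; linarith
  have hluu : (l : ℝ) ≤ 12 * u := by
    rw [hl, hu]; push_cast; linarith
  have hub : ∀ k : ℕ, (2 : ℝ) ^ k ≤ u ^ k := fun k => pow_le_pow_left₀ (by norm_num) hu2 k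
  have hh8 : (h : ℝ) ≤ u ^ 8 := by
    calc (h : ℝ) ≤ 90 * u := hhu
      _ ≤ u ^ 7 * u := by
          apply mul_le_mul_of_nonneg_right _ hu0.le
          have := hub 7
          norm_num at this
          linarith
      _ = u ^ 8 := by ring
  have hl5 : (l : ℝ) ≤ u ^ 5 := by
    calc (l : ℝ) ≤ 12 * u := hluu
      _ ≤ u ^ 4 * u := by
          apply mul_le_mul_of_nonneg_right _ hu0.le
          have := hub 4
          norm_num at this
          linarith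
      _ = u ^ 5 := by ring
  have h24 : 24 * (h : ℝ) ≤ u ^ 13 := by
    calc 24 * (h : ℝ) ≤ u ^ 5 * u ^ 8 := by
          apply mul_le_mul _ hh8 (by positivity) (by positivity)
          have := hub 5
          norm_num at this
          linarith
      _ = u ^ 13 := by ring
  have h24d : (24 * (h : ℝ)) ^ d ≤ u ^ (13 * d) := by
    rw [pow_mul]
    exact pow_le_pow_left₀ (by positivity) h24 d
  have h242d : (24 * (h : ℝ)) ^ (2 * d) ≤ u ^ (26 * d) := by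
    calc (24 * (h : ℝ)) ^ (2 * d) ≤ (u ^ 13) ^ (2 * d) :=
          pow_le_pow_left₀ (by positivity) h24 _
      _ = u ^ (26 * d) := by rw [← pow_mul]; congr 1; ring
  have hmono : ∀ a b : ℕ, a ≤ b → u ^ a ≤ u ^ b := fun a b hab => pow_le_pow_right₀ hu1 hab
  -- second condition
  have hcond2 : 10 ^ 9 * ((24 * (h : ℝ)) ^ d * h) ≤ n := by
    calc 10 ^ 9 * ((24 * (h : ℝ)) ^ d * h) ≤ u ^ 30 * (u ^ (13 * d) * u ^ 8) := by
          apply mul_le_mul _ _ (by positivity) (by positivity)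
          · have := hub 30
            norm_num at this ⊢
            linarith
          · exact mul_le_mul h24d hh8 (by positivity) (by positivity)
      _ = u ^ (30 + (13 * d + 8)) := by rw [← pow_add, ← pow_add]
      _ ≤ u ^ (92 * d) := hmono _ _ (by omega)
      _ ≤ n := hpown
  have hcond1 : 10 ^ 12 * ((S : ℝ) * (24 * h) ^ (2 * d) * (h : ℝ) ^ 2 * (l : ℝ) ^ 2) ≤
      (n : ℝ) ^ B := by
    have h1 : 10 ^ 12 * ((24 * (h : ℝ)) ^ (2 * d) * (h : ℝ) ^ 2 * (l : ℝ) ^ 2) ≤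
        (n : ℝ) ^ ε := by
      calc 10 ^ 12 * ((24 * (h : ℝ)) ^ (2 * d) * (h : ℝ) ^ 2 * (l : ℝ) ^ 2) ≤
          u ^ 40 * (u ^ (26 * d) * (u ^ 8) ^ 2 * (u ^ 5) ^ 2) := by
            apply mul_le_mul _ _ (by positivity) (by positivity)
            · have := hub 40
              norm_num at this ⊢
              linarith
            · gcongr
        _ = u ^ (40 + (26 * d + 8 * 2 + 5 * 2)) := by
            rw [← pow_mul, ← pow_mul, ← pow_add, ← pow_add, ← pow_add]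
        _ ≤ u ^ (92 * d) := hmono _ _ (by omega)
        _ ≤ (n : ℝ) ^ ε := hpowε
    calc 10 ^ 12 * ((S : ℝ) * (24 * h) ^ (2 * d) * (h : ℝ) ^ 2 * (l : ℝ) ^ 2) =
        S * (10 ^ 12 * ((24 * (h : ℝ)) ^ (2 * d) * (h : ℝ) ^ 2 * (l : ℝ) ^ 2)) := by ring
      _ ≤ (n : ℝ) ^ (B - ε) * (n : ℝ) ^ ε := by
          apply mul_le_mul hS h1 (by positivity) (by positivity)
      _ = (n : ℝ) ^ B := by rw [← Real.rpow_add hn0]; ring_nf
  refine ⟨h, l, hh1, hcond1, hcond2, ?_⟩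
  intro cJ cF R hJ hF hR
  -- bounds in powers of two
  have hS3 : (S : ℝ) ≤ (n : ℝ) ^ 3 := by
    refine hS.trans ?_
    rw [← Real.rpow_natCast]
    apply Real.rpow_le_rpow_of_exponent_le hn1
    push_cast
    linarith
  have hS3' : S ≤ n ^ 3 := by exact_mod_cast hS3
  have hn2 : ∀ k : ℕ, (n : ℝ) ^ k ≤ 2 ^ (lam * k) := by
    intro k
    have : (n : ℝ) ≤ 2 ^ lam := by exact_mod_cast hnlam
    calc (n : ℝ) ^ k ≤ (2 ^ lam) ^ k := pow_le_pow_left₀ (by positivity) this k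
      _ = 2 ^ (lam * k) := by rw [pow_mul]
  constructor
  · have h1 : cJ + S + 2 ≤ n ^ 8 := by
      have h2 : n ^ 8 = n ^ 4 * n ^ 4 := by ring
      have h3 : 16 ≤ n ^ 4 := by
        calc 16 = 2 ^ 4 := by norm_num
          _ ≤ n ^ 4 := Nat.pow_le_pow_left hn 4
      have h4 : n ^ 3 ≤ n ^ 4 := Nat.pow_le_pow_right (by omega) (by norm_num)
      nlinarith
    calc cJ + S + 2 ≤ n ^ 8 := h1
      _ ≤ (2 ^ lam) ^ 8 := Nat.pow_le_pow_left hnlam 8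
      _ = 2 ^ l := by rw [← pow_mul, hl, mul_comm]
  · have hJR : (cJ : ℝ) ≤ (n : ℝ) ^ 4 := by exact_mod_cast hJ
    have hFR : (cF : ℝ) ≤ (n : ℝ) ^ 2 := by exact_mod_cast hF
    have hRR : (R : ℝ) ≤ (n : ℝ) ^ 4 := by exact_mod_cast hR
    have hdn : (24 * (h : ℝ)) ^ d ≤ n := by
      have h1 : (1 : ℝ) ≤ (24 * (h : ℝ)) ^ d := one_le_pow₀ (by linarith)
      nlinarith
    have hd1 : (d : ℝ) ≤ n := by
      refine le_trans ?_ hdn
      have h2 : ((d : ℕ) : ℝ) ≤ 2 ^ d := by exact_mod_cast (Nat.lt_two_pow_self (n := d)).le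
      refine h2.trans (pow_le_pow_left₀ (by norm_num) (by linarith) d)
    -- the factors
    have f1 : (6 : ℝ) ^ (g + 2) ≤ 2 ^ (3 * g + 6) := by
      calc (6 : ℝ) ^ (g + 2) ≤ 8 ^ (g + 2) := pow_le_pow_left₀ (by norm_num) (by norm_num) _
        _ = 2 ^ (3 * g + 6) := by
            rw [show (8 : ℝ) = 2 ^ 3 by norm_num, ← pow_mul]; congr 1
    have f2 : (g : ℝ) + 2 ≤ 2 ^ (g + 1) := by
      have h2 : g + 1 ≤ 2 ^ g := Nat.lt_two_pow_self
      have h3 : g + 2 ≤ 2 ^ (g + 1) := by rw [pow_succ]; omega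
      exact_mod_cast h3
    have f3 : (S : ℝ) + 1 ≤ 2 ^ (3 * lam + 1) := by
      have h1 : (1 : ℝ) ≤ (n : ℝ) ^ 3 := one_le_pow₀ hn1
      have h2 := hn2 3
      rw [show lam * 3 = 3 * lam by ring] at h2
      rw [pow_succ]
      linarith
    have f4 : (24 * R * (24 * (h : ℝ)) ^ d) ^ 4 ≤ 2 ^ (20 * lam + 20) := by
      have h1 : 24 * R * (24 * (h : ℝ)) ^ d ≤ 2 ^ (5 * lam + 5) := by
        calc 24 * R * (24 * (h : ℝ)) ^ d ≤ 32 * (n : ℝ) ^ 4 * n := by gcongr; norm_num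
          _ = 32 * (n : ℝ) ^ 5 := by ring
          _ ≤ 32 * 2 ^ (lam * 5) := by gcongr; exact hn2 5
          _ = 2 ^ (5 * lam + 5) := by
              rw [pow_add, mul_comm lam 5]; norm_num; ring
      calc (24 * R * (24 * (h : ℝ)) ^ d) ^ 4 ≤ (2 ^ (5 * lam + 5)) ^ 4 :=
            pow_le_pow_left₀ (by positivity) h1 4
        _ = 2 ^ (20 * lam + 20) := by rw [← pow_mul]; congr 1; ring
    have f5 : 3 * cF * (1 / 12 : ℝ) ^ (h + 1) +
        d * ((S * (cJ + S + 1) : ℕ) : ℝ) * (1 / 2) ^ (h + 1) ≤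
        2 ^ (8 * lam + 2) * (1 / 2) ^ (h + 1) := by
      have h1 : (1 / 12 : ℝ) ^ (h + 1) ≤ (1 / 2) ^ (h + 1) :=
        pow_le_pow_left₀ (by norm_num) (by norm_num) _
      have h2 : ((S * (cJ + S + 1) : ℕ) : ℝ) ≤ (n : ℝ) ^ 3 * ((n : ℝ) ^ 4 + (n : ℝ) ^ 3 + 1) := by
        push_cast
        gcongr
      have h3 : 3 * (cF : ℝ) + d * ((S * (cJ + S + 1) : ℕ) : ℝ) ≤ 4 * (n : ℝ) ^ 8 := by
        have e1 : (n : ℝ) ^ 3 ≤ (n : ℝ) ^ 4 := pow_le_pow_right₀ hn1 (by norm_num)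
        have e2 : (1 : ℝ) ≤ (n : ℝ) ^ 4 := one_le_pow₀ hn1
        have e3 : d * ((S * (cJ + S + 1) : ℕ) : ℝ) ≤ n * ((n : ℝ) ^ 3 * ((n : ℝ) ^ 4 +
            (n : ℝ) ^ 3 + 1)) := mul_le_mul hd1 h2 (by positivity) (by positivity)
        have e4 : n * ((n : ℝ) ^ 3 * ((n : ℝ) ^ 4 + (n : ℝ) ^ 3 + 1)) =
            (n : ℝ) ^ 8 + (n : ℝ) ^ 7 + (n : ℝ) ^ 4 := by ring
        have e5 : 3 * (n : ℝ) ^ 2 + (n : ℝ) ^ 4 + (n : ℝ) ^ 7 ≤ 3 * (n : ℝ) ^ 8 := by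
          have k1 : (n : ℝ) ^ 8 = (n : ℝ) ^ 2 * (n : ℝ) ^ 6 := by ring
          have k2 : (n : ℝ) ^ 4 = (n : ℝ) ^ 2 * (n : ℝ) ^ 2 := by ring
          have k3 : (n : ℝ) ^ 7 = (n : ℝ) ^ 2 * (n : ℝ) ^ 5 := by ring
          have k4 : 3 + (n : ℝ) ^ 2 + (n : ℝ) ^ 5 ≤ 3 * (n : ℝ) ^ 6 := by
            have m1 : (2 : ℝ) ^ 6 ≤ (n : ℝ) ^ 6 := pow_le_pow_left₀ (by norm_num) hnR 6
            have m2 : (n : ℝ) ^ 2 ≤ (n : ℝ) ^ 6 := pow_le_pow_right₀ hn1 (by norm_num)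
            have m3 : (n : ℝ) ^ 5 ≤ (n : ℝ) ^ 6 := pow_le_pow_right₀ hn1 (by norm_num)
            linarith
          have k5 : (n : ℝ) ^ 2 * (3 + (n : ℝ) ^ 2 + (n : ℝ) ^ 5) ≤
              (n : ℝ) ^ 2 * (3 * (n : ℝ) ^ 6) := mul_le_mul_of_nonneg_left k4 (by positivity)
          nlinarith
        linarith
      calc 3 * cF * (1 / 12 : ℝ) ^ (h + 1) +
          d * ((S * (cJ + S + 1) : ℕ) : ℝ) * (1 / 2) ^ (h + 1) ≤
          3 * cF * (1 / 2 : ℝ) ^ (h + 1) +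
          d * ((S * (cJ + S + 1) : ℕ) : ℝ) * (1 / 2) ^ (h + 1) := by gcongr
        _ = (3 * (cF : ℝ) + d * ((S * (cJ + S + 1) : ℕ) : ℝ)) * (1 / 2) ^ (h + 1) := by ring
        _ ≤ 4 * (n : ℝ) ^ 8 * (1 / 2) ^ (h + 1) := by gcongr
        _ ≤ 4 * 2 ^ (lam * 8) * (1 / 2) ^ (h + 1) := by gcongr; exact hn2 8
        _ = 2 ^ (8 * lam + 2) * (1 / 2) ^ (h + 1) := by
            rw [pow_add, mul_comm lam 8]; norm_num; ring
    have hhs : h + 1 = (g + (3 * g + 6) + (g + 1) + (3 * lam + 1) + 3 + (20 * lam + 20) +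
        (8 * lam + 2)) + (55 * g + 29 * lam - 32) := by omega
    calc (2 : ℝ) ^ g * 6 ^ (g + 2) * (g + 2) * (((S : ℝ) + 1) * 8 *
        (24 * R * (24 * (h : ℝ)) ^ d) ^ 4) *
        (3 * cF * (1 / 12) ^ (h + 1) +
          d * ((S * (cJ + S + 1) : ℕ) : ℝ) * (1 / 2) ^ (h + 1)) ≤
        (2 : ℝ) ^ g * 2 ^ (3 * g + 6) * 2 ^ (g + 1) * (2 ^ (3 * lam + 1) * 2 ^ 3 *
        2 ^ (20 * lam + 20)) * (2 ^ (8 * lam + 2) * (1 / 2) ^ (h + 1)) := by
          gcongr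
          norm_num
      _ = 2 ^ (g + (3 * g + 6) + (g + 1) + (3 * lam + 1) + 3 + (20 * lam + 20) +
        (8 * lam + 2)) * (1 / 2) ^ (h + 1) := by
          simp only [pow_add]
          ring
      _ = (1 / 2) ^ (55 * g + 29 * lam - 32) := by
          rw [hhs, pow_add (1 / 2 : ℝ), ← mul_assoc, ← mul_pow]
          norm_num
      _ < 1 / 2 := by
          have h1 : 2 ≤ 55 * g + 29 * lam - 32 := by omega
          calc (1 / 2 : ℝ) ^ (55 * g + 29 * lam - 32) ≤ (1 / 2) ^ 2 :=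
                pow_le_pow_of_le_one (by norm_num) (by norm_num) h1
            _ < 1 / 2 := by norm_num

end H592R3.Hp
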