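import Mathlib
import Pool.Agent.H592R3.Chain

/-!
Under a random restriction all gates of a circuit become shallow decision trees, when the input
bits of the circuit are functions that become shallow decision trees after a first restriction.
-/

set_option linter.unusedSectionVars false

namespace H592R3.Hp

open Finset DomAC0 H568R2

section Coll
variable {I : Type*} [Fintype I] [DecidableEq I] {J : Type}

/-- All input functions are shallow decision trees. -/
def Bas (σ : (I → Bool) → (J → Bool)) (h : ℕ) (ρ : Restr I) : Prop :=
  ∀ j, DT h (rs (fun x => σ x j) ρ)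

lemma DT_rs : ∀ {h : ℕ} {f : (I → Bool) → Bool}, DT h f → ∀ ρ : Restr I, DT h (rs f ρ) := by
  intro h
  induction h with
  | zero =>
    intro f hf ρ
    obtain ⟨b, hb⟩ := hf
    exact ⟨b, fun x => hb _⟩
  | succ h ih =>
    intro f hf ρ
    rcases hf with ⟨b, hb⟩ | ⟨i, hi⟩
    · exact Or.inl ⟨b, fun x => hb _⟩
    · cases hρ : ρ i with
      | none =>
        refine Or.inr ⟨i, fun b => ?_⟩
        have : (fun x => rs f ρ (Function.update x i b)) =
            rs (fun x => f (Function.update x i b)) ρ := by
          funext x
          unfold rs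
          congr 1
          funext j
          unfold ov
          by_cases hj : j = i
          · subst hj
            rw [hρ, Function.update_self, Function.update_self]
            rfl
          · rw [Function.update_of_ne hj, Function.update_of_ne hj]
        rw [this]
        exact ih (hi b) ρ
      | some b =>
        have : rs f ρ = rs (fun x => f (Function.update x i b)) ρ := by
          funext x
          unfold rs
          congr 1
          funext j
          unfold ov
          by_cases hj : j = i
          · subst hj
            rw [hρ, Function.update_self]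
            rfl
          · rw [Function.update_of_ne hj]
        rw [this]
        exact (ih (hi b) ρ).succ

lemma Bas.cmp {σ : (I → Bool) → (J → Bool)} {h : ℕ} {ρ : Restr I} (hB : Bas σ h ρ)
    (τ : Restr I) : Bas σ h (cmp ρ τ) := by
  intro j
  rw [rs_cmp]
  exact DT_rs (hB j) τ

lemma node_cert2 (C : Circuit J) (σ : (I → Bool) → (J → Bool)) {h j : ℕ} {ρ : Restr I}
    (hB : Bas σ h ρ) (hG : Good C σ h j ρ) (v : J ⊕ Fin C.size) (hv : C.nodeDepth v ≤ j)
    (b : Bool) : Cert h b (rs (fun x => C.nodeVal (σ x) v) ρ) := by
  cases v with
  | inl i => exact (hB i).cert b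
  | inr g =>
    have := hG g hv (pl C g).length
    rw [List.take_length] at this
    have h2 : (fun x => C.nodeVal (σ x) (Sum.inr g)) = fun x => gfun C g (σ x) (pl C g) := by
      funext x
      exact gateVal_eq C (σ x) g
    rw [h2]
    exact this.cert b

open Classical in
theorem collapse2 [Fintype J] (C : Circuit J) (σ : (I → Bool) → (J → Bool))
    {q q0 : ℝ} (h0 : 0 ≤ q) (h1 : q ≤ 1 / 3) (hq0 : 0 ≤ q0) (hq1 : q0 ≤ 1) {h : ℕ} {ε0 : ℝ}
    (hb : Ex (wq q0) (fun ρ : Restr I => if ¬ Bas σ h ρ then (1 : ℝ) else 0) ≤ ε0) : ∀ j : ℕ,
    Ex (wq (q0 * q ^ j)) (fun ρ : Restr I => if ¬ (Bas σ h ρ ∧ Good C σ h j ρ)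
      then (1 : ℝ) else 0) ≤
      ε0 + j * ((C.size * (Fintype.card J + C.size + 1) : ℕ) : ℝ) * (12 * h * q) ^ (h + 1) := by
  intro j
  induction j with
  | zero =>
    have hgood : ∀ ρ : Restr I, Good C σ h 0 ρ := by
      intro ρ g hg
      have : 0 < C.gateDepth g := by rw [Circuit.gateDepth]; omega
      omega
    simp only [hgood, and_true, pow_zero, mul_one]
    refine hb.trans ?_
    simp
  | succ j ih =>
    rw [pow_succ, ← mul_assoc, wq_cmp]
    set ε : ℝ := (12 * h * q) ^ (h + 1) with hε
    have hε0 : 0 ≤ ε := by positivity
    set N : ℕ := Fintype.card J + C.size + 1 with hN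
    have hwj : ∀ a, 0 ≤ wq (q0 * q ^ j) a :=
      wq_nonneg (mul_nonneg hq0 (pow_nonneg h0 j))
        (mul_le_one₀ hq1 (pow_nonneg h0 j) (pow_le_one₀ h0 (by linarith)))
    have hw1 : ∀ a, 0 ≤ wq q a := wq_nonneg h0 (by linarith)
    -- inner bound
    have hin : ∀ ρ : Restr I, Ex (wq q) (fun τ : Restr I =>
        if ¬ (Bas σ h (cmp ρ τ) ∧ Good C σ h (j + 1) (cmp ρ τ)) then (1 : ℝ) else 0) ≤
        (if ¬ (Bas σ h ρ ∧ Good C σ h j ρ) then (1 : ℝ) else 0) + ((C.size * N : ℕ) : ℝ) * ε := by
      intro ρ
      by_cases hBG : Bas σ h ρ ∧ Good C σ h j ρ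
      · obtain ⟨hB, hG⟩ := hBG
        simp only [hB, hG, and_self, not_true, if_false, zero_add]
        have hpt : ∀ τ : Restr I, (if ¬ (Bas σ h (cmp ρ τ) ∧ Good C σ h (j + 1) (cmp ρ τ))
            then (1 : ℝ) else 0) ≤
            ∑ gi ∈ ((univ.filter (fun g : Fin C.size => C.gateDepth g ≤ j + 1)) ×ˢ
              Finset.range N),
              (if ¬ DT h
                (rs (rs (fun x => gfun C gi.1 (σ x) ((pl C gi.1).take gi.2)) ρ) τ)
                then (1 : ℝ) else 0) := by
          intro τ
          have hnn : ∀ gi ∈ ((univ.filter (fun g : Fin C.size => C.gateDepth g ≤ j + 1)) ×ˢ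
              Finset.range N), (0 : ℝ) ≤ (if ¬ DT h
                (rs (rs (fun x => gfun C gi.1 (σ x) ((pl C gi.1).take gi.2)) ρ) τ)
                then (1 : ℝ) else 0) := by
            intro gi _
            split_ifs <;> norm_num
          have hBc : Bas σ h (cmp ρ τ) := hB.cmp τ
          simp only [hBc, true_and]
          by_cases hGG : Good C σ h (j + 1) (cmp ρ τ)
          · simp only [hGG, not_true, if_false]
            exact Finset.sum_nonneg hnn
          · simp only [hGG, not_false_iff, if_true]
            have hex : ∃ g : Fin C.size, C.gateDepth g ≤ j + 1 ∧ ∃ i : ℕ,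
                ¬ DT h (rs (fun x => gfun C g (σ x) ((pl C g).take i))
                  (cmp ρ τ)) := by
              by_contra hcon
              apply hGG
              intro g hg i
              by_contra hJ
              exact hcon ⟨g, hg, i, hJ⟩
            obtain ⟨g, hg, i, hJ⟩ := hex
            rw [rs_cmp] at hJ
            have htake : (pl C g).take i = (pl C g).take (min i (pl C g).length) := by
              rcases le_total i (pl C g).length with h | h
              · rw [min_eq_left h]
              · rw [min_eq_right h, List.take_length, List.take_of_length_le h]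
            have hmem : ((g, min i (pl C g).length) : Fin C.size × ℕ) ∈
                ((univ.filter (fun g : Fin C.size => C.gateDepth g ≤ j + 1)) ×ˢ
                Finset.range N) := by
              rw [Finset.mem_product, Finset.mem_filter, Finset.mem_range]
              refine ⟨⟨Finset.mem_univ _, hg⟩, ?_⟩
              have h3 := pl_length C g
              have h4 := min_le_right i (pl C g).length
              show min i (pl C g).length < N
              omega
            refine le_trans ?_ (Finset.single_le_sum hnn hmem)
            rw [if_pos]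
            show ¬ DT h (rs (rs (fun x => gfun C g (σ x)
              ((pl C g).take (min i (pl C g).length))) ρ) τ)
            rw [← htake]
            exact hJ
        refine (Ex_mono hw1 hpt).trans ?_
        rw [Ex_sum]
        have hterm : ∀ gi ∈ ((univ.filter (fun g : Fin C.size => C.gateDepth g ≤ j + 1)) ×ˢ
              Finset.range N), Ex (wq q) (fun τ : Restr I => (if ¬ DT h
                (rs (rs (fun x => gfun C gi.1 (σ x) ((pl C gi.1).take gi.2)) ρ) τ)
                then (1 : ℝ) else 0)) ≤ ε := by
          rintro ⟨g, i⟩ hgi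
          rw [Finset.mem_product, Finset.mem_filter] at hgi
          have hgd : C.gateDepth g ≤ j + 1 := hgi.1.2
          obtain ⟨b, hb⟩ := H592R3.gate_cert C σ (K := h) (ρ := ρ) g ((pl C g).take i) (by
            intro v hv
            apply node_cert2 C σ hB hG
            have hvp : v ∈ C.preds g := by
              have := List.mem_of_mem_take hv
              rwa [pl, Finset.mem_toList] at this
            have := depth_lt C g v hvp
            omega)
          exact H592R3.switching h0 h1 hb
        refine (Finset.sum_le_card_nsmul _ _ _ hterm).trans ?_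
        rw [nsmul_eq_mul]
        apply mul_le_mul_of_nonneg_right _ hε0
        rw [Finset.card_product, Finset.card_range]
        have : (univ.filter (fun g : Fin C.size => C.gateDepth g ≤ j + 1)).card ≤ C.size := by
          refine (Finset.card_le_univ _).trans ?_
          simp
        exact_mod_cast Nat.mul_le_mul_right N this
      · rw [if_pos hBG]
        have h2 : Ex (wq q) (fun τ : Restr I =>
            if ¬ (Bas σ h (cmp ρ τ) ∧ Good C σ h (j + 1) (cmp ρ τ)) then (1 : ℝ) else 0) ≤
            Ex (wq q) (fun _ : Restr I => (1 : ℝ)) := by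
          apply Ex_mono hw1
          intro τ
          split_ifs <;> norm_num
        rw [Ex_const (wq_sum q)] at h2
        have : 0 ≤ ((C.size * N : ℕ) : ℝ) * ε := by positivity
        linarith
    refine (Ex_mono hwj hin).trans ?_
    rw [Ex_add, Ex_const (wq_sum (q0 * q ^ j))]
    push_cast at ih ⊢
    linarith

end Coll

section Med3
variable {I : Type*} [Fintype I] [DecidableEq I] {M : Type*} [Fintype M] [DecidableEq M]
variable {J : Type}

/-- A circuit of large degree has a gate with an initial part of medium degree. -/
theorem medium3 (C : Circuit J) (σ : (I → Bool) → (J → Bool)) (vr : M → I)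
    {L : ℕ} (hL : 2 ≤ L) (X : I → Bool)
    (hin : ∀ j : J, Low 1 (pf (fun x => σ x j) vr X)) {d : ℕ} (hd : C.depth ≤ d)
    (hS : ¬ Low (L - 1) (pf (fun x => C.eval (σ x)) vr X)) :
    ∃ g : Fin C.size, C.gateDepth g ≤ d ∧ ∃ i < (pl C g).length, ∃ H : Finset M,
      L ≤ H.card ∧ H.card ≤ 2 * L - 2 ∧
      mb (pf (fun x => gfun C g (σ x) ((pl C g).take (i + 1))) vr X) H ≠ 0 := by
  classical
  -- gates that are large
  set B : Finset (Fin C.size) := univ.filter (fun g => C.gateDepth g ≤ d ∧
    ¬ Low (L - 1) (pf (fun x => C.nodeVal (σ x) (Sum.inr g)) vr X)) with hB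
  have hin' : ∀ j : J, Low (L - 1) (pf (fun x => C.nodeVal (σ x) (Sum.inl j)) vr X) := by
    intro j
    exact (hin j).mono (by omega)
  have hBne : B.Nonempty := by
    have hS' : ¬ Low (L - 1) (pf (fun x => C.nodeVal (σ x) C.output) vr X) := hS
    have hd' : C.nodeDepth C.output ≤ d := hd
    revert hS' hd'
    generalize C.output = o
    cases o with
    | inl j => intro h1; exact absurd (hin' j) h1
    | inr g =>
      intro h1 h2
      exact ⟨g, by rw [hB, Finset.mem_filter]; exact ⟨Finset.mem_univ _, h2, h1⟩⟩
  set g := B.min' hBne with hg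
  have hgB : g ∈ B := Finset.min'_mem B hBne
  rw [hB, Finset.mem_filter] at hgB
  have hchild : ∀ v ∈ pl C g, Low (L - 1) (pf (fun x => C.nodeVal (σ x) v) vr X) := by
    intro v hv
    have hvp : v ∈ C.preds g := by rwa [pl, Finset.mem_toList] at hv
    have hdep := depth_lt C g v hvp
    cases v with
    | inl j => exact hin' j
    | inr h =>
      by_contra hcon
      have hhB : h ∈ B := by
        rw [hB, Finset.mem_filter]
        refine ⟨Finset.mem_univ _, ?_, hcon⟩
        have h3 : C.gateDepth h < C.gateDepth g := hdep
        omega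
      have h1 := Finset.min'_le B h hhB
      have h2 := C.acyclic g h hvp
      exact absurd h2 (not_lt.2 h1)
  refine ⟨g, hgB.2.1, ?_⟩
  -- find the first initial part that is large
  have hfull : ¬ Low (L - 1) (pf (fun x => gfun C g (σ x)
      ((pl C g).take (pl C g).length)) vr X) := by
    rw [List.take_length]
    have : (fun x => C.nodeVal (σ x) (Sum.inr g)) = fun x => gfun C g (σ x) (pl C g) := by
      funext x
      exact gateVal_eq C (σ x) g
    rw [← this]
    exact hgB.2.2
  have hex : ∃ i, ¬ Low (L - 1) (pf (fun x => gfun C g (σ x)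
      ((pl C g).take i)) vr X) := ⟨_, hfull⟩
  have hpos : 0 < Nat.find hex := by
    rw [Nat.pos_iff_ne_zero]
    intro h0
    have h1 := Nat.find_spec hex
    rw [h0, List.take_zero] at h1
    exact h1 (low_nil C σ vr X g _)
  obtain ⟨i, hi⟩ := Nat.exists_eq_succ_of_ne_zero (Nat.pos_iff_ne_zero.1 hpos)
  have hlt : i < Nat.find hex := by omega
  have hprev := Nat.find_min hex hlt
  rw [not_not] at hprev
  have hle : Nat.find hex ≤ (pl C g).length := Nat.find_min' hex hfull
  have hil : i < (pl C g).length := by omega
  have hspec := Nat.find_spec hex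
  rw [hi, Nat.succ_eq_add_one] at hspec
  refine ⟨i, hil, ?_⟩
  unfold Low at hspec
  push Not at hspec
  obtain ⟨H, hH1, hH2⟩ := hspec
  have hup : Low ((L - 1) + (L - 1)) (pf (fun x => gfun C g (σ x)
      ((pl C g).take (i + 1))) vr X) := by
    rw [List.take_succ_eq_append_getElem hil]
    exact low_take C σ vr X g _ _ hprev (hchild _ (List.getElem_mem hil))
  refine ⟨H, by omega, ?_, hH2⟩
  by_contra hcon
  exact hH2 (hup H (by omega))

end Med3

end H592R3.Hp
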