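import Mathlib
import Pool.Agent.H592R3.MobMoment
import Pool.Agent.H592R3.GameDefs
import Pool.Agent.H592R4.Base

/-!
The number of hidden plants on which a circuit changes its value.
-/

set_option linter.unusedSectionVars false

namespace H592R3.Hp

open Finset DomAC0 H568R2 SmallDepth

section Mo
variable {I M T J : Type} [Fintype I] [DecidableEq I] [Fintype M] [DecidableEq M] [Fintype T]

/-- The types of sensitivity: a gate and a set of medium size, or a small set. -/
abbrev Ty (C : Circuit J) (M : Type) : Type := (Fin C.size × Finset M) ⊕ Finset M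

/-- The set of planted positions of a type. -/
def Ty.hset {C : Circuit J} {M : Type} (θ : Ty C M) : Finset M :=
  Sum.elim (fun x => x.2) id θ

/-- The event of a type for a planted instance. -/
def EvX (C : Circuit J) (σ : (I → Bool) → (J → Bool)) (vr : T → M → I) (d L : ℕ) (a : T)
    (X : I → Bool) : Ty C M → Prop
  | Sum.inl (g, H) => (C.gateDepth g ≤ d ∧ L ≤ H.card ∧ H.card ≤ 2 * L - 2) ∧
      ∃ i ≤ (pl C g).length,
        mb (pf (fun x => gfun C g (σ x) ((pl C g).take i)) (vr a) X) H ≠ 0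
  | Sum.inr H => (1 ≤ H.card ∧ H.card < L) ∧
      mb (pf (fun x => C.eval (σ x)) (vr a) X) H ≠ 0

/-- The event of a type for a restriction. -/
def EvR (C : Circuit J) (σ : (I → Bool) → (J → Bool)) (vr : T → M → I) (d L : ℕ) (a : T)
    (Y : I → Bool) (ρ : Restr I) (D : I → Bool) : Ty C M → Prop
  | Sum.inl (g, H) => (C.gateDepth g ≤ d ∧ L ≤ H.card ∧ H.card ≤ 2 * L - 2) ∧
      ∃ i ≤ (pl C g).length,
        cf (rs (fun x => gfun C g (σ (mask Y x)) ((pl C g).take i)) ρ) D (H.image (vr a)) ≠ 0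
  | Sum.inr H => (1 ≤ H.card ∧ H.card < L) ∧
      cf (rs (fun x => C.eval (σ (mask Y x))) ρ) D (H.image (vr a)) ≠ 0

lemma evX_evR (C : Circuit J) (σ : (I → Bool) → (J → Bool)) (vr : T → M → I)
    (hvr : ∀ a, Function.Injective (vr a)) (d L : ℕ) (a : T) (θ : Ty C M)
    (ω : I → Bool × (Option Bool × Bool))
    (hω : ∀ i ∈ θ.hset.image (vr a), (ω i).1 = true ∧ (ω i).2.1 = none)
    (h : EvX C σ vr d L a (fun i => h3 (ω i)) θ) :
    EvR C σ vr d L a (fun i => (ω i).1) (fun i => (ω i).2.1) (fun i => (ω i).2.2) θ := by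
  rcases θ with ⟨g, H⟩ | H
  · obtain ⟨h0, i, hi, h1⟩ := h
    refine ⟨h0, i, hi, ?_⟩
    have hz := pf_zero h1
    have e1 := pf_cf (fun x => gfun C g (σ x) ((pl C g).take i)) (vr a) (hvr a) H
      (fun i => (ω i).1) (fun i => (ω i).2.1) (fun i => (ω i).2.2) hω hz
    show cf (rs (fun x => gfun C g (σ (mask (fun i => (ω i).1) x))
      ((pl C g).take i)) (fun i => (ω i).2.1)) (fun i => (ω i).2.2)
      (H.image (vr a)) ≠ 0
    rw [← e1]
    exact h1
  · obtain ⟨h0, h1⟩ := h
    refine ⟨h0, ?_⟩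
    have hz := pf_zero h1
    have e1 := pf_cf (fun x => C.eval (σ x)) (vr a) (hvr a) H
      (fun i => (ω i).1) (fun i => (ω i).2.1) (fun i => (ω i).2.2) hω hz
    show cf (rs (fun x => C.eval (σ (mask (fun i => (ω i).1) x))) (fun i => (ω i).2.1))
      (fun i => (ω i).2.2) (H.image (vr a)) ≠ 0
    rw [← e1]
    exact h1

lemma sens_evX (C : Circuit J) (σ : (I → Bool) → (J → Bool)) (vr : T → M → I)
    {d L : ℕ} (hL : 2 ≤ L) (hdepth : C.depth ≤ d) (a : T) (X : I → Bool)
    (hin : ∀ j : J, Low 1 (pf (fun x => σ x j) (vr a) X))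
    (h : C.eval (σ X) ≠ C.eval (σ (plant (vr a) univ X))) :
    ∃ θ : Ty C M, EvX C σ vr d L a X θ := by
  by_cases hLs : Low (L - 1) (pf (fun x => C.eval (σ x)) (vr a) X)
  · have h4 : plant (vr a) (∅ : Finset M) X = X := by
      funext i
      unfold plant
      simp
    obtain ⟨A, _, hne, hm⟩ := mb_nonconst univ (pf (fun x => C.eval (σ x)) (vr a) X) (by
      unfold pf
      rw [h4]
      intro hcon
      apply h
      by_cases c1 : C.eval (σ X) = true
      · rw [if_pos c1] at hcon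
        by_cases c2 : C.eval (σ (plant (vr a) univ X)) = true
        · rw [c1, c2]
        · rw [if_neg c2] at hcon
          norm_num at hcon
      · rw [if_neg c1] at hcon
        by_cases c2 : C.eval (σ (plant (vr a) univ X)) = true
        · rw [if_pos c2] at hcon
          norm_num at hcon
        · rw [Bool.not_eq_true] at c1 c2
          rw [c1, c2])
    refine ⟨Sum.inr A, ⟨Finset.card_pos.2 hne, ?_⟩, hm⟩
    by_contra hcon
    exact hm (hLs A (by omega))
  · obtain ⟨g, hg, i, hi, H, h1, h2, h3⟩ := medium3 C σ (vr a) hL X hin hdepth hLs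
    exact ⟨Sum.inl (g, H), ⟨hg, h1, h2⟩, i + 1, by omega, h3⟩

open Classical in
lemma count_fam (vr : T → M → I) (κ : Finset M → ℕ)
    (hκ : ∀ (H : Finset M) (V : Finset I),
      (univ.filter (fun a : T => H.image (vr a) = V)).card ≤ κ H) (H : Finset M)
    (Fam : Finset (Finset I)) {B : ℕ} (hB : Fam.card ≤ B)
    (P : T → Prop) (hP : ∀ a, P a → H.image (vr a) ∈ Fam) :
    (univ.filter P).card ≤ B * κ H := by
  have hsub : univ.filter P ⊆ Fam.biUnion (fun V =>
        univ.filter (fun a : T => H.image (vr a) = V)) := by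
    intro a ha
    have hfd := (Finset.mem_filter.1 ha).2
    rw [Finset.mem_biUnion]
    exact ⟨_, hP a hfd, by rw [Finset.mem_filter]; exact ⟨Finset.mem_univ _, rfl⟩⟩
  refine (Finset.card_le_card hsub).trans (Finset.card_biUnion_le.trans ?_)
  refine (Finset.sum_le_card_nsmul _ _ _ (fun V _ => hκ H V)).trans ?_
  rw [smul_eq_mul]
  exact Nat.mul_le_mul_right _ hB

open Classical in
lemma gate_count (vr : T → M → I) (hvr : ∀ a, Function.Injective (vr a)) (κ : Finset M → ℕ)
    (hκ : ∀ (H : Finset M) (V : Finset I),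
      (univ.filter (fun a : T => H.image (vr a) = V)).card ≤ κ H)
    (C : Circuit J) (σ : (I → Bool) → (J → Bool)) {h : ℕ} {d : ℕ}
    (g : Fin C.size) (hg : C.gateDepth g ≤ d) (H : Finset M) {l : ℕ}
    (hlen : (pl C g).length + 2 ≤ 2 ^ l) (Y : I → Bool) (ρ : Restr I) (D : I → Bool)
    (hG : Good C (fun x => σ (mask Y x)) h d ρ) :
    ∑ a : T, (if ∃ i ≤ (pl C g).length,
        cf (rs (fun x => gfun C g (σ (mask Y x)) ((pl C g).take i)) ρ) D (H.image (vr a)) ≠ 0
        then (1 : ℝ) else 0) ≤ (((2 * (h * l)) ^ H.card * κ H : ℕ) : ℝ) := by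
  have hdtc := gate_dtc C (fun x => σ (mask Y x)) hG g hg hlen
  obtain ⟨Fam, hF1, hF2⟩ := fam_exists_c D (h * l) _ hdtc H.card
  rw [Finset.sum_boole]
  have h3 := count_fam vr κ hκ H Fam hF1 (fun a : T => ∃ i ≤ (pl C g).length,
        cf (rs (fun x => gfun C g (σ (mask Y x)) ((pl C g).take i)) ρ) D
          (H.image (vr a)) ≠ 0) (by
      rintro a ⟨i, hi, hne⟩
      exact hF2 ⟨i, by omega⟩ _ (Finset.card_image_of_injective _ (hvr a)) hne)
  exact_mod_cast h3

lemma out_DT2 (C : Circuit J) (σ : (I → Bool) → (J → Bool)) {h d : ℕ} {ρ : Restr I}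
    (hB : Bas σ h ρ) (hG : Good C σ h d ρ) (hd : C.depth ≤ d) :
    DT h (rs (fun x => C.eval (σ x)) ρ) := by
  have hd' : C.nodeDepth C.output ≤ d := hd
  show DT h (rs (fun x => C.nodeVal (σ x) C.output) ρ)
  revert hd'
  generalize C.output = o
  intro hd'
  cases o with
  | inl j => exact hB j
  | inr g =>
    have := hG g hd' (pl C g).length
    rw [List.take_length] at this
    have h2 : (fun x => C.nodeVal (σ x) (Sum.inr g)) = fun x => gfun C g (σ x) (pl C g) := by
      funext x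
      exact gateVal_eq C (σ x) g
    rw [h2]
    exact this

open Classical in
/-- The bound for good restrictions. -/
lemma good_bound [Fintype J] (vr : T → M → I) (hvr : ∀ a, Function.Injective (vr a))
    (κ : Finset M → ℕ)
    (hκ : ∀ (H : Finset M) (V : Finset I),
      (univ.filter (fun a : T => H.image (vr a) = V)).card ≤ κ H)
    (C : Circuit J) (σ : (I → Bool) → (J → Bool)) {h : ℕ} {d : ℕ}
    (hdepth : C.depth ≤ d) {S : ℕ} (hS : C.size ≤ S) {L l : ℕ}
    (hlen : Fintype.card J + S + 2 ≤ 2 ^ l) {c : ℝ} (hc : 1 ≤ c) {Bg Bs : ℝ}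
    (hBg : ∑ H ∈ univ.filter (fun H : Finset M => L ≤ H.card ∧ H.card ≤ 2 * L - 2),
      c ^ H.card * (((2 * (h * l)) ^ H.card * κ H : ℕ) : ℝ) ≤ Bg)
    (hBs : ∑ H ∈ univ.filter (fun H : Finset M => 1 ≤ H.card ∧ H.card < L),
      c ^ H.card * (((2 * h) ^ H.card * κ H : ℕ) : ℝ) ≤ Bs)
    (Y : I → Bool) (ρ : Restr I) (D : I → Bool)
    (hB : Bas (fun x => σ (mask Y x)) h ρ) (hG : Good C (fun x => σ (mask Y x)) h d ρ) :
    ∑ k : T × Ty C M, c ^ k.2.hset.card *
      (if EvR C σ vr d L k.1 Y ρ D k.2 then (1 : ℝ) else 0) ≤ S * Bg + Bs := by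
  have hc0 : 0 ≤ c := by linarith
  have hBg0 : 0 ≤ Bg := le_trans (Finset.sum_nonneg fun H _ => by positivity) hBg
  rw [Fintype.sum_prod_type_right, Fintype.sum_sum_type]
  apply add_le_add
  · rw [Fintype.sum_prod_type]
    have h1 : ∀ g : Fin C.size, ∑ H : Finset M,
        ∑ a : T, c ^ (Ty.hset (C := C) (Sum.inl (g, H))).card *
        (if EvR C σ vr d L a Y ρ D (Sum.inl (g, H)) then (1 : ℝ) else 0) ≤ Bg := by
      intro g
      refine le_trans ?_ hBg
      rw [Finset.sum_filter]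
      refine Finset.sum_le_sum fun H _ => ?_
      by_cases hc1 : L ≤ H.card ∧ H.card ≤ 2 * L - 2
      · rw [if_pos hc1]
        by_cases hgd : C.gateDepth g ≤ d
        · have h3 := gate_count vr hvr κ hκ C σ g hgd H (l := l) (by
              have := pl_length C g
              omega) Y ρ D hG
          have h4 : ∑ a : T, c ^ (Ty.hset (C := C) (Sum.inl (g, H))).card *
              (if EvR C σ vr d L a Y ρ D (Sum.inl (g, H)) then (1 : ℝ) else 0) =
              c ^ H.card * ∑ a : T, (if ∃ i ≤ (pl C g).length,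
                cf (rs (fun x => gfun C g (σ (mask Y x)) ((pl C g).take i)) ρ) D
                (H.image (vr a)) ≠ 0 then (1 : ℝ) else 0) := by
            rw [Finset.mul_sum]
            refine Finset.sum_congr rfl fun a _ => ?_
            have e1 : (Ty.hset (C := C) (Sum.inl (g, H))) = H := rfl
            rw [e1]
            congr 1
            have e2 : EvR C σ vr d L a Y ρ D (Sum.inl (g, H)) ↔ ∃ i ≤ (pl C g).length,
                cf (rs (fun x => gfun C g (σ (mask Y x)) ((pl C g).take i)) ρ) D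
                (H.image (vr a)) ≠ 0 := by
              constructor
              · exact fun h => h.2
              · exact fun h => ⟨⟨hgd, hc1⟩, h⟩
            simp only [e2]
          rw [h4]
          exact mul_le_mul_of_nonneg_left h3 (by positivity)
        · have h4 : ∑ a : T, c ^ (Ty.hset (C := C) (Sum.inl (g, H))).card *
              (if EvR C σ vr d L a Y ρ D (Sum.inl (g, H)) then (1 : ℝ) else 0) = 0 := by
            refine Finset.sum_eq_zero fun a _ => ?_
            rw [if_neg, mul_zero]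
            exact fun h => hgd h.1.1
          rw [h4]
          positivity
      · rw [if_neg hc1]
        apply le_of_eq
        refine Finset.sum_eq_zero fun a _ => ?_
        rw [if_neg, mul_zero]
        exact fun h => hc1 h.1.2
    refine (Finset.sum_le_card_nsmul _ _ _ (fun g _ => h1 g)).trans ?_
    rw [nsmul_eq_mul, Finset.card_univ, Fintype.card_fin]
    apply mul_le_mul_of_nonneg_right _ hBg0
    exact_mod_cast hS
  · refine le_trans ?_ hBs
    rw [Finset.sum_filter]
    refine Finset.sum_le_sum fun H _ => ?_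
    by_cases hH : 1 ≤ H.card ∧ H.card < L
    · rw [if_pos hH]
      show (∑ a : T, c ^ H.card *
        (if EvR C σ vr d L a Y ρ D (Sum.inr H) then (1 : ℝ) else 0)) ≤ _
      rw [← Finset.mul_sum]
      apply mul_le_mul_of_nonneg_left _ (by positivity)
      have e2 : ∀ a : T, EvR C σ vr d L a Y ρ D (Sum.inr H) ↔
          cf (rs (fun x => C.eval (σ (mask Y x))) ρ) D (H.image (vr a)) ≠ 0 := by
        intro a
        constructor
        · exact fun h => h.2
        · exact fun h => ⟨hH, h⟩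
      simp only [e2]
      rw [Finset.sum_boole]
      obtain ⟨Fam, hF1, hF2⟩ := fam_exists D h _
        (out_DT2 C (fun x => σ (mask Y x)) hB hG hdepth) H.card
      have h3 := count_fam vr κ hκ H Fam hF1 (fun a : T =>
        cf (rs (fun x => C.eval (σ (mask Y x))) ρ) D (H.image (vr a)) ≠ 0) (by
        intro a hne
        exact hF2 _ (Finset.card_image_of_injective _ (hvr a)) hne)
      exact_mod_cast h3
    · rw [if_neg hH]
      apply le_of_eq
      refine Finset.sum_eq_zero fun a _ => ?_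
      rw [if_neg, mul_zero]
      exact fun h => hH h.1

open Classical in
/-- The bound for all restrictions. -/
lemma all_bound (vr : T → M → I)
    (C : Circuit J) (σ : (I → Bool) → (J → Bool)) {d : ℕ}
    {S : ℕ} (hS : C.size ≤ S) {L : ℕ} {c : ℝ} (hc : 1 ≤ c)
    (Y : I → Bool) (ρ : Restr I) (D : I → Bool) :
    ∑ k : T × Ty C M, c ^ k.2.hset.card *
      (if EvR C σ vr d L k.1 Y ρ D k.2 then (1 : ℝ) else 0) ≤
      (Fintype.card T : ℝ) * (((S : ℝ) + 1) * 2 ^ (Fintype.card M) * c ^ (2 * L)) := by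
  have hc0 : 0 ≤ c := by linarith
  have h1 : ∀ k : T × Ty C M, c ^ k.2.hset.card *
      (if EvR C σ vr d L k.1 Y ρ D k.2 then (1 : ℝ) else 0) ≤ c ^ (2 * L) := by
    intro k
    by_cases hk : EvR C σ vr d L k.1 Y ρ D k.2
    · rw [if_pos hk, mul_one]
      apply pow_le_pow_right₀ hc
      rcases k with ⟨a, ⟨g, H⟩ | H⟩
      · have h2 : H.card ≤ 2 * L - 2 := hk.1.2.2
        show H.card ≤ 2 * L
        omega
      · have h2 : H.card < L := hk.1.2
        show H.card ≤ 2 * L
        omega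
    · rw [if_neg hk, mul_zero]; positivity
  refine (Finset.sum_le_card_nsmul _ _ _ (fun k _ => h1 k)).trans ?_
  rw [nsmul_eq_mul, Finset.card_univ, Fintype.card_prod, Fintype.card_sum, Fintype.card_prod,
    Fintype.card_fin, Fintype.card_finset]
  push_cast
  have h2 : (C.size : ℝ) ≤ S := by exact_mod_cast hS
  have h3 : (C.size : ℝ) * 2 ^ (Fintype.card M) + 2 ^ (Fintype.card M) ≤
      ((S : ℝ) + 1) * 2 ^ (Fintype.card M) := by
    have h5 : (0 : ℝ) ≤ 2 ^ (Fintype.card M) := by positivity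
    nlinarith
  calc (Fintype.card T : ℝ) * ((C.size : ℝ) * 2 ^ (Fintype.card M) + 2 ^ (Fintype.card M)) *
        c ^ (2 * L) ≤ (Fintype.card T : ℝ) * (((S : ℝ) + 1) * 2 ^ (Fintype.card M)) *
        c ^ (2 * L) := by gcongr
    _ = _ := by ring

open Classical in
/-- The number of planted instances to which the circuit is sensitive. -/
noncomputable def cntS (vr : T → M → I) (σ : (I → Bool) → (J → Bool)) (C : Circuit J)
    (X : I → Bool) : ℝ :=
  ∑ a : T, if C.eval (σ X) ≠ C.eval (σ (plant (vr a) univ X)) then (1 : ℝ) else 0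

lemma cntS_nonneg (vr : T → M → I) (σ : (I → Bool) → (J → Bool)) (C : Circuit J)
    (X : I → Bool) : 0 ≤ cntS vr σ C X := by
  unfold cntS
  refine Finset.sum_nonneg fun a _ => ?_
  split_ifs <;> norm_num

lemma cntS_le (vr : T → M → I) (σ : (I → Bool) → (J → Bool)) (C : Circuit J)
    (X : I → Bool) : cntS vr σ C X ≤ Fintype.card T := by
  classical
  unfold cntS
  calc _ ≤ ∑ _a : T, (1 : ℝ) := by
        refine Finset.sum_le_sum fun a _ => ?_
        split_ifs <;> norm_num
    _ = Fintype.card T := by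
        rw [Finset.sum_const, Finset.card_univ, nsmul_eq_mul, mul_one]

open Classical in
/-- The weighted number of planted instances to which a circuit is sensitive. -/
theorem circ_weighted [Fintype J] (vr : T → M → I) (hvr : ∀ a, Function.Injective (vr a))
    (κ : Finset M → ℕ)
    (hκ : ∀ (H : Finset M) (V : Finset I),
      (univ.filter (fun a : T => H.image (vr a) = V)).card ≤ κ H)
    (C : Circuit J) (σ : (I → Bool) → (J → Bool))
    (hin : ∀ (a : T) (X : I → Bool) (j : J), Low 1 (pf (fun x => σ x j) (vr a) X))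
    {h : ℕ} {d τ : ℕ} (hτ : 3 ≤ τ)
    (hdepth : C.depth ≤ d) {S : ℕ} (hS : C.size ≤ S) {L l : ℕ} (hL : 2 ≤ L)
    (hlen : Fintype.card J + S + 2 ≤ 2 ^ l)
    {y q0 q c ε ε0 : ℝ} (hy0 : 0 < y) (hy1 : y ≤ 1) (hq00 : 0 < q0) (hq01 : q0 ≤ 1)
    (hq : q = q0 * (1 / (τ : ℝ)) ^ d)
    (hbas : Ex (vp y) (fun Y : I → Bool => Ex (wq q0) (fun ρ : Restr I =>
      if ¬ Bas (fun x => σ (mask Y x)) h ρ then (1 : ℝ) else 0)) ≤ ε0)
    (hcyq : 2 ≤ c * (y * q)) (hc : 1 ≤ c)
    (hε : ε0 + d * ((S * (Fintype.card J + S + 1) : ℕ) : ℝ) *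
      (12 * h * (1 / (τ : ℝ))) ^ (h + 1) ≤ ε) {Bg Bs : ℝ}
    (hBg : ∑ H ∈ univ.filter (fun H : Finset M => L ≤ H.card ∧ H.card ≤ 2 * L - 2),
      c ^ H.card * (((2 * (h * l)) ^ H.card * κ H : ℕ) : ℝ) ≤ Bg)
    (hBs : ∑ H ∈ univ.filter (fun H : Finset M => 1 ≤ H.card ∧ H.card < L),
      c ^ H.card * (((2 * h) ^ H.card * κ H : ℕ) : ℝ) ≤ Bs)
    (ψ : (I → Bool) → ℝ) (hψ0 : ∀ X, 0 ≤ ψ X) {B0 : ℝ} (hψ1 : ∀ X, ψ X ≤ B0) :
    Ex (vp (y / 2)) (fun X => ψ X * cntS vr σ C X) ≤
    (S * Bg + Bs) * Ex (vp (y / 2)) ψ +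
      B0 * ((Fintype.card T : ℝ) * (((S : ℝ) + 1) * 2 ^ (Fintype.card M) *
        c ^ (2 * L))) * ε := by
  have hτ1 : (1 : ℝ) ≤ τ := by exact_mod_cast (by omega : 1 ≤ τ)
  have hτ0 : (0 : ℝ) < τ := by linarith
  have hq0 : 0 < q := by rw [hq]; positivity
  have hq1 : q ≤ 1 := by
    rw [hq]
    apply mul_le_one₀ hq01 (by positivity)
    apply pow_le_one₀ (by positivity)
    rw [div_le_one hτ0]; exact hτ1
  have h13 : (1 : ℝ) / τ ≤ 1 / 3 := by
    apply one_div_le_one_div_of_le (by norm_num)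
    exact_mod_cast hτ
  have hB00 : 0 ≤ B0 := (hψ0 (fun _ => false)).trans (hψ1 _)
  obtain ⟨Bd, hBd⟩ : ∃ Bd : ℝ, Bd = S * Bg + Bs := ⟨_, rfl⟩
  obtain ⟨Big, hBig⟩ : ∃ Big : ℝ, Big = (Fintype.card T : ℝ) *
    (((S : ℝ) + 1) * 2 ^ (Fintype.card M) * c ^ (2 * L)) := ⟨_, rfl⟩
  rw [← hBd, ← hBig]
  have hc0 : 0 ≤ c := by linarith
  have hBig0 : 0 ≤ Big := by rw [hBig]; positivity
  have hBs0 : 0 ≤ Bs := le_trans (Finset.sum_nonneg fun H _ => by positivity) hBs
  have hBg0 : 0 ≤ Bg := le_trans (Finset.sum_nonneg fun H _ => by positivity) hBg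
  have hBd0 : 0 ≤ Bd := by rw [hBd]; positivity
  -- step 1: pointwise
  have hp0 : 0 ≤ y / 2 := by linarith
  have hp1 : y / 2 ≤ 1 := by linarith
  have hstep1 : Ex (vp (y / 2)) (fun X => ψ X * cntS vr σ C X) ≤
      Ex (vp (y / 2)) (fun X => ψ X * ∑ k : T × Ty C M,
        (if EvX C σ vr d L k.1 X k.2 then (1 : ℝ) else 0)) := by
    apply Ex_mono (vp_nonneg hp0 hp1)
    intro X
    apply mul_le_mul_of_nonneg_left _ (hψ0 X)
    unfold cntS
    rw [Fintype.sum_prod_type]
    refine Finset.sum_le_sum fun a _ => ?_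
    have hnn : ∀ θ ∈ (univ : Finset (Ty C M)), (0 : ℝ) ≤
        (if EvX C σ vr d L a X θ then (1 : ℝ) else 0) := by
      intro θ _
      split_ifs <;> norm_num
    by_cases hs : C.eval (σ X) ≠ C.eval (σ (plant (vr a) univ X))
    · rw [if_pos hs]
      obtain ⟨θ, hθ⟩ := sens_evX C σ vr hL hdepth a X (hin a X) hs
      refine le_trans ?_ (Finset.single_le_sum hnn (Finset.mem_univ θ))
      rw [if_pos hθ]
    · rw [if_neg hs]
      exact Finset.sum_nonneg hnn
  refine hstep1.trans ?_
  -- step 2: comparison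
  have hstep2 := weighted_compare (I := I) (K := T × Ty C M)
    (fun k X => if EvX C σ vr d L k.1 X k.2 then (1 : ℝ) else 0)
    (fun k ω => if EvR C σ vr d L k.1 (fun i => (ω i).1) (fun i => (ω i).2.1)
      (fun i => (ω i).2.2) k.2 then (1 : ℝ) else 0)
    (fun k => k.2.hset.image (vr k.1)) (by intro k X; split_ifs <;> norm_num)
    (by intro k X; split_ifs <;> norm_num) (by
      intro k ω hω
      by_cases h1 : EvX C σ vr d L k.1 (fun i => h3 (ω i)) k.2
      · rw [if_pos h1, if_pos (evX_evR C σ vr hvr d L k.1 k.2 ω hω h1)]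
      · rw [if_neg h1]
        split_ifs <;> norm_num) hy0 hy1 hq0 hq1 hcyq hc ψ hψ0
  refine hstep2.trans ?_
  -- step 3: bound for each point
  have hpt : ∀ ω : I → Bool × (Option Bool × Bool),
      ψ (fun i => h3 (ω i)) * ∑ k : T × Ty C M,
        c ^ (k.2.hset.image (vr k.1)).card *
        (if EvR C σ vr d L k.1 (fun i => (ω i).1) (fun i => (ω i).2.1)
        (fun i => (ω i).2.2) k.2 then (1 : ℝ) else 0) ≤
      Bd * ψ (fun i => h3 (ω i)) + (B0 * Big) *
        (if ¬ (Bas (fun x => σ (mask (fun i => (ω i).1) x)) h (fun i => (ω i).2.1) ∧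
          Good C (fun x => σ (mask (fun i => (ω i).1) x)) h d
        (fun i => (ω i).2.1)) then (1 : ℝ) else 0) := by
    intro ω
    have hcard : ∀ k : T × Ty C M,
        (k.2.hset.image (vr k.1)).card = k.2.hset.card := fun k =>
      Finset.card_image_of_injective _ (hvr k.1)
    simp only [hcard]
    have hψω := hψ0 (fun i => h3 (ω i))
    by_cases hG : Bas (fun x => σ (mask (fun i => (ω i).1) x)) h (fun i => (ω i).2.1) ∧
      Good C (fun x => σ (mask (fun i => (ω i).1) x)) h d (fun i => (ω i).2.1)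
    · rw [if_neg (not_not.2 hG), mul_zero, add_zero, mul_comm Bd]
      apply mul_le_mul_of_nonneg_left _ hψω
      rw [hBd]
      exact good_bound vr hvr κ hκ C σ hdepth hS hlen hc hBg hBs _ _ _ hG.1 hG.2
    · rw [if_pos hG, mul_one]
      have h1 := all_bound (L := L) (d := d) vr C σ hS hc
        (fun i => (ω i).1) (fun i => (ω i).2.1) (fun i => (ω i).2.2)
      rw [← hBig] at h1
      have h2 : 0 ≤ Bd * ψ (fun i => h3 (ω i)) := mul_nonneg hBd0 hψω
      have h4 : ψ (fun i => h3 (ω i)) * ∑ k : T × Ty C M,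
          c ^ k.2.hset.card *
          (if EvR C σ vr d L k.1 (fun i => (ω i).1) (fun i => (ω i).2.1)
          (fun i => (ω i).2.2) k.2 then (1 : ℝ) else 0) ≤ B0 * Big :=
        (mul_le_mul_of_nonneg_left h1 hψω).trans (mul_le_mul_of_nonneg_right (hψ1 _) hBig0)
      linarith
  refine (Ex_mono (w3_nonneg hy0.le hy1 hq0.le hq1) hpt).trans ?_
  rw [Ex_add, Ex_smul (w3 y q) (B0 * Big), Ex_smul (w3 y q) Bd]
  have hpush : Ex (w3 y q) (fun ω : I → Bool × (Option Bool × Bool) =>
      ψ (fun i => h3 (ω i))) = Ex (vp (y / 2)) ψ :=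
    Ex_push (I := I) h3 (w3 y q) (vp (y / 2)) (fun b => h3_push b) ψ
  rw [hpush]
  have hfail : Ex (w3 y q) (fun ω : I → Bool × (Option Bool × Bool) =>
      (if ¬ (Bas (fun x => σ (mask (fun i => (ω i).1) x)) h (fun i => (ω i).2.1) ∧
          Good C (fun x => σ (mask (fun i => (ω i).1) x)) h d
        (fun i => (ω i).2.1)) then (1 : ℝ) else 0)) ≤ ε := by
    obtain ⟨R, hR⟩ : ∃ R : ℝ, R = d * ((S * (Fintype.card J + S + 1) : ℕ) : ℝ) *
      (12 * h * (1 / (τ : ℝ))) ^ (h + 1) := ⟨_, rfl⟩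
    have e1 : Ex (w3 y q) (fun ω : I → Bool × (Option Bool × Bool) =>
      (if ¬ (Bas (fun x => σ (mask (fun i => (ω i).1) x)) h (fun i => (ω i).2.1) ∧
          Good C (fun x => σ (mask (fun i => (ω i).1) x)) h d
        (fun i => (ω i).2.1)) then (1 : ℝ) else 0)) =
        Ex (vp y) (fun Y => Ex (fun e : Option Bool × Bool => wq q e.1 * vp (1 / 2) e.2)
          (fun ω => (if ¬ (Bas (fun x => σ (mask Y x)) h (fun i => (ω i).1) ∧
            Good C (fun x => σ (mask Y x)) h d
        (fun i => (ω i).1)) then (1 : ℝ) else 0))) :=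
      Ex_prod (I := I) (vp y)
        (fun e : Option Bool × Bool => wq q e.1 * vp (1 / 2) e.2) _
    rw [e1]
    have e2 : ∀ Y : I → Bool,
        Ex (fun e : Option Bool × Bool => wq q e.1 * vp (1 / 2) e.2)
          (fun ω : I → Option Bool × Bool =>
            (if ¬ (Bas (fun x => σ (mask Y x)) h (fun i => (ω i).1) ∧
              Good C (fun x => σ (mask Y x)) h d
        (fun i => (ω i).1)) then (1 : ℝ) else 0)) ≤
        Ex (wq q0) (fun ρ : Restr I =>
          if ¬ Bas (fun x => σ (mask Y x)) h ρ then (1 : ℝ) else 0) + R := by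
      intro Y
      refine (Ex_prod (I := I) (wq q) (vp (1 / 2)) _).le.trans ?_
      have e3 : ∀ ρ : Restr I, Ex (vp (1 / 2))
          (fun _ : I → Bool =>
            (if ¬ (Bas (fun x => σ (mask Y x)) h ρ ∧
              Good C (fun x => σ (mask Y x)) h d ρ) then (1 : ℝ) else 0)) =
            (if ¬ (Bas (fun x => σ (mask Y x)) h ρ ∧
              Good C (fun x => σ (mask Y x)) h d ρ) then (1 : ℝ) else 0) :=
        fun ρ => Ex_const (vp_sum (1 / 2)) _
      have h3 := collapse2 C (fun x => σ (mask Y x))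
        (q := 1 / (τ : ℝ)) (by positivity) h13 hq00.le hq01 (h := h) (le_refl _) d
      rw [← hq] at h3
      refine le_trans (le_of_eq ?_) (h3.trans (le_trans ?_ (le_refl _)))
      · congr 1
        funext ρ
        exact e3 ρ
      · apply add_le_add (le_refl _)
        rw [hR]
        apply mul_le_mul_of_nonneg_right _ (by positivity)
        apply mul_le_mul_of_nonneg_left _ (by positivity)
        have : C.size * (Fintype.card J + C.size + 1) ≤ S * (Fintype.card J + S + 1) :=
          Nat.mul_le_mul hS (by omega)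
        exact_mod_cast this
    refine (Ex_mono (vp_nonneg hy0.le hy1) e2).trans ?_
    rw [Ex_add, Ex_const (I := I) (vp_sum y) R]
    rw [hR]
    linarith
  have h5 := mul_le_mul_of_nonneg_left hfail (by positivity : 0 ≤ B0 * Big)
  linarith

end Mo

end H592R3.Hp
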