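import Mathlib
import Pool.Agent.H592R4.Core

/-!
Public-coin interactive proofs and hidden plants.
-/

set_option linter.unusedSectionVars false

namespace H592R3.Hp

open Finset DomAC0 H568R2 SmallDepth

section Mo
variable {I M T J : Type} [Fintype I] [DecidableEq I] [Fintype M] [DecidableEq M] [Fintype T]

open Classical in
/-- The moments of the number of planted instances to which a circuit is sensitive. -/
theorem circ_moment [Fintype J] (vr : T → M → I) (hvr : ∀ a, Function.Injective (vr a))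
    (κ : Finset M → ℕ)
    (hκ : ∀ (H : Finset M) (V : Finset I),
      (univ.filter (fun a : T => H.image (vr a) = V)).card ≤ κ H)
    (C : Circuit J) (σ : (I → Bool) → (J → Bool))
    (hin : ∀ (a : T) (X : I → Bool) (j : J), Low 1 (pf (fun x => σ x j) (vr a) X))
    {h : ℕ} {d τ : ℕ} (hτ : 3 ≤ τ)
    (hdepth : C.depth ≤ d) {S : ℕ} (hS : C.size ≤ S) {L l : ℕ} (hL : 2 ≤ L)
    (hlen : Fintype.card J + S + 2 ≤ 2 ^ l)
    {y q0 q c ε ε0 : ℝ} (hy0 : 0 < y) (hy1 : y ≤ 1) (hq00 : 0 < q0) (hq01 : q0 ≤ 1)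
    (hq : q = q0 * (1 / (τ : ℝ)) ^ d)
    (hbas : Ex (vp y) (fun Y : I → Bool => Ex (wq q0) (fun ρ : Restr I =>
      if ¬ Bas (fun x => σ (mask Y x)) h ρ then (1 : ℝ) else 0)) ≤ ε0)
    (hcyq : 2 ≤ c * (y * q)) (hc : 1 ≤ c)
    (hε : ε0 + d * ((S * (Fintype.card J + S + 1) : ℕ) : ℝ) *
      (12 * h * (1 / (τ : ℝ))) ^ (h + 1) ≤ ε) {Bg Bs : ℝ}
    (hBg : ∑ H ∈ univ.filter (fun H : Finset M => L ≤ H.card ∧ H.card ≤ 2 * L - 2),
      c ^ H.card * (((2 * (h * l)) ^ H.card * κ H : ℕ) : ℝ) ≤ Bg)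
    (hBs : ∑ H ∈ univ.filter (fun H : Finset M => 1 ≤ H.card ∧ H.card < L),
      c ^ H.card * (((2 * h) ^ H.card * κ H : ℕ) : ℝ) ≤ Bs)
    (hBN : S * Bg + Bs ≤ Fintype.card T) (t : ℕ) :
    Ex (vp (y / 2)) (fun X => cntS vr σ C X ^ t) ≤
    (S * Bg + Bs) ^ t + t * ((Fintype.card T : ℝ)) ^ t * (((S : ℝ) + 1) * 2 ^ (Fintype.card M) *
        c ^ (2 * L)) * ε := by
  have hc0 : 0 ≤ c := by linarith
  obtain ⟨R, hR⟩ : ∃ R : ℝ, R = ((S : ℝ) + 1) * 2 ^ (Fintype.card M) * c ^ (2 * L) := ⟨_, rfl⟩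
  have hR0 : 0 ≤ R := by rw [hR]; positivity
  have hBs0 : 0 ≤ Bs := le_trans (Finset.sum_nonneg fun H _ => by positivity) hBs
  have hBg0 : 0 ≤ Bg := le_trans (Finset.sum_nonneg fun H _ => by positivity) hBg
  have hε00 : 0 ≤ ε0 := by
    refine le_trans (Ex_nonneg (vp_nonneg hy0.le hy1) fun Y =>
      Ex_nonneg (wq_nonneg hq00.le hq01) fun ρ => ?_) hbas
    split_ifs <;> norm_num
  have hε0 : 0 ≤ ε := le_trans (by positivity) hε
  induction t with
  | zero =>
    simp only [pow_zero, Nat.cast_zero, zero_mul, add_zero]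
    exact (Ex_const (I := I) (vp_sum (y / 2)) (1 : ℝ)).le
  | succ t ih =>
    have h1 := circ_weighted vr hvr κ hκ C σ hin hτ hdepth hS hL hlen hy0 hy1 hq00 hq01 hq hbas
      hcyq hc hε hBg hBs
      (fun X => cntS vr σ C X ^ t) (fun X => pow_nonneg (cntS_nonneg vr σ C X) t)
      (B0 := ((Fintype.card T : ℝ)) ^ t) (fun X => pow_le_pow_left₀ (cntS_nonneg vr σ C X)
        (cntS_le vr σ C X) t)
    rw [← hR] at ih h1 ⊢
    obtain ⟨Bd, hBd⟩ : ∃ Bd : ℝ, Bd = S * Bg + Bs := ⟨_, rfl⟩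
    have hBd0 : 0 ≤ Bd := by rw [hBd]; positivity
    rw [← hBd] at ih h1 hBN ⊢
    obtain ⟨NN, hNN⟩ : ∃ NN : ℝ, NN = (Fintype.card T : ℝ) := ⟨_, rfl⟩
    rw [← hNN] at ih h1 hBN ⊢
    have hNN0 : 0 ≤ NN := by rw [hNN]; positivity
    have h2 : Ex (vp (y / 2)) (fun X => cntS vr σ C X ^ (t + 1)) ≤
        Bd * Ex (vp (y / 2)) (fun X => cntS vr σ C X ^ t) +
        NN ^ t * (NN * R) * ε := by
      simp only [pow_succ]
      exact h1
    have h3 : Bd * Ex (vp (y / 2)) (fun X => cntS vr σ C X ^ t) ≤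
        Bd * (Bd ^ t + t * NN ^ t * R * ε) := mul_le_mul_of_nonneg_left ih hBd0
    have h4 : Bd * (t * NN ^ t * R * ε) ≤ NN * (t * NN ^ t * R * ε) :=
      mul_le_mul_of_nonneg_right hBN (by positivity)
    push_cast
    have e1 : Bd * (Bd ^ t + t * NN ^ t * R * ε) = Bd ^ (t + 1) + Bd * (t * NN ^ t * R * ε) := by
      ring
    have e2 : ((t : ℝ) + 1) * NN ^ (t + 1) * R * ε =
        NN * (t * NN ^ t * R * ε) + NN ^ t * (NN * R) * ε := by ring
    linarith

/-- The value of the game with payoff `cntS`. -/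
noncomputable def ms (vr : T → M → I) (σ : (I → Bool) → (J → Bool)) :
    Game J → (I → Bool) → ℝ
  | .verify C, X => cntS vr σ C X
  | .merlin _ next, X => ⨆ z, ms vr σ (next z) X
  | .arthur _ p next, X => ∑ i, p i * ms vr σ (next i) X

lemma exists_sup {k : ℕ} (f : Fin (2 ^ k) → ℝ) : ∃ z, f z = ⨆ z, f z := by
  have : Nonempty (Fin (2 ^ k)) := ⟨⟨0, by positivity⟩⟩
  exact exists_eq_ciSup_of_finite

lemma le_sup {k : ℕ} (f : Fin (2 ^ k) → ℝ) (z) : f z ≤ ⨆ z, f z :=
  le_ciSup (Set.finite_range f).bddAbove z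

lemma ms_nonneg (vr : T → M → I) (σ : (I → Bool) → (J → Bool)) {d S : ℕ} (X : I → Bool) :
    ∀ (G : Game J) (g : ℕ), G.Bounded d S g → 0 ≤ ms vr σ G X := by
  intro G
  induction G with
  | verify C => intro g _; exact cntS_nonneg vr σ C X
  | merlin k next ih =>
    intro g hG
    obtain ⟨z, hz⟩ := exists_sup (fun z => ms vr σ (next z) X)
    show 0 ≤ ⨆ z, ms vr σ (next z) X
    rw [← hz]
    exact ih z _ (hG.2 z)
  | arthur N p next ih =>
    intro g hG
    exact Finset.sum_nonneg fun i _ => mul_nonneg (hG.1 i) (ih i _ (hG.2.2 i))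

/-- The gain of the game is bounded by the number of sensitive instances. -/
lemma game_diff (vr : T → M → I) (σ : (I → Bool) → (J → Bool)) {d S : ℕ}
    (X : I → Bool) (u : T → ℝ) (hu0 : ∀ a, 0 ≤ u a) (hu1 : ∀ a, u a ≤ 1) :
    ∀ (G : Game J) (g : ℕ), G.Bounded d S g →
    ∑ a : T, u a * (G.value (σ X) - G.value (σ (plant (vr a) univ X))) ≤ ms vr σ G X := by
  classical
  intro G
  induction G with
  | verify C =>
    intro g _
    show _ ≤ cntS vr σ C X
    unfold cntS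
    refine Finset.sum_le_sum fun a _ => ?_
    by_cases hs : C.eval (σ X) ≠ C.eval (σ (plant (vr a) univ X))
    · rw [if_pos hs]
      have h1 : (Game.verify C).value (σ X) - (Game.verify C).value (σ (plant (vr a) univ X))
          ≤ 1 := by
        simp only [Game.value]
        split_ifs <;> norm_num
      have h2 := hu0 a
      have h3 := hu1 a
      nlinarith
    · rw [if_neg hs]
      rw [not_not] at hs
      have h5 : (Game.verify C).value (σ X) - (Game.verify C).value (σ (plant (vr a) univ X))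
          = 0 := by
        simp only [Game.value]
        rw [hs, sub_self]
      rw [h5, mul_zero]
  | merlin k next ih =>
    intro g hG
    obtain ⟨z, hz⟩ := exists_sup (fun z => (next z).value (σ X))
    have h1 := ih z _ (hG.2 z)
    have h2 := le_sup (fun z => ms vr σ (next z) X) z
    refine le_trans ?_ (h1.trans h2)
    refine Finset.sum_le_sum fun a _ => mul_le_mul_of_nonneg_left ?_ (hu0 a)
    have h3 := le_sup (fun z => (next z).value (σ (plant (vr a) univ X))) z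
    have h4 : (Game.merlin k next).value (σ X) = (next z).value (σ X) := hz.symm
    have h5 : (next z).value (σ (plant (vr a) univ X)) ≤
      (Game.merlin k next).value (σ (plant (vr a) univ X)) := h3
    rw [h4]
    linarith
  | arthur N p next ih =>
    intro g hG
    have h1 : ∑ a : T, u a * ((Game.arthur N p next).value (σ X) -
        (Game.arthur N p next).value (σ (plant (vr a) univ X))) =
        ∑ i, p i * ∑ a : T, u a * ((next i).value (σ X) -
        (next i).value (σ (plant (vr a) univ X))) := by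
      simp only [Game.value]
      simp only [Finset.mul_sum]
      rw [Finset.sum_comm]
      refine Finset.sum_congr rfl fun a _ => ?_
      rw [← Finset.sum_sub_distrib, Finset.mul_sum]
      refine Finset.sum_congr rfl fun i _ => by ring
    rw [h1]
    show _ ≤ ∑ i, p i * ms vr σ (next i) X
    exact Finset.sum_le_sum fun i _ => mul_le_mul_of_nonneg_left (ih i _ (hG.2.2 i)) (hG.1 i)

/-- The moments of the game value. -/
lemma game_moment (vr : T → M → I) (σ : (I → Bool) → (J → Bool)) {d S t : ℕ}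
    {p : ℝ} (hp0 : 0 ≤ p) (hp1 : p ≤ 1) {R : ℝ} (hR0 : 0 ≤ R)
    (hR : ∀ C : Circuit J, C.depth ≤ d → C.size ≤ S →
      Ex (vp p) (fun X => (cntS vr σ C X) ^ t) ≤ R) :
    ∀ (G : Game J) (g : ℕ), G.Bounded d S g →
    Ex (vp p) (fun X => (ms vr σ G X) ^ t) ≤ 2 ^ g * R := by
  intro G
  induction G with
  | verify C =>
    intro g hG
    refine (hR C hG.1 hG.2).trans ?_
    have : (1 : ℝ) ≤ 2 ^ g := one_le_pow₀ (by norm_num)
    nlinarith
  | merlin k next ih =>
    intro g hG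
    have h1 : ∀ X, (ms vr σ (Game.merlin k next) X) ^ t ≤ ∑ z, (ms vr σ (next z) X) ^ t := by
      intro X
      obtain ⟨z, hz⟩ := exists_sup (fun z => ms vr σ (next z) X)
      have h2 : ms vr σ (Game.merlin k next) X = ms vr σ (next z) X := hz.symm
      rw [h2]
      exact Finset.single_le_sum (f := fun z => (ms vr σ (next z) X) ^ t)
        (fun z _ => pow_nonneg (ms_nonneg vr σ X (next z) _ (hG.2 z)) t) (Finset.mem_univ z)
    refine (Ex_mono (vp_nonneg hp0 hp1) h1).trans ?_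
    rw [Ex_sum]
    have h3 : ∀ z ∈ (univ : Finset (Fin (2 ^ k))),
        Ex (vp p) (fun X => (ms vr σ (next z) X) ^ t) ≤ 2 ^ (g - k) * R := fun z _ =>
      ih z _ (hG.2 z)
    refine (Finset.sum_le_card_nsmul _ _ _ h3).trans ?_
    rw [Finset.card_univ, Fintype.card_fin, nsmul_eq_mul, ← mul_assoc]
    push_cast
    rw [← pow_add]
    have : k + (g - k) = g := by have := hG.1; omega
    rw [this]
  | arthur N p' next ih =>
    intro g hG
    have h1 : ∀ X, (ms vr σ (Game.arthur N p' next) X) ^ t ≤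
        ∑ i, p' i * (ms vr σ (next i) X) ^ t := by
      intro X
      exact Real.pow_arith_mean_le_arith_mean_pow univ p' (fun i => ms vr σ (next i) X)
        (fun i _ => hG.1 i) hG.2.1 (fun i _ => ms_nonneg vr σ X (next i) _ (hG.2.2 i)) t
    refine (Ex_mono (vp_nonneg hp0 hp1) h1).trans ?_
    rw [Ex_sum]
    calc ∑ i, Ex (vp p) (fun X => p' i * (ms vr σ (next i) X) ^ t)
        ≤ ∑ i, p' i * (2 ^ g * R) := by
          refine Finset.sum_le_sum fun i _ => ?_
          rw [Ex_smul]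
          exact mul_le_mul_of_nonneg_left (ih i _ (hG.2.2 i)) (hG.1 i)
      _ = 2 ^ g * R := by rw [← Finset.sum_mul, hG.2.1, one_mul]

open Classical in
/-- The game gains on a plant. -/
lemma game_pt (vr : T → M → I) (σ : (I → Bool) → (J → Bool)) (G : Game J) {d S g : ℕ}
    (hG : G.Bounded d S g) (Uq : T → (I → Bool) → Prop)
    (hyes : ∀ a X, Uq a X → 2 / 3 ≤ G.value (σ X))
    (hno : ∀ a X, Uq a X → G.value (σ (plant (vr a) univ X)) ≤ 1 / 3) (X : I → Bool) :
    ∑ a : T, (1 / 3) * (1 - (if ¬ Uq a X then (1 : ℝ) else 0)) ≤ ms vr σ G X := by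
  have h1 := game_diff vr σ (d := d) (S := S) X
    (fun a => 1 - (if ¬ Uq a X then (1 : ℝ) else 0))
    (fun a => by split_ifs <;> norm_num)
    (fun a => by split_ifs <;> norm_num) G g hG
  refine le_trans (Finset.sum_le_sum fun a _ => ?_) h1
  by_cases hU : Uq a X
  · simp only [hU, not_true, if_false, sub_zero, mul_one, one_mul]
    have h3 := hyes a X hU
    have h4 := hno a X hU
    linarith
  · simp only [hU, not_false_iff, if_true, sub_self, mul_zero, zero_mul, le_refl]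

open Classical in
/-- A randomized circuit gains on a plant. -/
lemma rand_pt (vr : T → M → I) (σ : (I → Bool) → (J → Bool)) {N : ℕ}
    (p : Fin N → ℝ) (hp0 : ∀ i, 0 ≤ p i) (hp1 : ∑ i, p i = 1) (C : Fin N → Circuit J)
    (Uq : T → (I → Bool) → Prop)
    (hcor : ∀ a X, Uq a X →
      (2 : ℝ) / 3 ≤ ∑ i, if (C i).eval (σ X) = false then p i else 0)
    (hcor2 : ∀ a X, Uq a X →
      (2 : ℝ) / 3 ≤ ∑ i, if (C i).eval (σ (plant (vr a) univ X)) = true then p i else 0)
    (X : I → Bool) :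
    ∑ a : T, (1 / 3) * (1 - (if ¬ Uq a X then (1 : ℝ) else 0)) ≤
      ms vr σ (Game.arthur N p (fun i => .verify (C i))) X := by
  show _ ≤ ∑ i, p i * cntS vr σ (C i) X
  unfold cntS
  simp only [Finset.mul_sum]
  rw [Finset.sum_comm]
  refine Finset.sum_le_sum fun a _ => ?_
  have hnn : ∀ i ∈ (univ : Finset (Fin N)), (0 : ℝ) ≤ p i *
      (if (C i).eval (σ X) ≠ (C i).eval (σ (plant (vr a) univ X)) then (1 : ℝ) else 0) := by
    intro i _
    apply mul_nonneg (hp0 i)
    split_ifs <;> norm_num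
  by_cases hU : Uq a X
  · simp only [hU, not_true, if_false, sub_zero, mul_one]
    have e1 := hcor a X hU
    have e2 := hcor2 a X hU
    have h5 : ∑ i, (if (C i).eval (σ X) = false then p i else 0) +
        ∑ i, (if (C i).eval (σ (plant (vr a) univ X)) = true then p i else 0) ≤
        ∑ i, (p i + p i *
          (if (C i).eval (σ X) ≠ (C i).eval (σ (plant (vr a) univ X)) then (1 : ℝ) else 0)) := by
      rw [← Finset.sum_add_distrib]
      refine Finset.sum_le_sum fun i _ => ?_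
      have hpi := hp0 i
      cases c1 : (C i).eval (σ X) <;> cases c2 : (C i).eval (σ (plant (vr a) univ X)) <;>
        simp <;> linarith
    rw [Finset.sum_add_distrib, hp1] at h5
    linarith
  · simp only [hU, not_false_iff, if_true, sub_self, mul_zero]
    exact Finset.sum_nonneg hnn

lemma Ex_pow {p : ℝ} (hp0 : 0 ≤ p) (hp1 : p ≤ 1)
    (F : (I → Bool) → ℝ) (hF : ∀ X, 0 ≤ F X) (t : ℕ) :
    (Ex (vp p) F) ^ t ≤ Ex (vp p) (fun X => F X ^ t) := by
  unfold Ex
  apply Real.pow_arith_mean_le_arith_mean_pow univ (fun X : I → Bool => ∏ i, vp p (X i)) F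
    (fun X _ => Finset.prod_nonneg fun i _ => vp_nonneg hp0 hp1 _) _ (fun X _ => hF X) t
  have := Ex_const (I := I) (vp_sum p) (1 : ℝ)
  unfold Ex at this
  simpa using this

open Classical in
theorem game_core [Fintype J] (vr : T → M → I) (hvr : ∀ a, Function.Injective (vr a))
    (κ : Finset M → ℕ)
    (hκ : ∀ (H : Finset M) (V : Finset I),
      (univ.filter (fun a : T => H.image (vr a) = V)).card ≤ κ H)
    (G : Game J) (σ : (I → Bool) → (J → Bool))
    (hin : ∀ (a : T) (X : I → Bool) (j : J), Low 1 (pf (fun x => σ x j) (vr a) X))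
    {h : ℕ} {d τ : ℕ} (hτ : 3 ≤ τ)
    {S g : ℕ} (hG : G.Bounded d S g) {L l : ℕ} (hL : 2 ≤ L)
    (hlen : Fintype.card J + S + 2 ≤ 2 ^ l)
    {y q0 q c ε ε0 : ℝ} (hy0 : 0 < y) (hy1 : y ≤ 1) (hq00 : 0 < q0) (hq01 : q0 ≤ 1)
    (hq : q = q0 * (1 / (τ : ℝ)) ^ d)
    (hbas : Ex (vp y) (fun Y : I → Bool => Ex (wq q0) (fun ρ : Restr I =>
      if ¬ Bas (fun x => σ (mask Y x)) h ρ then (1 : ℝ) else 0)) ≤ ε0)
    (hcyq : 2 ≤ c * (y * q)) (hc : 1 ≤ c)
    (hε : ε0 + d * ((S * (Fintype.card J + S + 1) : ℕ) : ℝ) *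
      (12 * h * (1 / (τ : ℝ))) ^ (h + 1) ≤ ε) {Bg Bs : ℝ}
    (hBg : ∑ H ∈ univ.filter (fun H : Finset M => L ≤ H.card ∧ H.card ≤ 2 * L - 2),
      c ^ H.card * (((2 * (h * l)) ^ H.card * κ H : ℕ) : ℝ) ≤ Bg)
    (hBs : ∑ H ∈ univ.filter (fun H : Finset M => 1 ≤ H.card ∧ H.card < L),
      c ^ H.card * (((2 * h) ^ H.card * κ H : ℕ) : ℝ) ≤ Bs)
    (hBN : S * Bg + Bs ≤ Fintype.card T) (t : ℕ)
    (Uq : T → (I → Bool) → Prop)
    (hbad : ∀ a, Ex (vp (y / 2)) (fun X => if ¬ Uq a X then (1 : ℝ) else 0) ≤ 1 / 2)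
    (hpt : ∀ X : I → Bool,
      ∑ a : T, (1 / 3) * (1 - (if ¬ Uq a X then (1 : ℝ) else 0)) ≤ ms vr σ G X) :
    ((Fintype.card T : ℝ) / 6) ^ t ≤
    2 ^ g * ((S * Bg + Bs) ^ t + t * ((Fintype.card T : ℝ)) ^ t *
      (((S : ℝ) + 1) * 2 ^ (Fintype.card M) * c ^ (2 * L)) * ε) := by
  have hp0 : 0 ≤ y / 2 := by linarith
  have hp1 : y / 2 ≤ 1 := by linarith
  have hc0 : 0 ≤ c := by linarith
  have hBs0 : 0 ≤ Bs := le_trans (Finset.sum_nonneg fun H _ => by positivity) hBs
  have hBg0 : 0 ≤ Bg := le_trans (Finset.sum_nonneg fun H _ => by positivity) hBg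
  have hε00 : 0 ≤ ε0 := by
    refine le_trans (Ex_nonneg (vp_nonneg hy0.le hy1) fun Y =>
      Ex_nonneg (wq_nonneg hq00.le hq01) fun ρ => ?_) hbas
    split_ifs <;> norm_num
  have hε0 : 0 ≤ ε := le_trans (by positivity) hε
  have hmom := game_moment vr σ hp0 hp1 (d := d) (S := S)
    (t := t) (R := (S * Bg + Bs) ^ t + t * ((Fintype.card T : ℝ)) ^ t *
      (((S : ℝ) + 1) * 2 ^ (Fintype.card M) * c ^ (2 * L)) * ε) (by positivity) (by
      intro C hC1 hC2
      exact circ_moment vr hvr κ hκ C σ hin hτ hC1 hC2 hL hlen hy0 hy1 hq00 hq01 hq hbas hcyq hc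
        hε hBg hBs hBN t)
    G g hG
  refine le_trans ?_ hmom
  -- lower bound
  have hnn : ∀ X : I → Bool,
      0 ≤ ∑ a : T, (1 / 3) * (1 - (if ¬ Uq a X then (1 : ℝ) else 0)) := by
    intro X
    refine Finset.sum_nonneg fun a _ => ?_
    split_ifs <;> norm_num
  have h1 := Ex_pow hp0 hp1 _ hnn t
  refine le_trans ?_ (h1.trans (Ex_mono (vp_nonneg hp0 hp1) fun X =>
    pow_le_pow_left₀ (hnn X) (hpt X) t))
  apply pow_le_pow_left₀ (by positivity)
  rw [Ex_sum]
  have h2 : ∀ a ∈ (univ : Finset T), (1 : ℝ) / 6 ≤ Ex (vp (y / 2))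
      (fun X => (1 / 3) * (1 - (if ¬ Uq a X then (1 : ℝ) else 0))) := by
    intro a _
    rw [Ex_smul]
    have h3 : Ex (vp (y / 2)) (fun X : I → Bool =>
        1 - (if ¬ Uq a X then (1 : ℝ) else 0)) =
        1 + (-1) * Ex (vp (y / 2)) (fun X : I → Bool =>
          (if ¬ Uq a X then (1 : ℝ) else 0)) := by
      rw [← Ex_smul]
      have h4 := Ex_add (vp (y / 2)) (fun _ : I → Bool => (1 : ℝ))
        (fun X => (-1) * (if ¬ Uq a X then (1 : ℝ) else 0))
      rw [Ex_const (vp_sum (y / 2))] at h4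
      rw [← h4]
      congr 1
      funext X
      ring
    rw [h3]
    have h5 := hbad a
    linarith
  have h6 := Finset.card_nsmul_le_sum _ _ _ h2
  rw [Finset.card_univ, nsmul_eq_mul] at h6
  linarith

end Mo

end H592R3.Hp
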