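import Mathlib
import Pool.Agent.H592R4.Core2

/-!
Input bits that depend on one row of a sparse random table.
-/

set_option linter.unusedSectionVars false

namespace H592R3.Hp

open Finset DomAC0 H568R2 SmallDepth

section Dep
variable {I : Type*} [Fintype I] [DecidableEq I]

lemma DT.of_dep : ∀ {h : ℕ} {f : (I → Bool) → Bool} (A : Finset I), A.card ≤ h → DepOn f A →
    DT h f := by
  intro h
  induction h with
  | zero =>
    intro f A hA hf
    have : A = ∅ := Finset.card_eq_zero.1 (by omega)
    subst this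
    exact ⟨f (fun _ => true), fun x => hf _ _ (by simp)⟩
  | succ h ih =>
    intro f A hA hf
    rcases A.eq_empty_or_nonempty with he | ⟨i, hi⟩
    · subst he
      exact DT.of_const ⟨f (fun _ => true), fun x => hf _ _ (by simp)⟩
    · refine Or.inr ⟨i, fun b => ?_⟩
      apply ih (A.erase i)
      · rw [Finset.card_erase_of_mem hi]; omega
      · intro x y hxy
        apply hf
        intro j hj
        by_cases hji : j = i
        · subst hji; simp
        · rw [Function.update_of_ne hji, Function.update_of_ne hji]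
          exact hxy j (Finset.mem_erase.2 ⟨hji, hj⟩)

end Dep

section Prob
variable {I : Type} [Fintype I] [DecidableEq I]

open Classical in
lemma ex_all {A : Type*} [Fintype A] {w : A → ℝ} (hw : ∑ a, w a = 1) (G : A → Prop)
    (Z : Finset I) : Ex w (fun ω : I → A => if ∀ i ∈ Z, G (ω i) then (1 : ℝ) else 0) =
      (∑ a ∈ univ.filter G, w a) ^ Z.card := by
  have := Ex_indep (I := I) hw G Z (fun _ => 1) (fun _ _ _ _ => rfl)
  rw [Ex_const hw, mul_one] at this
  rw [← this]
  congr 1
  funext ω
  rw [one_mul]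

open Classical in
lemma ex_on {p : ℝ} (Z : Finset I) :
    Ex (vp p) (fun X : I → Bool => if ∀ i ∈ Z, X i = true then (1 : ℝ) else 0) =
      p ^ Z.card := by
  have h := ex_all (I := I) (vp_sum p) (fun b => b = true) Z
  refine Eq.trans ?_ (h.trans ?_)
  · congr!
  · congr 1
    rw [Finset.sum_filter, Fintype.sum_bool]
    simp [vp]

open Classical in
lemma ex_star {q : ℝ} (Z : Finset I) :
    Ex (wq q) (fun ρ : I → Option Bool => if ∀ i ∈ Z, ρ i = none then (1 : ℝ) else 0) =
      q ^ Z.card := by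
  have h := ex_all (I := I) (wq_sum q) (fun b => b = none) Z
  refine Eq.trans ?_ (h.trans ?_)
  · congr!
  · congr 1
    rw [Finset.sum_filter, Fintype.sum_option, Fintype.sum_bool]
    simp [wq]

open Classical in
lemma ex_union {ι : Type} [Fintype ι] {p : ℝ} (hp0 : 0 ≤ p) (hp1 : p ≤ 1)
    (Zf : ι → Finset I) :
    Ex (vp p) (fun X : I → Bool => if ∃ x, ∀ i ∈ Zf x, X i = true then (1 : ℝ) else 0) ≤
      ∑ x, p ^ (Zf x).card := by
  have h1 : ∀ X : I → Bool, (if ∃ x, ∀ i ∈ Zf x, X i = true then (1 : ℝ) else 0) ≤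
      ∑ x, (if ∀ i ∈ Zf x, X i = true then (1 : ℝ) else 0) := by
    intro X
    have hnn : ∀ x ∈ (univ : Finset ι),
        (0 : ℝ) ≤ (if ∀ i ∈ Zf x, X i = true then (1 : ℝ) else 0) := by
      intro x _
      split_ifs <;> norm_num
    by_cases hX : ∃ x, ∀ i ∈ Zf x, X i = true
    · rw [if_pos hX]
      obtain ⟨x, hZX⟩ := hX
      refine le_trans ?_ (Finset.single_le_sum hnn (Finset.mem_univ x))
      rw [if_pos hZX]
    · rw [if_neg hX]
      exact Finset.sum_nonneg hnn
  refine (Ex_mono (vp_nonneg hp0 hp1) h1).trans ?_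
  rw [Ex_sum]
  exact (Finset.sum_congr rfl fun x _ => ex_on (Zf x)).le

end Prob

section Row
variable {E J : Type} [Fintype E] [DecidableEq E] {R : ℕ}

/-- Each input bit depends on one row. -/
def RowDep (σ : ((E × Fin R) → Bool) → (J → Bool)) : Prop :=
  ∀ j, ∃ e : E, ∀ X X' : (E × Fin R) → Bool, (∀ r, X (e, r) = X' (e, r)) → σ X j = σ X' j

lemma RowDep.low {M T : Type} [Fintype M] [DecidableEq M]
    {σ : ((E × Fin R) → Bool) → (J → Bool)} (hσ : RowDep σ) (vr : T → M → E × Fin R)
    (hvr : ∀ a m m', (vr a m).1 = (vr a m').1 → m = m') (a : T) (X : (E × Fin R) → Bool) (j : J) :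
    Low 1 (pf (fun x => σ x j) (vr a) X) := by
  intro H hH
  obtain ⟨e, he⟩ := hσ j
  obtain ⟨m1, m2, h1, h2, hne⟩ := Finset.one_lt_card_iff.1 hH
  have hex : ∃ m ∈ H, (vr a m).1 ≠ e := by
    by_contra hcon
    push Not at hcon
    exact hne (hvr a _ _ ((hcon m1 h1).trans (hcon m2 h2).symm))
  obtain ⟨m, hm, hme⟩ := hex
  apply mb_indep hm
  intro W
  unfold pf
  have : σ (plant (vr a) (insert m W) X) j = σ (plant (vr a) W X) j := by
    apply he
    intro r
    unfold plant
    have h3 : (∃ j' ∈ insert m W, vr a j' = (e, r)) ↔ (∃ j' ∈ W, vr a j' = (e, r)) := by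
      constructor
      · rintro ⟨j', hj', h4⟩
        rcases Finset.mem_insert.1 hj' with h5 | h5
        · subst h5
          exact absurd (by rw [h4]) hme
        · exact ⟨j', h5, h4⟩
      · rintro ⟨j', hj', h4⟩
        exact ⟨j', Finset.mem_insert_of_mem hj', h4⟩
    simp only [h3]
  simp only [this]

open Classical in
/-- After the mask and the first restriction the input bits are shallow decision trees. -/
lemma RowDep.bas {σ : ((E × Fin R) → Bool) → (J → Bool)} (hσ : RowDep σ) {h : ℕ}
    (Y : (E × Fin R) → Bool) (ρ : Restr (E × Fin R))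
    (hc : ∀ e : E, (univ.filter (fun r : Fin R => Y (e, r) = true ∧ ρ (e, r) = none)).card ≤ h) :
    Bas (fun x => σ (mask Y x)) h ρ := by
  intro j
  obtain ⟨e, he⟩ := hσ j
  apply DT.of_dep ((univ.filter (fun r : Fin R => Y (e, r) = true ∧ ρ (e, r) = none)).image
    (fun r => (e, r)))
  · exact Finset.card_image_le.trans (hc e)
  · intro x x' hxx
    show σ (mask Y (ov ρ x)) j = σ (mask Y (ov ρ x')) j
    apply he
    intro r
    unfold mask ov
    by_cases hY : Y (e, r) = true
    · cases hρ : ρ (e, r) with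
      | none =>
        have := hxx (e, r) (Finset.mem_image.2 ⟨r, by
          rw [Finset.mem_filter]; exact ⟨Finset.mem_univ _, hY, hρ⟩, rfl⟩)
        simp [this]
      | some b => rfl
    · rw [Bool.not_eq_true] at hY
      rw [hY]
      rfl

open Classical in
/-- The probability that the first restriction fails. -/
lemma RowDep.bas_prob {σ : ((E × Fin R) → Bool) → (J → Bool)} (hσ : RowDep σ) {h : ℕ}
    {y q0 : ℝ} (hy0 : 0 ≤ y) (hy1 : y ≤ 1) (hq0 : 0 ≤ q0) (hq1 : q0 ≤ 1) :
    Ex (vp y) (fun Y : (E × Fin R) → Bool => Ex (wq q0) (fun ρ : Restr (E × Fin R) =>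
      if ¬ Bas (fun x => σ (mask Y x)) h ρ then (1 : ℝ) else 0)) ≤
      Fintype.card E * (R * y * q0) ^ (h + 1) := by
  have hpt : ∀ (Y : (E × Fin R) → Bool) (ρ : Restr (E × Fin R)),
      (if ¬ Bas (fun x => σ (mask Y x)) h ρ then (1 : ℝ) else 0) ≤
      ∑ e : E, ∑ B ∈ Finset.powersetCard (h + 1) (univ : Finset (Fin R)),
        (if ∀ i ∈ B.image (fun r => (e, r)), Y i = true then (1 : ℝ) else 0) *
        (if ∀ i ∈ B.image (fun r => (e, r)), ρ i = none then (1 : ℝ) else 0) := by
    intro Y ρ
    have hnn : ∀ e : E, ∀ B ∈ Finset.powersetCard (h + 1) (univ : Finset (Fin R)), (0 : ℝ) ≤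
        (if ∀ i ∈ B.image (fun r => (e, r)), Y i = true then (1 : ℝ) else 0) *
        (if ∀ i ∈ B.image (fun r => (e, r)), ρ i = none then (1 : ℝ) else 0) := by
      intro e B _
      apply mul_nonneg <;> split_ifs <;> norm_num
    by_cases hB : Bas (fun x => σ (mask Y x)) h ρ
    · rw [if_neg (not_not.2 hB)]
      exact Finset.sum_nonneg fun e _ => Finset.sum_nonneg (hnn e)
    · rw [if_pos hB]
      have hex : ∃ e : E, ¬ (univ.filter (fun r : Fin R => Y (e, r) = true ∧
          ρ (e, r) = none)).card ≤ h := by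
        by_contra hcon
        push Not at hcon
        exact hB (hσ.bas Y ρ hcon)
      obtain ⟨e, he⟩ := hex
      obtain ⟨B, hB1, hB2⟩ := Finset.exists_subset_card_eq (by omega : h + 1 ≤
        (univ.filter (fun r : Fin R => Y (e, r) = true ∧ ρ (e, r) = none)).card)
      have hBm : B ∈ Finset.powersetCard (h + 1) (univ : Finset (Fin R)) := by
        rw [Finset.mem_powersetCard]; exact ⟨Finset.subset_univ _, hB2⟩
      have e1 : (1 : ℝ) = (if ∀ i ∈ B.image (fun r => (e, r)), Y i = true then (1 : ℝ) else 0) *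
        (if ∀ i ∈ B.image (fun r => (e, r)), ρ i = none then (1 : ℝ) else 0) := by
        rw [if_pos, if_pos, mul_one]
        · intro i hi
          obtain ⟨r, hr, rfl⟩ := Finset.mem_image.1 hi
          exact (Finset.mem_filter.1 (hB1 hr)).2.2
        · intro i hi
          obtain ⟨r, hr, rfl⟩ := Finset.mem_image.1 hi
          exact (Finset.mem_filter.1 (hB1 hr)).2.1
      refine le_trans (le_of_eq e1) ?_
      refine le_trans (Finset.single_le_sum (hnn e) hBm) ?_
      exact Finset.single_le_sum (f := fun e : E =>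
        ∑ B ∈ Finset.powersetCard (h + 1) (univ : Finset (Fin R)),
        (if ∀ i ∈ B.image (fun r => (e, r)), Y i = true then (1 : ℝ) else 0) *
        (if ∀ i ∈ B.image (fun r => (e, r)), ρ i = none then (1 : ℝ) else 0))
        (fun e _ => Finset.sum_nonneg (hnn e)) (Finset.mem_univ e)
  have hcardB : ∀ (e : E) (B : Finset (Fin R)), (B.image (fun r => (e, r))).card = B.card :=
    fun e B => Finset.card_image_of_injective _ (fun r r' h => (Prod.mk.inj h).2)
  refine (Ex_mono (vp_nonneg hy0 hy1) fun Y => Ex_mono (wq_nonneg hq0 hq1) (hpt Y)).trans ?_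
  have h1 : ∀ Y : (E × Fin R) → Bool, Ex (wq q0) (fun ρ : Restr (E × Fin R) =>
      ∑ e : E, ∑ B ∈ Finset.powersetCard (h + 1) (univ : Finset (Fin R)),
        (if ∀ i ∈ B.image (fun r => (e, r)), Y i = true then (1 : ℝ) else 0) *
        (if ∀ i ∈ B.image (fun r => (e, r)), ρ i = none then (1 : ℝ) else 0)) =
      ∑ e : E, ∑ B ∈ Finset.powersetCard (h + 1) (univ : Finset (Fin R)),
        q0 ^ (h + 1) *
        (if ∀ i ∈ B.image (fun r => (e, r)), Y i = true then (1 : ℝ) else 0) := by
    intro Y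
    rw [Ex_sum]
    refine Finset.sum_congr rfl fun e _ => ?_
    rw [Ex_sum]
    refine Finset.sum_congr rfl fun B hB => ?_
    rw [Ex_smul, ex_star, hcardB, (Finset.mem_powersetCard.1 hB).2, mul_comm]
  simp only [h1]
  rw [Ex_sum]
  have h2 : ∀ e ∈ (univ : Finset E), Ex (vp y) (fun Y : (E × Fin R) → Bool =>
      ∑ B ∈ Finset.powersetCard (h + 1) (univ : Finset (Fin R)),
        q0 ^ (h + 1) *
        (if ∀ i ∈ B.image (fun r => (e, r)), Y i = true then (1 : ℝ) else 0)) ≤
      (R * y * q0) ^ (h + 1) := by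
    intro e _
    rw [Ex_sum]
    have h3 : ∀ B ∈ Finset.powersetCard (h + 1) (univ : Finset (Fin R)),
        Ex (vp y) (fun Y : (E × Fin R) → Bool => q0 ^ (h + 1) *
        (if ∀ i ∈ B.image (fun r => (e, r)), Y i = true then (1 : ℝ) else 0)) ≤
        q0 ^ (h + 1) * y ^ (h + 1) := by
      intro B hB
      rw [Ex_smul, ex_on, hcardB, (Finset.mem_powersetCard.1 hB).2]
    refine (Finset.sum_le_card_nsmul _ _ _ h3).trans ?_
    rw [Finset.card_powersetCard, Finset.card_univ, Fintype.card_fin, nsmul_eq_mul]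
    have h4 : ((R.choose (h + 1) : ℕ) : ℝ) ≤ (R : ℝ) ^ (h + 1) := by
      exact_mod_cast Nat.choose_le_pow R (h + 1)
    calc ((R.choose (h + 1) : ℕ) : ℝ) * (q0 ^ (h + 1) * y ^ (h + 1)) ≤
        (R : ℝ) ^ (h + 1) * (q0 ^ (h + 1) * y ^ (h + 1)) := by
          apply mul_le_mul_of_nonneg_right h4 (by positivity)
      _ = (R * y * q0) ^ (h + 1) := by rw [mul_pow, mul_pow]; ring
  refine (Finset.sum_le_card_nsmul _ _ _ h2).trans ?_
  rw [Finset.card_univ, nsmul_eq_mul]

/-- The number of a row: the unique `r` that is present, if there is one. -/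
noncomputable def dec (X : (E × Fin R) → Bool) (e : E) : Option (Fin R) :=
  open Classical in
  if h : ∃ r, X (e, r) = true ∧ ∀ r', X (e, r') = true → r' = r then some h.choose else none

lemma dec_iff (X : (E × Fin R) → Bool) (e : E) (r : Fin R) :
    dec X e = some r ↔ X (e, r) = true ∧ ∀ r', X (e, r') = true → r' = r := by
  classical
  unfold dec
  constructor
  · intro h
    split_ifs at h with h1
    have h2 := h1.choose_spec
    rw [Option.some.injEq] at h
    rw [h] at h2
    exact h2
  · rintro ⟨h1, h2⟩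
    have hex : ∃ r, X (e, r) = true ∧ ∀ r', X (e, r') = true → r' = r := ⟨r, h1, h2⟩
    rw [dif_pos hex, Option.some.injEq]
    exact h2 _ hex.choose_spec.1

lemma dec_congr {X X' : (E × Fin R) → Bool} {e : E} (h : ∀ r, X (e, r) = X' (e, r)) :
    dec X e = dec X' e := by
  unfold dec
  simp only [h]

end Row

end H592R3.Hp
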