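import Mathlib
import Pool.Agent.H592R4.Rows

/-!
Hidden plants that consist of three numbers, the third one being the sum of the first two.
-/

set_option linter.unusedSectionVars false

namespace H592R3.Hp

open Finset DomAC0 H568R2 SmallDepth

/-- Pairs of numbers below `R` whose sum is below `R`. -/
abbrev Pr (R : ℕ) : Type := {p : Fin R × Fin R // p.1.val + p.2.val < R}

/-- The three numbers of a plant. -/
def cand {R : ℕ} (p : Pr R) (m : Fin 3) : Fin R :=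
  if m = 0 then p.1.1 else if m = 1 then p.1.2 else ⟨p.1.1.val + p.1.2.val, p.2⟩

lemma cand_zero {R : ℕ} (p : Pr R) : cand p 0 = p.1.1 := rfl
lemma cand_one {R : ℕ} (p : Pr R) : cand p 1 = p.1.2 := rfl
lemma cand_two {R : ℕ} (p : Pr R) : (cand p 2).val = p.1.1.val + p.1.2.val := rfl

lemma cand_inj {R : ℕ} {p p' : Pr R} {m m' : Fin 3} (hm : m ≠ m') (h1 : cand p m = cand p' m)
    (h2 : cand p m' = cand p' m') : p = p' := by
  have e1 : (cand p m).val = (cand p' m).val := by rw [h1]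
  have e2 : (cand p m').val = (cand p' m').val := by rw [h2]
  obtain ⟨⟨⟨r, hr⟩, ⟨s, hs⟩⟩, hp⟩ := p
  obtain ⟨⟨⟨r', hr'⟩, ⟨s', hs'⟩⟩, hp'⟩ := p'
  have key : r = r' ∧ s = s' := by
    fin_cases m <;> fin_cases m' <;> simp [cand] at e1 e2 hm ⊢ <;> omega
  obtain ⟨k1, k2⟩ := key
  subst k1
  subst k2
  rfl

open Classical in
lemma card_pr (R : ℕ) : R * R ≤ 2 * Fintype.card (Pr R) := by
  have h1 : (univ.filter (fun p : Fin R × Fin R => ¬ (p.1.val + p.2.val < R))).card ≤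
      (univ.filter (fun p : Fin R × Fin R => p.1.val + p.2.val < R)).card := by
    apply Finset.card_le_card_of_injOn
      (fun p : Fin R × Fin R => ((⟨R - 1 - p.1.val, by have := p.1.2; omega⟩ : Fin R),
        (⟨R - 1 - p.2.val, by have := p.2.2; omega⟩ : Fin R)))
    · intro p hp
      have hp' := (Finset.mem_filter.1 hp).2
      rw [Finset.mem_coe, Finset.mem_filter]
      refine ⟨Finset.mem_univ _, ?_⟩
      show R - 1 - p.1.val + (R - 1 - p.2.val) < R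
      have := p.1.2
      have := p.2.2
      omega
    · rintro ⟨⟨a, ha⟩, ⟨b, hb⟩⟩ _ ⟨⟨a', ha'⟩, ⟨b', hb'⟩⟩ _ h
      simp only [Prod.mk.injEq, Fin.mk.injEq] at h ⊢
      omega
  have h2 := Finset.card_filter_add_card_filter_not (s := (univ : Finset (Fin R × Fin R)))
    (fun p : Fin R × Fin R => p.1.val + p.2.val < R)
  rw [Finset.card_univ, Fintype.card_prod, Fintype.card_fin] at h2
  have h3 : Fintype.card (Pr R) =
      (univ.filter (fun p : Fin R × Fin R => p.1.val + p.2.val < R)).card :=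
    Fintype.card_subtype _
  omega

lemma card_pr_one {R : ℕ} (m : Fin 3) (v : Fin R) :
    (univ.filter (fun p : Pr R => cand p m = v)).card ≤ R := by
  obtain ⟨m', hm'⟩ : ∃ m' : Fin 3, m ≠ m' := by
    refine ⟨m + 1, ?_⟩
    fin_cases m <;> decide
  have : (univ.filter (fun p : Pr R => cand p m = v)).card ≤ (univ : Finset (Fin R)).card := by
    apply Finset.card_le_card_of_injOn (fun p => cand p m')
    · intro p _
      exact Finset.mem_univ _
    · intro p hp p' hp' h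
      have h1 := (Finset.mem_filter.1 hp).2
      have h2 := (Finset.mem_filter.1 hp').2
      exact cand_inj hm' (h1.trans h2.symm) h
  rwa [Finset.card_univ, Fintype.card_fin] at this

lemma card_pr_two {R : ℕ} {m m' : Fin 3} (hm : m ≠ m') (v v' : Fin R) :
    (univ.filter (fun p : Pr R => cand p m = v ∧ cand p m' = v')).card ≤ 1 := by
  rw [Finset.card_le_one]
  intro p hp p' hp'
  have h1 := (Finset.mem_filter.1 hp).2
  have h2 := (Finset.mem_filter.1 hp').2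
  exact cand_inj hm (h1.1.trans h2.1.symm) (h1.2.trans h2.2.symm)

section Core
variable {F A J : Type} [Fintype F] [DecidableEq F] [Fintype A] {R : ℕ}

/-- The planted positions. -/
def vr3 (cl : A → Fin 3 → F) (a : A × Pr R) (m : Fin 3) : (Fin 3 × F) × Fin R :=
  ((m, cl a.1 m), cand a.2 m)

lemma vr3_cell (cl : A → Fin 3 → F) (a : A × Pr R) (m m' : Fin 3)
    (h : (vr3 cl a m).1 = (vr3 cl a m').1) : m = m' := (Prod.mk.inj h).1

lemma vr3_inj (cl : A → Fin 3 → F) (a : A × Pr R) : Function.Injective (vr3 cl a) :=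
  fun m m' h => vr3_cell cl a m m' (by rw [h])

lemma vr3_image (cl : A → Fin 3 → F) {a a' : A × Pr R} {H : Finset (Fin 3)}
    (h : H.image (vr3 cl a) = H.image (vr3 cl a')) {m : Fin 3} (hm : m ∈ H) :
    vr3 cl a m = vr3 cl a' m := by
  have h1 : vr3 cl a m ∈ H.image (vr3 cl a') := by
    rw [← h]; exact Finset.mem_image_of_mem _ hm
  obtain ⟨m', _, h2⟩ := Finset.mem_image.1 h1
  have h3 : m' = m := congrArg (fun x => x.1.1) h2
  rw [← h2, h3]

/-- The number of plants with given planted positions. -/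
def kap (R κ1 κ2 NT : ℕ) (H : Finset (Fin 3)) : ℕ :=
  if H.card = 1 then κ1 * R else if H.card = 2 then κ2 else NT

open Classical in
lemma kap_count (cl : A → Fin 3 → F) {κ1 κ2 : ℕ}
    (hk1 : ∀ (m : Fin 3) (f : F), (univ.filter (fun a : A => cl a m = f)).card ≤ κ1)
    (hk2 : ∀ (m m' : Fin 3) (f f' : F), m ≠ m' →
      (univ.filter (fun a : A => cl a m = f ∧ cl a m' = f')).card ≤ κ2)
    (H : Finset (Fin 3)) (V : Finset ((Fin 3 × F) × Fin R)) :
    (univ.filter (fun a : A × Pr R => H.image (vr3 cl a) = V)).card ≤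
      kap R κ1 κ2 (Fintype.card (A × Pr R)) H := by
  unfold kap
  rcases (univ.filter (fun a : A × Pr R => H.image (vr3 cl a) = V)).eq_empty_or_nonempty with
    he | ⟨a0, ha0⟩
  · rw [he]; simp
  have ha0' := (Finset.mem_filter.1 ha0).2
  split_ifs with h1 h2
  · obtain ⟨m, rfl⟩ := Finset.card_eq_one.1 h1
    have hsub : (univ.filter (fun a : A × Pr R => ({m} : Finset (Fin 3)).image (vr3 cl a) = V)) ⊆
        (univ.filter (fun a : A => cl a m = cl a0.1 m)) ×ˢ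
          (univ.filter (fun p : Pr R => cand p m = cand a0.2 m)) := by
      intro a ha
      have ha' := (Finset.mem_filter.1 ha).2
      have h3 := vr3_image cl (ha'.trans ha0'.symm) (Finset.mem_singleton_self m)
      rw [Finset.mem_product, Finset.mem_filter, Finset.mem_filter]
      exact ⟨⟨Finset.mem_univ _, congrArg (fun x => x.1.2) h3⟩,
        Finset.mem_univ _, congrArg (fun x => x.2) h3⟩
    refine (Finset.card_le_card hsub).trans ?_
    rw [Finset.card_product]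
    exact Nat.mul_le_mul (hk1 m _) (card_pr_one m _)
  · obtain ⟨m, m', hmm, rfl⟩ := Finset.card_eq_two.1 h2
    have hsub : (univ.filter (fun a : A × Pr R =>
        ({m, m'} : Finset (Fin 3)).image (vr3 cl a) = V)) ⊆
        (univ.filter (fun a : A => cl a m = cl a0.1 m ∧ cl a m' = cl a0.1 m')) ×ˢ
          (univ.filter (fun p : Pr R => cand p m = cand a0.2 m ∧ cand p m' = cand a0.2 m')) := by
      intro a ha
      have ha' := (Finset.mem_filter.1 ha).2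
      have h3 := vr3_image cl (ha'.trans ha0'.symm) (m := m) (by simp)
      have h4 := vr3_image cl (ha'.trans ha0'.symm) (m := m') (by simp)
      rw [Finset.mem_product, Finset.mem_filter, Finset.mem_filter]
      exact ⟨⟨Finset.mem_univ _, congrArg (fun x => x.1.2) h3, congrArg (fun x => x.1.2) h4⟩,
        Finset.mem_univ _, congrArg (fun x => x.2) h3, congrArg (fun x => x.2) h4⟩
    refine (Finset.card_le_card hsub).trans ?_
    rw [Finset.card_product]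
    calc _ ≤ κ2 * 1 := Nat.mul_le_mul (hk2 m m' _ _ hmm) (card_pr_two hmm _ _)
      _ = κ2 := mul_one _
  · exact (Finset.card_filter_le _ _).trans (le_of_eq Finset.card_univ)

lemma kap_sum_two (c : ℝ) (B R κ1 κ2 NT : ℕ) :
    ∑ H ∈ univ.filter (fun H : Finset (Fin 3) => 2 ≤ H.card ∧ H.card ≤ 2 * 2 - 2),
      c ^ H.card * ((B ^ H.card * kap R κ1 κ2 NT H : ℕ) : ℝ) =
      3 * (c ^ 2 * ((B ^ 2 * κ2 : ℕ) : ℝ)) := by
  have h1 : ∀ H ∈ univ.filter (fun H : Finset (Fin 3) => 2 ≤ H.card ∧ H.card ≤ 2 * 2 - 2),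
      c ^ H.card * ((B ^ H.card * kap R κ1 κ2 NT H : ℕ) : ℝ) =
      c ^ 2 * ((B ^ 2 * κ2 : ℕ) : ℝ) := by
    intro H hH
    have h2 := (Finset.mem_filter.1 hH).2
    have h3 : H.card = 2 := by omega
    unfold kap
    rw [h3]
    simp
  rw [Finset.sum_congr rfl h1, Finset.sum_const]
  have h4 : (univ.filter (fun H : Finset (Fin 3) => 2 ≤ H.card ∧ H.card ≤ 2 * 2 - 2)).card = 3 := by
    decide
  rw [h4, nsmul_eq_mul]
  norm_num

lemma kap_sum_one (c : ℝ) (B R κ1 κ2 NT : ℕ) :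
    ∑ H ∈ univ.filter (fun H : Finset (Fin 3) => 1 ≤ H.card ∧ H.card < 2),
      c ^ H.card * ((B ^ H.card * kap R κ1 κ2 NT H : ℕ) : ℝ) =
      3 * (c * ((B * (κ1 * R) : ℕ) : ℝ)) := by
  have h1 : ∀ H ∈ univ.filter (fun H : Finset (Fin 3) => 1 ≤ H.card ∧ H.card < 2),
      c ^ H.card * ((B ^ H.card * kap R κ1 κ2 NT H : ℕ) : ℝ) =
      c * ((B * (κ1 * R) : ℕ) : ℝ) := by
    intro H hH
    have h2 := (Finset.mem_filter.1 hH).2
    have h3 : H.card = 1 := by omega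
    unfold kap
    rw [h3]
    simp
  rw [Finset.sum_congr rfl h1, Finset.sum_const]
  have h4 : (univ.filter (fun H : Finset (Fin 3) => 1 ≤ H.card ∧ H.card < 2)).card = 3 := by
    decide
  rw [h4, nsmul_eq_mul]
  norm_num

open Classical in
/-- The lower bound. -/
theorem sum_core [Fintype J] (cl : A → Fin 3 → F) {κ1 κ2 : ℕ}
    (hk1 : ∀ (m : Fin 3) (f : F), (univ.filter (fun a : A => cl a m = f)).card ≤ κ1)
    (hk2 : ∀ (m m' : Fin 3) (f f' : F), m ≠ m' →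
      (univ.filter (fun a : A => cl a m = f ∧ cl a m' = f')).card ≤ κ2)
    (hA : 0 < Fintype.card A) (hR : 0 < R)
    (σ : (((Fin 3 × F) × Fin R) → Bool) → (J → Bool)) (hσ : RowDep σ)
    (G : Game J) {d S g : ℕ} (hG : G.Bounded d S g) {h l : ℕ} (hh : 1 ≤ h)
    (hlen : Fintype.card J + S + 2 ≤ 2 ^ l)
    {ι : Type} [Fintype ι] (Zf : A × Pr R → ι → Finset ((Fin 3 × F) × Fin R))
    (hFm : ∀ a, ∑ x, (1 / (24 * (R : ℝ))) ^ (Zf a x).card ≤ 1 / 2)
    (Uq : A × Pr R → (((Fin 3 × F) × Fin R) → Bool) → Prop)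
    (hUq : ∀ a X, (¬ ∃ x, ∀ i ∈ Zf a x, X i = true) → Uq a X)
    (hpt : ∀ X : ((Fin 3 × F) × Fin R) → Bool,
      ∑ a : A × Pr R, (1 / 3) * (1 - (if ¬ Uq a X then (1 : ℝ) else 0)) ≤ ms (vr3 cl) σ G X)
    (hN1 : 331776 * (S : ℝ) * (24 * h) ^ (2 * d) * (h : ℝ) ^ 2 * (l : ℝ) ^ 2 * κ2 +
      6912 * (24 * (h : ℝ)) ^ d * h * κ1 ≤ Fintype.card A)
    (hN2 : (2 : ℝ) ^ g * 6 ^ (g + 2) * (g + 2) * (((S : ℝ) + 1) * 8 *
      (24 * R * (24 * (h : ℝ)) ^ d) ^ 4) *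
      (3 * Fintype.card F * (1 / 12) ^ (h + 1) +
        d * ((S * (Fintype.card J + S + 1) : ℕ) : ℝ) * (1 / 2) ^ (h + 1)) < 1 / 2) : False := by
  have hRR : (0 : ℝ) < R := by exact_mod_cast hR
  have hhR : (1 : ℝ) ≤ h := by exact_mod_cast hh
  have hR1 : (1 : ℝ) ≤ R := by exact_mod_cast hR
  obtain ⟨τ, hτ⟩ : ∃ τ : ℕ, τ = 24 * h := ⟨_, rfl⟩
  have hτR : (τ : ℝ) = 24 * h := by rw [hτ]; push_cast; ring
  have hτ1 : (1 : ℝ) ≤ (24 * (h : ℝ)) ^ d := one_le_pow₀ (by linarith)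
  obtain ⟨y, hy⟩ : ∃ y : ℝ, y = 1 / (12 * R) := ⟨_, rfl⟩
  have hy0 : 0 < y := by rw [hy]; positivity
  have hy1 : y ≤ 1 := by
    rw [hy, div_le_one (by positivity)]; linarith
  have hy2 : y / 2 = 1 / (24 * R) := by rw [hy]; field_simp; ring
  obtain ⟨q, hq⟩ : ∃ q : ℝ, q = 1 * (1 / (τ : ℝ)) ^ d := ⟨_, rfl⟩
  obtain ⟨c, hc⟩ : ∃ c : ℝ, c = 24 * R * (24 * (h : ℝ)) ^ d := ⟨_, rfl⟩
  have hc1 : 1 ≤ c := by
    rw [hc]
    nlinarith
  have hcyq : 2 ≤ c * (y * q) := by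
    rw [hc, hy, hq, hτR, one_mul, one_div_pow]
    apply le_of_eq
    field_simp
    norm_num
  obtain ⟨ε, hε⟩ : ∃ ε : ℝ, ε = 3 * Fintype.card F * (1 / 12) ^ (h + 1) +
        d * ((S * (Fintype.card J + S + 1) : ℕ) : ℝ) * (1 / 2) ^ (h + 1) := ⟨_, rfl⟩
  rw [← hc, ← hε] at hN2
  have hbas := hσ.bas_prob (h := h) hy0.le hy1 (q0 := 1) zero_le_one (le_refl _)
  have hbas2 : (Fintype.card (Fin 3 × F) : ℝ) * (R * y * 1) ^ (h + 1) =
      3 * Fintype.card F * (1 / 12) ^ (h + 1) := by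
    rw [Fintype.card_prod, Fintype.card_fin]
    push_cast
    congr 2
    rw [hy]
    field_simp
  rw [hbas2] at hbas
  have hε2 : 3 * Fintype.card F * (1 / 12) ^ (h + 1) +
      d * ((S * (Fintype.card J + S + 1) : ℕ) : ℝ) * (12 * h * (1 / (τ : ℝ))) ^ (h + 1) ≤ ε := by
    rw [hε, hτR]
    apply le_of_eq
    congr 3
    field_simp
    norm_num
  obtain ⟨T, hT⟩ : ∃ T : ℕ, T = Fintype.card (A × Pr R) := ⟨_, rfl⟩
  have hTR : (Fintype.card A : ℝ) * R ^ 2 ≤ 2 * T := by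
    have h1 := card_pr R
    have h2 : Fintype.card A * (R * R) ≤ 2 * T := by
      rw [hT, Fintype.card_prod]
      calc Fintype.card A * (R * R) ≤ Fintype.card A * (2 * Fintype.card (Pr R)) :=
            Nat.mul_le_mul_left _ h1
        _ = _ := by ring
    have h3 : ((Fintype.card A * (R * R) : ℕ) : ℝ) ≤ ((2 * T : ℕ) : ℝ) := by exact_mod_cast h2
    push_cast at h3
    nlinarith
  have hT0 : (0 : ℝ) < T := by
    have h1 : (0 : ℝ) < (Fintype.card A : ℝ) * R ^ 2 := by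
      have : (0 : ℝ) < Fintype.card A := by exact_mod_cast hA
      positivity
    linarith
  obtain ⟨Bg, hBg⟩ : ∃ Bg : ℝ, Bg = 3 * (c ^ 2 * (((2 * (h * l)) ^ 2 * κ2 : ℕ) : ℝ)) := ⟨_, rfl⟩
  obtain ⟨Bs, hBs⟩ : ∃ Bs : ℝ, Bs = 3 * (c * (((2 * h) * (κ1 * R) : ℕ) : ℝ)) := ⟨_, rfl⟩
  have hBN : 24 * (S * Bg + Bs) ≤ T := by
    have h1 : 48 * (S * Bg + Bs) = R ^ 2 * (331776 * (S : ℝ) * (24 * h) ^ (2 * d) *
        (h : ℝ) ^ 2 * (l : ℝ) ^ 2 * κ2 + 6912 * (24 * (h : ℝ)) ^ d * h * κ1) := by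
      rw [hBg, hBs, hc]
      push_cast
      rw [pow_mul' (24 * (h : ℝ)) 2 d]
      ring
    have h2 : R ^ 2 * (331776 * (S : ℝ) * (24 * h) ^ (2 * d) *
        (h : ℝ) ^ 2 * (l : ℝ) ^ 2 * κ2 + 6912 * (24 * (h : ℝ)) ^ d * h * κ1) ≤
        R ^ 2 * Fintype.card A := mul_le_mul_of_nonneg_left hN1 (by positivity)
    nlinarith
  have hBg0 : 0 ≤ Bg := by rw [hBg]; positivity
  have hBs0 : 0 ≤ Bs := by
    rw [hBs]
    have : 0 ≤ c := by linarith
    positivity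
  have hSB0 : 0 ≤ S * Bg + Bs := by positivity
  have hmain := game_core (vr3 (R := R) cl) (vr3_inj cl) (kap R κ1 κ2 (Fintype.card (A × Pr R)))
    (kap_count cl hk1 hk2) G σ (fun a X j => hσ.low (vr3 cl) (vr3_cell cl) a X j)
    (h := h) (d := d) (τ := τ) (by omega) hG (L := 2) (l := l) (le_refl _) hlen
    hy0 hy1 (q0 := 1) (by norm_num) (le_refl _) hq hbas hcyq hc1 hε2
    (Bg := Bg) (Bs := Bs) (by rw [kap_sum_two, hBg]) (by rw [kap_sum_one, hBs])
    (by rw [← hT]; linarith) (g + 2)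
    Uq (by
      intro a
      rw [hy2]
      have h24 : (0 : ℝ) ≤ 1 / (24 * R) := by positivity
      have h24' : 1 / (24 * (R : ℝ)) ≤ 1 := by
        rw [div_le_one (by positivity)]; linarith
      refine le_trans (Ex_mono (vp_nonneg h24 h24') fun X => ?_)
        ((ex_union h24 h24' (Zf a)).trans (hFm a))
      by_cases hX : ∃ x, ∀ i ∈ Zf a x, X i = true
      · rw [if_pos hX]
        split_ifs <;> norm_num
      · rw [if_neg (not_not.2 (hUq a X hX))]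
        split_ifs <;> norm_num) hpt
  rw [← hT, Fintype.card_fin] at hmain
  -- the contradiction
  obtain ⟨W, hW⟩ : ∃ W : ℝ, W = ((S : ℝ) + 1) * 8 * c ^ 4 := ⟨_, rfl⟩
  rw [← hW] at hN2
  have e1 : ((S : ℝ) + 1) * 2 ^ 3 * c ^ (2 * 2) = W := by rw [hW]; norm_num
  rw [e1] at hmain
  have h3 : (S * Bg + Bs) ^ (g + 2) ≤ (T / 24 : ℝ) ^ (g + 2) :=
    pow_le_pow_left₀ hSB0 (by linarith) _
  have h4 : ((T : ℝ) / 6) ^ (g + 2) = (T : ℝ) ^ (g + 2) * (1 / 6) ^ (g + 2) := by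
    rw [← mul_pow]; congr 1; ring
  have h5 : ((T : ℝ) / 24) ^ (g + 2) = (T : ℝ) ^ (g + 2) * (1 / 6) ^ (g + 2) *
      (1 / 4) ^ (g + 2) := by
    rw [← mul_pow, ← mul_pow]; congr 1; ring
  have h6 : (2 : ℝ) ^ g * (1 / 4) ^ (g + 2) ≤ 1 / 16 := by
    rw [pow_add, ← mul_assoc, ← mul_pow]
    have : ((2 : ℝ) * (1 / 4)) ^ g ≤ 1 := pow_le_one₀ (by norm_num) (by norm_num)
    nlinarith
  obtain ⟨U, hU⟩ : ∃ U : ℝ, U = (T : ℝ) ^ (g + 2) * (1 / 6) ^ (g + 2) := ⟨_, rfl⟩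
  have hU0 : 0 < U := by rw [hU]; positivity
  have h7 : (2 : ℝ) ^ g * (((g + 2 : ℕ) : ℝ) * (T : ℝ) ^ (g + 2) * W * ε) =
      U * (2 ^ g * 6 ^ (g + 2) * (g + 2) * W * ε) := by
    rw [hU]
    push_cast
    have : (1 / 6 : ℝ) ^ (g + 2) * 6 ^ (g + 2) = 1 := by
      rw [← mul_pow]; norm_num
    calc (2 : ℝ) ^ g * (((g : ℝ) + 2) * (T : ℝ) ^ (g + 2) * W * ε) =
        (T : ℝ) ^ (g + 2) * ((1 / 6 : ℝ) ^ (g + 2) * 6 ^ (g + 2)) *
          (2 ^ g * (g + 2) * W * ε) := by rw [this]; ring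
      _ = _ := by ring
  have h8 : U ≤ 2 ^ g * (U * (1 / 4) ^ (g + 2)) +
      U * (2 ^ g * 6 ^ (g + 2) * (g + 2) * W * ε) := by
    calc U = ((T : ℝ) / 6) ^ (g + 2) := by rw [h4, hU]
      _ ≤ 2 ^ g * ((S * Bg + Bs) ^ (g + 2) + ((g + 2 : ℕ) : ℝ) * (T : ℝ) ^ (g + 2) * W * ε) :=
          hmain
      _ = 2 ^ g * (S * Bg + Bs) ^ (g + 2) +
          2 ^ g * (((g + 2 : ℕ) : ℝ) * (T : ℝ) ^ (g + 2) * W * ε) := by ring
      _ ≤ 2 ^ g * (T / 24 : ℝ) ^ (g + 2) +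
          2 ^ g * (((g + 2 : ℕ) : ℝ) * (T : ℝ) ^ (g + 2) * W * ε) := by gcongr
      _ = _ := by rw [h5, h7, hU]
  have h9 : 2 ^ g * (U * (1 / 4) ^ (g + 2)) ≤ U * (1 / 16) := by
    calc 2 ^ g * (U * (1 / 4) ^ (g + 2)) = U * (2 ^ g * (1 / 4) ^ (g + 2)) := by ring
      _ ≤ _ := mul_le_mul_of_nonneg_left h6 hU0.le
  have h10 : U * (2 ^ g * 6 ^ (g + 2) * (g + 2) * W * ε) ≤ U * (1 / 2) := by
    apply mul_le_mul_of_nonneg_left _ hU0.le
    exact hN2.le
  linarith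

end Core

end H592R3.Hp
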