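import Mathlib

/-!
The 3SUM problem: is one of `n` given integers between `-n ^ 3` and `n ^ 3` the sum of two
others?
-/

namespace SmallDepth

/-- The input bits of 3SUM: the number with index `i < n` has a sign `(i, none)` and the binary
digits `(i, some l)` of its absolute value. -/
abbrev SumBits (n : ℕ) : Type := Fin n × Option (Fin (Nat.size (n ^ 3)))

/-- The number with index `i`. -/
def numVal {n : ℕ} (z : SumBits n → Bool) (i : Fin n) : ℤ :=
  (if z (i, none) = true then -1 else 1) *
    ∑ l : Fin (Nat.size (n ^ 3)), if z (i, some l) = true then 2 ^ (l : ℕ) else 0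

/-- The instance is valid: the numbers are pairwise distinct and lie between `-n ^ 3` and
`n ^ 3`. -/
def SumValid {n : ℕ} (z : SumBits n → Bool) : Prop :=
  Function.Injective (numVal z) ∧ ∀ i, |numVal z i| ≤ (n : ℤ) ^ 3

/-- One number is the sum of two others. -/
def HasSum {n : ℕ} (z : SumBits n → Bool) : Prop :=
  ∃ i j k : Fin n, i ≠ j ∧ j ≠ k ∧ i ≠ k ∧ numVal z i + numVal z j = numVal z k

end SmallDepth
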