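import Mathlib
import Pool.Agent.H592R4.Sum
import Pool.Agent.H592R4.Param
import Pool.Agent.H592R4.SumDefs

/-!
Hard instances of 3SUM.
-/

set_option linter.unusedSectionVars false

namespace H592R3.Hp

open Finset DomAC0 H568R2 SmallDepth

lemma sum_testBit : ∀ (D v : ℕ), v < 2 ^ D →
    (∑ l : Fin D, if v.testBit l = true then (2 : ℤ) ^ (l : ℕ) else 0) = v := by
  intro D
  induction D with
  | zero =>
    intro v hv
    have : v = 0 := by simpa using hv
    subst this
    simp
  | succ D ih =>
    intro v hv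
    rw [Fin.sum_univ_succ]
    have h1 : ∀ l : Fin D, (if v.testBit (l.succ : Fin (D + 1)) = true then
        (2 : ℤ) ^ ((l.succ : Fin (D + 1)) : ℕ) else 0) =
        2 * (if (v / 2).testBit l = true then (2 : ℤ) ^ (l : ℕ) else 0) := by
      intro l
      rw [Fin.val_succ, Nat.testBit_succ]
      split_ifs
      · rw [pow_succ]; ring
      · ring
    rw [Finset.sum_congr rfl fun l _ => h1 l, ← Finset.mul_sum,
      ih (v / 2) (by rw [pow_succ] at hv; omega)]
    simp only [Fin.val_zero, Nat.testBit_zero, pow_zero, decide_eq_true_eq]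
    split_ifs with h
    · have : ((v : ℕ) : ℤ) = 1 + 2 * ((v / 2 : ℕ) : ℤ) := by omega
      rw [this]
    · have : ((v : ℕ) : ℤ) = 0 + 2 * ((v / 2 : ℕ) : ℤ) := by omega
      rw [this]

section Inst
variable {n N R : ℕ}

/-- The base of a list. -/
def bas (R k : ℕ) : ℕ := if k = 0 then 10 * R else if k = 1 then 13 * R else 23 * R

/-- The number with index `t`. -/
def sval3 (hN : 0 < N) (D : Fin 3 × Fin N → Option (Fin R)) (t : ℕ) : ℕ :=
  if h : t < 3 * N then
    match D (⟨t / N, Nat.div_lt_of_lt_mul (by rw [mul_comm N 3]; exact h)⟩,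
      ⟨t % N, Nat.mod_lt _ hN⟩) with
    | some r => bas R (t / N) + r
    | none => 50 * R + t
  else 50 * R + t

/-- The instance. -/
def inst3 (n : ℕ) (hN : 0 < N) (D : Fin 3 × Fin N → Option (Fin R)) : SumBits n → Bool
  | (_, none) => false
  | (t, some l) => (sval3 hN D t).testBit l

lemma sval3_cases (hN : 0 < N) (D : Fin 3 × Fin N → Option (Fin R)) (t : ℕ) :
    (∃ (m : Fin 3) (i : Fin N) (r : Fin R), t = m * N + i ∧ D (m, i) = some r ∧
      sval3 hN D t = bas R m + r) ∨ sval3 hN D t = 50 * R + t := by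
  unfold sval3
  by_cases h : t < 3 * N
  · rw [dif_pos h]
    split
    · rename_i r hr
      left
      exact ⟨_, _, r, (Nat.div_add_mod' t N).symm, hr, rfl⟩
    · right; rfl
  · rw [dif_neg h]
    right; rfl

lemma sval3_cell (hN : 0 < N) (D : Fin 3 × Fin N → Option (Fin R)) (m : Fin 3) (i : Fin N)
    (r : Fin R) (h : D (m, i) = some r) : sval3 hN D (m * N + i) = bas R m + r := by
  have h1 : (m : ℕ) * N + i < 3 * N := by
    have := m.2
    have := i.2
    have h2 : (m : ℕ) * N ≤ 2 * N := Nat.mul_le_mul_right _ (by omega)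
    omega
  have h2 : ((m : ℕ) * N + i) / N = m := by
    rw [mul_comm, Nat.mul_add_div hN, Nat.div_eq_of_lt i.2, add_zero]
  have h3 : ((m : ℕ) * N + i) % N = i := by
    rw [mul_comm, Nat.mul_add_mod, Nat.mod_eq_of_lt i.2]
  unfold sval3
  rw [dif_pos h1]
  have h4 : D (⟨((m : ℕ) * N + i) / N, Nat.div_lt_of_lt_mul (by rw [mul_comm N 3]; exact h1)⟩,
      ⟨((m : ℕ) * N + i) % N, Nat.mod_lt _ hN⟩) = some r := by
    rw [← h]
    congr 1
    ext
    · exact h2
    · exact h3
  rw [h4, h2]

lemma sval3_lt (hN : 0 < N) (D : Fin 3 × Fin N → Option (Fin R)) (_hR : 0 < R) {t : ℕ}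
    (ht : t < n) (hnR : n ≤ R) : sval3 hN D t ≤ 51 * R := by
  rcases sval3_cases hN D t with ⟨m, i, r, _, _, h⟩ | h
  · rw [h]
    have := r.2
    unfold bas
    split_ifs <;> omega
  · rw [h]; omega

lemma numVal_inst3 (hN : 0 < N) (D : Fin 3 × Fin N → Option (Fin R)) (hR : 0 < R)
    (hnR : n ≤ R) (hRn : 51 * R ≤ n ^ 3) (t : Fin n) :
    numVal (inst3 n hN D) t = sval3 hN D t := by
  unfold numVal
  have h1 : inst3 n hN D (t, none) = false := rfl
  rw [h1]
  have h2 : ∀ l : Fin (Nat.size (n ^ 3)), (if inst3 n hN D (t, some l) = true then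
      (2 : ℤ) ^ (l : ℕ) else 0) = (if (sval3 hN D t).testBit l = true then
      (2 : ℤ) ^ (l : ℕ) else 0) := fun l => rfl
  rw [Finset.sum_congr rfl fun l _ => h2 l, sum_testBit]
  · simp
  · refine lt_of_le_of_lt ((sval3_lt hN D hR t.2 hnR).trans hRn) (Nat.lt_size_self _)

lemma inst3_valid (hN : 0 < N) (D : Fin 3 × Fin N → Option (Fin R)) (hR : 0 < R)
    (hnR : n ≤ R) (hRn : 51 * R ≤ n ^ 3)
    (hD : ∀ m i i' r, D (m, i) = some r → D (m, i') = some r → i = i') :
    SumValid (inst3 n hN D) := by
  constructor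
  · intro t t' h
    rw [numVal_inst3 hN D hR hnR hRn, numVal_inst3 hN D hR hnR hRn] at h
    have h' : sval3 hN D t = sval3 hN D t' := by exact_mod_cast h
    apply Fin.ext
    rcases sval3_cases hN D t with ⟨m, i, r, e1, e2, e3⟩ | e3 <;>
    rcases sval3_cases hN D t' with ⟨m', i', r', f1, f2, f3⟩ | f3
    · rw [e3, f3] at h'
      have hr := r.2
      have hr' := r'.2
      have hm : m = m' := by
        fin_cases m <;> fin_cases m' <;> simp [bas] at h' ⊢ <;> omega
      subst hm
      have hrr : r = r' := by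
        apply Fin.ext
        omega
      subst hrr
      rw [e1, f1, hD m i i' r e2 f2]
    · rw [e3, f3] at h'
      have hr := r.2
      unfold bas at h'
      split_ifs at h' <;> omega
    · rw [e3, f3] at h'
      have hr := r'.2
      unfold bas at h'
      split_ifs at h' <;> omega
    · rw [e3, f3] at h'
      omega
  · intro t
    rw [numVal_inst3 hN D hR hnR hRn]
    have h1 := sval3_lt hN D hR t.2 hnR
    rw [abs_of_nonneg (by positivity)]
    exact_mod_cast h1.trans hRn

lemma inst3_sum (hN : 0 < N) (D : Fin 3 × Fin N → Option (Fin R)) (hR : 0 < R)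
    (hnR : n ≤ R) (hRn : 51 * R ≤ n ^ 3) (h3N : 3 * N ≤ n) :
    HasSum (inst3 n hN D) ↔ ∃ (i j k : Fin N) (r s t : Fin R), D (0, i) = some r ∧
      D (1, j) = some s ∧ D (2, k) = some t ∧ r.val + s.val = t.val := by
  constructor
  · rintro ⟨a, b, c, _, _, _, h⟩
    simp only [numVal_inst3 hN D hR hnR hRn] at h
    have h' : sval3 hN D a + sval3 hN D b = sval3 hN D c := by exact_mod_cast h
    have ha := a.2
    have hb := b.2
    have hc := c.2
    have key : ∀ a b : ℕ, a < n → b < n → sval3 hN D a + sval3 hN D b = sval3 hN D c →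
        (∃ (i j k : Fin N) (r s t : Fin R), D (0, i) = some r ∧
          D (1, j) = some s ∧ D (2, k) = some t ∧ r.val + s.val = t.val) ∨
        (sval3 hN D b + 3 * R ≤ sval3 hN D a + R ∧ sval3 hN D a < 14 * R) := by
      intro a b ha hb h'
      rcases sval3_cases hN D a with ⟨m, i, r, e1, e2, e3⟩ | e3 <;>
      rcases sval3_cases hN D b with ⟨m', i', r', f1, f2, f3⟩ | f3 <;>
      rcases sval3_cases hN D c with ⟨m'', i'', r'', g1, g2, g3⟩ | g3 <;>
      rw [e3, f3, g3] at h'
      · have hr := r.2
        have hr' := r'.2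
        have hr'' := r''.2
        fin_cases m <;> fin_cases m' <;> fin_cases m'' <;> simp [bas] at h' e2 f2 g2 e3 f3 <;>
          first
          | (exfalso; omega)
          | (left; exact ⟨i, i', i'', r, r', r'', e2, f2, g2, by omega⟩)
          | (right; omega)
      · exfalso
        have hr := r.2
        have hr' := r'.2
        unfold bas at h'
        split_ifs at h' <;> omega
      · exfalso
        have hr := r.2
        have hr'' := r''.2
        unfold bas at h'
        split_ifs at h' <;> omega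
      · exfalso
        have hr := r.2
        unfold bas at h'
        split_ifs at h' <;> omega
      · exfalso
        have hr' := r'.2
        have hr'' := r''.2
        unfold bas at h'
        split_ifs at h' <;> omega
      · exfalso
        have hr' := r'.2
        unfold bas at h'
        split_ifs at h' <;> omega
      · exfalso
        have hr'' := r''.2
        unfold bas at h'
        split_ifs at h' <;> omega
      · exfalso
        omega
    rcases key a b ha hb h' with h1 | ⟨h1, h2⟩
    · exact h1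
    · rcases key b a hb ha (by omega) with h3 | ⟨h3, h4⟩
      · exact h3
      · exfalso; omega
  · rintro ⟨i, j, k, r, s, t, h1, h2, h3, h4⟩
    have b1 : (0 : ℕ) * N + i < n := by have := i.2; omega
    have b2 : (1 : ℕ) * N + j < n := by have := j.2; omega
    have b3 : (2 : ℕ) * N + k < n := by have := k.2; omega
    refine ⟨⟨0 * N + i, b1⟩, ⟨1 * N + j, b2⟩, ⟨2 * N + k, b3⟩, ?_, ?_, ?_, ?_⟩
    · rw [Ne, Fin.mk.injEq]; have := i.2; omega
    · rw [Ne, Fin.mk.injEq]; have := j.2; omega
    · rw [Ne, Fin.mk.injEq]; have := i.2; omega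
    · rw [numVal_inst3 hN D hR hnR hRn, numVal_inst3 hN D hR hnR hRn,
        numVal_inst3 hN D hR hnR hRn]
      have e1 := sval3_cell hN D 0 i r h1
      have e2 := sval3_cell hN D 1 j s h2
      have e3 := sval3_cell hN D 2 k t h3
      simp only [Fin.val_zero, Fin.val_one, Fin.val_two] at e1 e2 e3
      show ((sval3 hN D (0 * N + i) : ℕ) : ℤ) + (sval3 hN D (1 * N + j) : ℕ) =
        (sval3 hN D (2 * N + k) : ℕ)
      rw [e1, e2, e3]
      simp only [bas]
      norm_num
      omega

end Inst

end H592R3.Hp
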