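import Mathlib
import Pool.Agent.H592R4.Sum3

/-!
The lower bound for 3SUM.
-/

set_option linter.unusedSectionVars false

namespace H592R3.Hp

open Finset DomAC0 H568R2 SmallDepth

section Plant3
variable {F A : Type} [Fintype F] [DecidableEq F] [Fintype A] {R : ℕ}

lemma plant_iff (cl : A → Fin 3 → F) (a : A × Pr R) (X : ((Fin 3 × F) × Fin R) → Bool)
    (m : Fin 3) (f : F) (r : Fin R) :
    plant (vr3 cl a) univ X ((m, f), r) = true ↔
      (cl a.1 m = f ∧ cand a.2 m = r) ∨ X ((m, f), r) = true := by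
  unfold plant
  simp only [Bool.or_eq_true, decide_eq_true_eq]
  apply or_congr_left
  constructor
  · rintro ⟨m', _, h⟩
    unfold vr3 at h
    simp only [Prod.mk.injEq] at h
    obtain ⟨⟨rfl, h1⟩, h2⟩ := h
    exact ⟨h1, h2⟩
  · rintro ⟨rfl, rfl⟩
    exact ⟨m, Finset.mem_univ _, rfl⟩

/-- The planted rows are empty. -/
def Emp (cl : A → Fin 3 → F) (a : A × Pr R) (X : ((Fin 3 × F) × Fin R) → Bool) : Prop :=
  ∀ m r, X ((m, cl a.1 m), r) = false

/-- No plant is present. -/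
def NoP (cl : A → Fin 3 → F) (X : ((Fin 3 × F) × Fin R) → Bool) : Prop :=
  ∀ a' : A × Pr R, ∃ m, X (vr3 cl a' m) = false

lemma dec_planted {cl : A → Fin 3 → F} {a : A × Pr R} {X : ((Fin 3 × F) × Fin R) → Bool}
    (h : Emp cl a X) (m : Fin 3) :
    dec (plant (vr3 cl a) univ X) (m, cl a.1 m) = some (cand a.2 m) := by
  rw [dec_iff]
  refine ⟨(plant_iff cl a X _ _ _).2 (Or.inl ⟨rfl, rfl⟩), ?_⟩
  intro r' hr'
  rcases (plant_iff cl a X _ _ _).1 hr' with h1 | h1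
  · exact h1.2.symm
  · rw [h m r'] at h1
    cases h1

lemma dec_plant_cases {cl : A → Fin 3 → F} {a : A × Pr R} {X : ((Fin 3 × F) × Fin R) → Bool}
    {m : Fin 3} {f : F} {r : Fin R} (h : dec (plant (vr3 cl a) univ X) (m, f) = some r) :
    (cl a.1 m = f ∧ cand a.2 m = r) ∨ X ((m, f), r) = true :=
  (plant_iff cl a X _ _ _).1 ((dec_iff _ _ _).1 h).1

end Plant3

section Main3
variable {n N R : ℕ}

/-- The good pairs. -/
def Uq3 (a : (Fin 3 → Fin N) × Pr R) (X : ((Fin 3 × Fin N) × Fin R) → Bool) : Prop :=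
  Emp (fun x => x) a X ∧ NoP (fun x : Fin 3 → Fin N => x) X ∧
  (∀ (m : Fin 3) (i i' : Fin N) (r : Fin R), i ≠ i' → X ((m, i), r) = true →
    X ((m, i'), r) = true → False) ∧
  (∀ (m : Fin 3) (i : Fin N), X ((m, i), cand a.2 m) = false)

lemma uq3_no {a : (Fin 3 → Fin N) × Pr R} {X : ((Fin 3 × Fin N) × Fin R) → Bool}
    (h : Uq3 a X) (hN : 0 < N) (hR : 0 < R) (hnR : n ≤ R) (hRn : 51 * R ≤ n ^ 3)
    (h3N : 3 * N ≤ n) :
    SumValid (inst3 n hN (dec X)) ∧ ¬ HasSum (inst3 n hN (dec X)) := by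
  constructor
  · apply inst3_valid hN _ hR hnR hRn
    intro m i i' r h1 h2
    by_contra hne
    exact h.2.2.1 m i i' r hne ((dec_iff _ _ _).1 h1).1 ((dec_iff _ _ _).1 h2).1
  · rw [inst3_sum hN _ hR hnR hRn h3N]
    rintro ⟨i, j, k, r, s, t, h1, h2, h3, h4⟩
    obtain ⟨m, hm⟩ := h.2.1 (fun m => if m = 0 then i else if m = 1 then j else k,
      ⟨(r, s), by show r.val + s.val < R; rw [h4]; exact t.2⟩)
    have e1 := ((dec_iff _ _ _).1 h1).1
    have e2 := ((dec_iff _ _ _).1 h2).1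
    have e3 := ((dec_iff _ _ _).1 h3).1
    have ht : (⟨r.val + s.val, by rw [h4]; exact t.2⟩ : Fin R) = t := Fin.ext h4
    rw [← ht] at e3
    unfold vr3 cand at hm
    fin_cases m
    · simp at hm; rw [e1] at hm; cases hm
    · simp at hm; rw [e2] at hm; cases hm
    · simp at hm; rw [e3] at hm; cases hm

lemma uq3_yes {a : (Fin 3 → Fin N) × Pr R} {X : ((Fin 3 × Fin N) × Fin R) → Bool}
    (h : Uq3 a X) (hN : 0 < N) (hR : 0 < R) (hnR : n ≤ R) (hRn : 51 * R ≤ n ^ 3)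
    (h3N : 3 * N ≤ n) :
    SumValid (inst3 n hN (dec (plant (vr3 (fun x => x) a) univ X))) ∧
      HasSum (inst3 n hN (dec (plant (vr3 (fun x => x) a) univ X))) := by
  constructor
  · apply inst3_valid hN _ hR hnR hRn
    intro m i i' r h1 h2
    rcases dec_plant_cases h1 with ⟨k1, k2⟩ | k1 <;> rcases dec_plant_cases h2 with ⟨l1, l2⟩ | l1
    · exact k1.symm.trans l1
    · exfalso
      rw [← k2, h.2.2.2 m i'] at l1
      cases l1
    · exfalso
      rw [← l2, h.2.2.2 m i] at k1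
      cases k1
    · by_contra hne
      exact h.2.2.1 m i i' r hne k1 l1
  · rw [inst3_sum hN _ hR hnR hRn h3N]
    exact ⟨a.1 0, a.1 1, a.1 2, cand a.2 0, cand a.2 1, cand a.2 2, dec_planted h.1 0,
      dec_planted h.1 1, dec_planted h.1 2, rfl⟩

lemma inst3_row (hN : 0 < N) :
    RowDep (fun X : ((Fin 3 × Fin N) × Fin R) → Bool => inst3 n hN (dec X)) := by
  rintro ⟨t, b⟩
  cases b with
  | none => exact ⟨(0, ⟨0, hN⟩), fun X X' _ => rfl⟩
  | some l =>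
    by_cases h : (t : ℕ) < 3 * N
    · refine ⟨(⟨t / N, Nat.div_lt_of_lt_mul (by rw [mul_comm N 3]; exact h)⟩,
        ⟨t % N, Nat.mod_lt _ hN⟩), fun X X' hX => ?_⟩
      have := dec_congr hX
      show (sval3 hN (dec X) t).testBit l = (sval3 hN (dec X') t).testBit l
      unfold sval3
      rw [dif_pos h, dif_pos h, this]
    · refine ⟨(0, ⟨0, hN⟩), fun X X' _ => ?_⟩
      show (sval3 hN (dec X) t).testBit l = (sval3 hN (dec X') t).testBit l
      unfold sval3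
      rw [dif_neg h, dif_neg h]

/-- The bad events. -/
def Zf3 (a : (Fin 3 → Fin N) × Pr R) :
    (Fin 3 × Fin R) ⊕ (((Fin 3 → Fin N) × Pr R) ⊕
      ((Fin 3 × {x : Fin N × Fin N // x.1 ≠ x.2} × Fin R) ⊕ (Fin 3 × Fin N))) →
    Finset ((Fin 3 × Fin N) × Fin R)
  | Sum.inl (m, r) => {((m, a.1 m), r)}
  | Sum.inr (Sum.inl a') => univ.image (vr3 (fun x => x) a')
  | Sum.inr (Sum.inr (Sum.inl (m, x, r))) => {((m, x.1.1), r), ((m, x.1.2), r)}
  | Sum.inr (Sum.inr (Sum.inr (m, i))) => {((m, i), cand a.2 m)}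

lemma uq3_of (a : (Fin 3 → Fin N) × Pr R) (X : ((Fin 3 × Fin N) × Fin R) → Bool)
    (h : ¬ ∃ x, ∀ i ∈ Zf3 a x, X i = true) : Uq3 a X := by
  push Not at h
  refine ⟨?_, ?_, ?_, ?_⟩
  · intro m r
    obtain ⟨i, hi, h1⟩ := h (Sum.inl (m, r))
    rw [Zf3, Finset.mem_singleton] at hi
    subst hi
    exact Bool.eq_false_iff.2 h1
  · intro a'
    obtain ⟨i, hi, h1⟩ := h (Sum.inr (Sum.inl a'))
    rw [Zf3, Finset.mem_image] at hi
    obtain ⟨m, _, rfl⟩ := hi
    exact ⟨m, Bool.eq_false_iff.2 h1⟩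
  · intro m i i' r hne h1 h2
    obtain ⟨i0, hi, h3⟩ := h (Sum.inr (Sum.inr (Sum.inl (m, ⟨(i, i'), hne⟩, r))))
    rw [Zf3, Finset.mem_insert, Finset.mem_singleton] at hi
    rcases hi with rfl | rfl
    · exact h3 h1
    · exact h3 h2
  · intro m i
    obtain ⟨i0, hi, h1⟩ := h (Sum.inr (Sum.inr (Sum.inr (m, i))))
    rw [Zf3, Finset.mem_singleton] at hi
    subst hi
    exact Bool.eq_false_iff.2 h1

lemma zf3_sum (a : (Fin 3 → Fin N) × Pr R) (hR : 0 < R) (hN : 1 ≤ N) (hNR : N ^ 3 ≤ R) :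
    ∑ x, (1 / (24 * (R : ℝ))) ^ (Zf3 a x).card ≤ 1 / 2 := by
  obtain ⟨p, hp⟩ : ∃ p : ℝ, p = 1 / (24 * (R : ℝ)) := ⟨_, rfl⟩
  have hR0 : (0 : ℝ) < R := by exact_mod_cast hR
  have hp0 : 0 < p := by rw [hp]; positivity
  have hpR : p * R = 1 / 24 := by rw [hp]; field_simp
  rw [← hp]
  have hN1 : (1 : ℝ) ≤ N := by exact_mod_cast hN
  have hN3 : (N : ℝ) ^ 3 ≤ R := by exact_mod_cast hNR
  have hN2 : (N : ℝ) ^ 2 ≤ R := le_trans (pow_le_pow_right₀ hN1 (by norm_num)) hN3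
  have hN1' : (N : ℝ) ≤ R := by
    calc (N : ℝ) = (N : ℝ) ^ 1 := (pow_one _).symm
      _ ≤ (N : ℝ) ^ 3 := pow_le_pow_right₀ hN1 (by norm_num)
      _ ≤ R := hN3
  rw [Fintype.sum_sum_type, Fintype.sum_sum_type, Fintype.sum_sum_type]
  have s1 : ∑ x : Fin 3 × Fin R, p ^ (Zf3 a (Sum.inl x)).card = 1 / 8 := by
    have : ∀ x : Fin 3 × Fin R, p ^ (Zf3 a (Sum.inl x)).card = p := by
      rintro ⟨m, r⟩
      rw [Zf3, Finset.card_singleton, pow_one]
    rw [Finset.sum_congr rfl fun x _ => this x, Finset.sum_const, Finset.card_univ,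
      Fintype.card_prod, Fintype.card_fin, Fintype.card_fin, nsmul_eq_mul]
    push_cast
    linarith
  have s2 : ∑ x : (Fin 3 → Fin N) × Pr R, p ^ (Zf3 a (Sum.inr (Sum.inl x))).card ≤ 1 / 1000 := by
    have : ∀ x : (Fin 3 → Fin N) × Pr R, p ^ (Zf3 a (Sum.inr (Sum.inl x))).card = p ^ 3 := by
      intro x
      rw [Zf3, Finset.card_image_of_injective _ (vr3_inj _ x), Finset.card_univ, Fintype.card_fin]
    rw [Finset.sum_congr rfl fun x _ => this x, Finset.sum_const, Finset.card_univ,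
      Fintype.card_prod, Fintype.card_fun, Fintype.card_fin, Fintype.card_fin, nsmul_eq_mul]
    have h1 : Fintype.card (Pr R) ≤ R * R := by
      refine (Fintype.card_subtype_le _).trans ?_
      rw [Fintype.card_prod, Fintype.card_fin]
    have h2 : ((N ^ 3 * Fintype.card (Pr R) : ℕ) : ℝ) ≤ (R : ℝ) ^ 3 := by
      have : N ^ 3 * Fintype.card (Pr R) ≤ R ^ 3 := by
        calc N ^ 3 * Fintype.card (Pr R) ≤ R * (R * R) := Nat.mul_le_mul hNR h1
          _ = R ^ 3 := by ring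
      exact_mod_cast this
    calc ((N ^ 3 * Fintype.card (Pr R) : ℕ) : ℝ) * p ^ 3 ≤ (R : ℝ) ^ 3 * p ^ 3 := by gcongr
      _ = (p * R) ^ 3 := by ring
      _ ≤ 1 / 1000 := by rw [hpR]; norm_num
  have s3 : ∑ x : Fin 3 × {x : Fin N × Fin N // x.1 ≠ x.2} × Fin R,
      p ^ (Zf3 a (Sum.inr (Sum.inr (Sum.inl x)))).card ≤ 1 / 100 := by
    have : ∀ x : Fin 3 × {x : Fin N × Fin N // x.1 ≠ x.2} × Fin R,
        p ^ (Zf3 a (Sum.inr (Sum.inr (Sum.inl x)))).card = p ^ 2 := by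
      rintro ⟨m, x, r⟩
      rw [Zf3, Finset.card_pair]
      intro h
      simp only [Prod.mk.injEq, true_and, and_true] at h
      exact x.2 h
    rw [Finset.sum_congr rfl fun x _ => this x, Finset.sum_const, Finset.card_univ,
      Fintype.card_prod, Fintype.card_prod, Fintype.card_fin, Fintype.card_fin, nsmul_eq_mul]
    have h1 : Fintype.card {x : Fin N × Fin N // x.1 ≠ x.2} ≤ N * N := by
      refine (Fintype.card_subtype_le _).trans ?_
      rw [Fintype.card_prod, Fintype.card_fin]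
    have h2 : ((3 * (Fintype.card {x : Fin N × Fin N // x.1 ≠ x.2} * R) : ℕ) : ℝ) ≤
        3 * (R : ℝ) ^ 2 := by
      have h3 : ((Fintype.card {x : Fin N × Fin N // x.1 ≠ x.2} : ℕ) : ℝ) ≤ (N : ℝ) ^ 2 := by
        rw [sq]; exact_mod_cast h1
      push_cast
      nlinarith
    calc ((3 * (Fintype.card {x : Fin N × Fin N // x.1 ≠ x.2} * R) : ℕ) : ℝ) * p ^ 2 ≤
        3 * (R : ℝ) ^ 2 * p ^ 2 := by gcongr
      _ = 3 * (p * R) ^ 2 := by ring
      _ ≤ 1 / 100 := by rw [hpR]; norm_num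
  have s4 : ∑ x : Fin 3 × Fin N, p ^ (Zf3 a (Sum.inr (Sum.inr (Sum.inr x)))).card ≤ 1 / 8 := by
    have : ∀ x : Fin 3 × Fin N, p ^ (Zf3 a (Sum.inr (Sum.inr (Sum.inr x)))).card = p := by
      rintro ⟨m, i⟩
      rw [Zf3, Finset.card_singleton, pow_one]
    rw [Finset.sum_congr rfl fun x _ => this x, Finset.sum_const, Finset.card_univ,
      Fintype.card_prod, Fintype.card_fin, Fintype.card_fin, nsmul_eq_mul]
    push_cast
    nlinarith
  rw [s1]
  linarith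

lemma cnt3_one (m : Fin 3) (f : Fin N) :
    (univ.filter (fun a : Fin 3 → Fin N => a m = f)).card ≤ N ^ 2 := by
  have h : (univ.filter (fun a : Fin 3 → Fin N => a m = f)).card ≤
      (univ : Finset (Fin N × Fin N)).card := by
    apply Finset.card_le_card_of_injOn (fun a => (a (m + 1), a (m + 2)))
    · intro a _; exact Finset.mem_univ _
    · intro a ha a' ha' h
      have h1 := (Finset.mem_filter.1 ha).2
      have h2 := (Finset.mem_filter.1 ha').2
      simp only [Prod.mk.injEq] at h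
      funext k
      fin_cases m <;> fin_cases k <;> simp_all
  rwa [Finset.card_univ, Fintype.card_prod, Fintype.card_fin, ← sq] at h

lemma cnt3_two (m m' : Fin 3) (f f' : Fin N) (hm : m ≠ m') :
    (univ.filter (fun a : Fin 3 → Fin N => a m = f ∧ a m' = f')).card ≤ N := by
  have h : (univ.filter (fun a : Fin 3 → Fin N => a m = f ∧ a m' = f')).card ≤
      (univ : Finset (Fin N)).card := by
    apply Finset.card_le_card_of_injOn (fun a => a (- (m + m')))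
    · intro a _; exact Finset.mem_univ _
    · intro a ha a' ha' h
      have h1 := (Finset.mem_filter.1 ha).2
      have h2 := (Finset.mem_filter.1 ha').2
      funext k
      fin_cases m <;> fin_cases m' <;> fin_cases k <;> simp_all <;> exact h
  rwa [Finset.card_univ, Fintype.card_fin] at h

lemma card_sumBits (hn : 2 ≤ n) : Fintype.card (SumBits n) ≤ n ^ 4 := by
  rw [Fintype.card_prod, Fintype.card_option, Fintype.card_fin, Fintype.card_fin]
  have h1 : Nat.size (n ^ 3) ≤ 3 * n := by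
    rw [Nat.size_le]
    calc n ^ 3 < (2 ^ n) ^ 3 := Nat.pow_lt_pow_left Nat.lt_two_pow_self (by norm_num)
      _ = 2 ^ (3 * n) := by rw [← pow_mul, mul_comm]
  have h2 : n * (Nat.size (n ^ 3) + 1) ≤ n * (3 * n + 1) := Nat.mul_le_mul_left _ (by omega)
  have h3 : 3 * n + 1 ≤ n ^ 3 := by
    have : 4 ≤ n ^ 2 := by nlinarith
    have e : n ^ 3 = n ^ 2 * n := by ring
    rw [e]
    nlinarith
  calc n * (Nat.size (n ^ 3) + 1) ≤ n * (3 * n + 1) := h2
    _ ≤ n * n ^ 3 := Nat.mul_le_mul_left _ h3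
    _ = n ^ 4 := by ring

open Classical in
/-- The general form of the lower bound. -/
theorem sum3_main (ε : ℝ) (hε : 0 < ε) : ∃ C : ℝ, 0 < C ∧ ∀ n d g S : ℕ, 2 ≤ n → 1 ≤ d →
    C * (d * Real.log (Real.log n + g + 2)) ≤ Real.log n →
    ∀ G : Game (SumBits n), G.Bounded d S g →
    (∀ (N R : ℕ) (hN : 0 < N), 0 < R → n ≤ R → 51 * R ≤ n ^ 3 → 3 * N ≤ n →
      ∀ X : ((Fin 3 × Fin N) × Fin R) → Bool,
      ∑ a : (Fin 3 → Fin N) × Pr R, (1 / 3) * (1 - (if ¬ Uq3 a X then (1 : ℝ) else 0)) ≤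
        ms (vr3 (fun x => x)) (fun X => inst3 n hN (dec X)) G X) →
    (n : ℝ) ^ (2 - ε) < S := by
  obtain ⟨C, hC, hpar⟩ := params5 ε hε
  refine ⟨C, hC, ?_⟩
  intro n d g S hn hd hcond G hG hpt
  by_contra hcon
  rw [not_lt] at hcon
  obtain ⟨h, l, hh, c1, c2, hrest⟩ := hpar n d g hn hd hcond 2 (by norm_num) S hcon
  obtain ⟨N, hN⟩ : ∃ N, N = n / 100 := ⟨_, rfl⟩
  obtain ⟨R, hR⟩ : ∃ R, R = n ^ 3 / 51 := ⟨_, rfl⟩
  have hhR : (1 : ℝ) ≤ h := by exact_mod_cast hh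
  -- n is large
  have hbig : (10 : ℝ) ^ 9 ≤ n := by
    refine le_trans ?_ c2
    have h1 : (1 : ℝ) ≤ (24 * (h : ℝ)) ^ d := one_le_pow₀ (by linarith)
    have h2 : (1 : ℝ) ≤ (24 * (h : ℝ)) ^ d * h := by nlinarith
    linarith
  have hbig' : 10 ^ 9 ≤ n := by exact_mod_cast hbig
  have hN1 : 0 < N := by omega
  have h3N : 3 * N ≤ n := by omega
  have hn3 : n ^ 3 = n * n ^ 2 := by ring
  have hn2 : 10 ^ 9 * n ≤ n ^ 2 := by rw [sq]; exact Nat.mul_le_mul_right _ hbig'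
  have hn2' : 51 ≤ n ^ 2 := by omega
  have hnR : n ≤ R := by
    rw [hR, Nat.le_div_iff_mul_le (by norm_num), hn3]
    exact Nat.mul_le_mul_left _ hn2'
  have hR0 : 0 < R := by omega
  have hRn : 51 * R ≤ n ^ 3 := by rw [hR]; exact Nat.mul_div_le _ _
  have hNR : N ^ 3 ≤ R := by
    rw [hR, Nat.le_div_iff_mul_le (by norm_num)]
    have h1 : 100 * N ≤ n := by omega
    have h2 : (100 * N) ^ 3 ≤ n ^ 3 := Nat.pow_le_pow_left h1 3
    have h3 : (100 * N) ^ 3 = 1000000 * N ^ 3 := by ring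
    omega
  have hRn4 : R ≤ n ^ 4 := by
    have : n ^ 3 ≤ n ^ 4 := Nat.pow_le_pow_right (by omega) (by norm_num)
    omega
  have hNn2 : N ≤ n ^ 2 := by omega
  obtain ⟨hlen, hN2⟩ := hrest (Fintype.card (SumBits n)) N R (card_sumBits hn) hNn2 hRn4
  have hNreal : (n : ℝ) ≤ 200 * N := by
    have : n ≤ 200 * N := by omega
    exact_mod_cast this
  have hN0 : (0 : ℝ) < N := by exact_mod_cast hN1
  refine sum_core (F := Fin N) (A := Fin 3 → Fin N) (J := SumBits n) (R := R)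
    (fun x => x) (κ1 := N ^ 2) (κ2 := N) cnt3_one cnt3_two ?_ hR0
    (fun X => inst3 n hN1 (dec X)) (inst3_row hN1) G hG (h := h) (l := l) hh hlen Zf3
    (fun a => zf3_sum a hR0 hN1 hNR) Uq3 uq3_of (hpt N R hN1 hR0 hnR hRn h3N) ?_ ?_
  · rw [Fintype.card_fun, Fintype.card_fin, Fintype.card_fin]
    positivity
  · rw [Fintype.card_fun, Fintype.card_fin, Fintype.card_fin]
    push_cast
    have e1 : (n : ℝ) ^ (2 : ℝ) = (n : ℝ) ^ 2 := by norm_num
    rw [e1] at c1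
    obtain ⟨P, hP⟩ : ∃ P : ℝ, P = (S : ℝ) * (24 * h) ^ (2 * d) * (h : ℝ) ^ 2 * (l : ℝ) ^ 2 :=
      ⟨_, rfl⟩
    obtain ⟨Q, hQ⟩ : ∃ Q : ℝ, Q = (24 * (h : ℝ)) ^ d * h := ⟨_, rfl⟩
    rw [← hP] at c1
    rw [← hQ] at c2
    have e2 : 331776 * (S : ℝ) * (24 * h) ^ (2 * d) * (h : ℝ) ^ 2 * (l : ℝ) ^ 2 * N +
        6912 * (24 * (h : ℝ)) ^ d * h * (N : ℝ) ^ 2 = 331776 * P * N + 6912 * Q * (N : ℝ) ^ 2 := by
      rw [hP, hQ]; ring
    rw [e2]
    have hn2R : (n : ℝ) ^ 2 ≤ 40000 * (N : ℝ) ^ 2 := by nlinarith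
    have hP2 : P * 10 ^ 12 ≤ 40000 * (N : ℝ) ^ 2 := by linarith
    have hQ2 : Q * 10 ^ 9 ≤ 200 * N := by linarith
    have f1 : 331776 * P * N ≤ (1 / 2) * (N : ℝ) ^ 3 := by
      have : 331776 * P ≤ (1 / 2) * (N : ℝ) ^ 2 := by nlinarith
      calc 331776 * P * N ≤ (1 / 2) * (N : ℝ) ^ 2 * N := by gcongr
        _ = _ := by ring
    have f2 : 6912 * Q * (N : ℝ) ^ 2 ≤ (1 / 2) * (N : ℝ) ^ 3 := by
      have : 6912 * Q ≤ (1 / 2) * (N : ℝ) := by linarith
      calc 6912 * Q * (N : ℝ) ^ 2 ≤ (1 / 2) * (N : ℝ) * (N : ℝ) ^ 2 := by gcongr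
        _ = _ := by ring
    linarith
  · rw [Fintype.card_fin]
    exact hN2

/-- The lower bound for interactive proofs of no-instances of 3SUM. -/
theorem sum3_game (ε : ℝ) (hε : 0 < ε) : ∃ C : ℝ, 0 < C ∧ ∀ n d g S : ℕ, 2 ≤ n → 1 ≤ d →
    C * (d * Real.log (Real.log n + g + 2)) ≤ Real.log n →
    ∀ G : Game (SumBits n), G.Bounded d S g →
    (∀ z, SumValid z → ¬ HasSum z → 2 / 3 ≤ G.value z) →
    (∀ z, SumValid z → HasSum z → G.value z ≤ 1 / 3) →
    (n : ℝ) ^ (2 - ε) < S := by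
  obtain ⟨C, hC, h⟩ := sum3_main ε hε
  refine ⟨C, hC, ?_⟩
  intro n d g S hn hd hcond G hG hyes hno
  apply h n d g S hn hd hcond G hG
  intro N R hN hR hnR hRn h3N X
  refine game_pt (vr3 (fun x => x)) (fun X => inst3 n hN (dec X)) G hG Uq3 ?_ ?_ X
  · intro a X hU
    have := uq3_no hU hN hR hnR hRn h3N
    exact hyes _ this.1 this.2
  · intro a X hU
    have := uq3_yes hU hN hR hnR hRn h3N
    exact hno _ this.1 this.2

/-- The lower bound for randomized circuits for 3SUM. -/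
theorem sum3_rand (ε : ℝ) (hε : 0 < ε) : ∃ C : ℝ, 0 < C ∧ ∀ n d S : ℕ, 2 ≤ n → 1 ≤ d →
    C * (d * Real.log (Real.log n + 2)) ≤ Real.log n →
    ∀ Rc : RandCircuit (SumBits n), Rc.Bounded d S →
    (∀ z, SumValid z → Rc.Correct z (HasSum z)) →
    (n : ℝ) ^ (2 - ε) < S := by
  obtain ⟨C, hC, h⟩ := sum3_main ε hε
  refine ⟨C, hC, ?_⟩
  intro n d S hn hd hcond Rc hRc hcor
  let _ := Rc.fin
  obtain ⟨eq⟩ : Nonempty (Rc.Ω ≃ Fin (Fintype.card Rc.Ω)) := ⟨Fintype.equivFin Rc.Ω⟩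
  have hp1 : ∑ i, Rc.prob (eq.symm i) = 1 := by
    rw [← Rc.total]
    exact Equiv.sum_comp eq.symm Rc.prob
  apply h n d 0 S hn hd (by
    simpa using hcond) (Game.arthur (Fintype.card Rc.Ω) (fun i => Rc.prob (eq.symm i))
      (fun i => .verify (Rc.circ (eq.symm i))))
    ⟨fun i => Rc.nonneg _, hp1, fun i => ⟨(hRc _).1, (hRc _).2⟩⟩
  intro N R hN hR hnR hRn h3N X
  refine rand_pt (vr3 (fun x => x)) (fun X => inst3 n hN (dec X)) _ (fun i => Rc.nonneg _) hp1 _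
    Uq3 ?_ ?_ X
  · intro a X hU
    have hv := uq3_no hU hN hR hnR hRn h3N
    have h1 := hcor _ hv.1
    unfold RandCircuit.Correct at h1
    simp only [hv.2, decide_false] at h1
    refine h1.trans (le_of_eq ?_)
    exact (Equiv.sum_comp eq.symm (fun ω =>
      if (Rc.circ ω).eval (inst3 n hN (dec X)) = false then Rc.prob ω else 0)).symm
  · intro a X hU
    have hv := uq3_yes hU hN hR hnR hRn h3N
    have h1 := hcor _ hv.1
    unfold RandCircuit.Correct at h1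
    simp only [hv.2, decide_true] at h1
    refine h1.trans (le_of_eq ?_)
    exact (Equiv.sum_comp eq.symm (fun ω =>
      if (Rc.circ ω).eval (inst3 n hN (dec (plant (vr3 (fun x => x) a) univ X))) = true
      then Rc.prob ω else 0)).symm

end Main3

end H592R3.Hp
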