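import Mathlib
import Pool.Agent.H592R4.Sum3Main
import Pool.Agent.H592R4.TriDefs

/-!
Hard instances of Exact Triangle.
-/

set_option linter.unusedSectionVars false

namespace H592R3.Hp

open Finset DomAC0 H568R2 SmallDepth

section InstT
variable {n N R : ℕ}

/-- The cell of a pair of vertices. -/
def ecell (hN : 0 < N) (u v : ℕ) : Option (Fin 3 × (Fin N × Fin N)) :=
  if min u v / N = 0 ∧ max u v / N = 1 then
    some (0, (⟨min u v % N, Nat.mod_lt _ hN⟩, ⟨max u v % N, Nat.mod_lt _ hN⟩))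
  else if min u v / N = 1 ∧ max u v / N = 2 then
    some (1, (⟨min u v % N, Nat.mod_lt _ hN⟩, ⟨max u v % N, Nat.mod_lt _ hN⟩))
  else if min u v / N = 0 ∧ max u v / N = 2 then
    some (2, (⟨min u v % N, Nat.mod_lt _ hN⟩, ⟨max u v % N, Nat.mod_lt _ hN⟩))
  else none

lemma ecell_comm (hN : 0 < N) (u v : ℕ) : ecell hN u v = ecell hN v u := by
  unfold ecell
  simp only [min_comm u v, max_comm u v]

lemma minmax_div (u v a b : ℕ) (h : min u v / N = a ∧ max u v / N = b) :
    (u / N = a ∧ v / N = b) ∨ (u / N = b ∧ v / N = a) := by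
  rcases le_total u v with huv | huv
  · rw [min_eq_left huv, max_eq_right huv] at h
    exact Or.inl h
  · rw [min_eq_right huv, max_eq_left huv] at h
    exact Or.inr ⟨h.2, h.1⟩

lemma ecell_parts (hN : 0 < N) (u v : ℕ) (h : (ecell hN u v).isSome = true) :
    u / N ≤ 2 ∧ v / N ≤ 2 ∧ u / N ≠ v / N := by
  unfold ecell at h
  by_cases c1 : min u v / N = 0 ∧ max u v / N = 1
  · rcases minmax_div u v 0 1 c1 with ⟨e1, e2⟩ | ⟨e1, e2⟩ <;> rw [e1, e2] <;> norm_num
  · rw [if_neg c1] at h
    by_cases c2 : min u v / N = 1 ∧ max u v / N = 2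
    · rcases minmax_div u v 1 2 c2 with ⟨e1, e2⟩ | ⟨e1, e2⟩ <;> rw [e1, e2] <;> norm_num
    · rw [if_neg c2] at h
      by_cases c3 : min u v / N = 0 ∧ max u v / N = 2
      · rcases minmax_div u v 0 2 c3 with ⟨e1, e2⟩ | ⟨e1, e2⟩ <;> rw [e1, e2] <;> norm_num
      · rw [if_neg c3] at h
        cases h

/-- Sign and absolute value of a weight. -/
def ev (m : Fin 3) : Option (Fin R) → Option (Bool × ℕ)
  | none => none
  | some r => some (decide (m = 2), r.val)

/-- Sign and absolute value of the weight of a pair of vertices, if it is an edge. -/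
def eval (hN : 0 < N) (D : Fin 3 × (Fin N × Fin N) → Option (Fin R)) (u v : ℕ) :
    Option (Bool × ℕ) :=
  match ecell hN u v with
  | none => none
  | some e => ev e.1 (D e)

lemma eval_cell (hN : 0 < N) (D : Fin 3 × (Fin N × Fin N) → Option (Fin R)) {u v : ℕ}
    {e : Fin 3 × (Fin N × Fin N)} (h : ecell hN u v = some e) :
    eval hN D u v = ev e.1 (D e) := by
  unfold eval
  rw [h]

lemma eval_none (hN : 0 < N) (D : Fin 3 × (Fin N × Fin N) → Option (Fin R)) {u v : ℕ}
    (h : ecell hN u v = none) : eval hN D u v = none := by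
  unfold eval
  rw [h]

lemma eval_parts (hN : 0 < N) (D : Fin 3 × (Fin N × Fin N) → Option (Fin R)) (u v : ℕ)
    (h : (eval hN D u v).isSome = true) : u / N ≤ 2 ∧ v / N ≤ 2 ∧ u / N ≠ v / N := by
  apply ecell_parts hN u v
  by_contra hcon
  rw [Bool.not_eq_true, Option.isSome_eq_false_iff, Option.isNone_iff_eq_none] at hcon
  rw [eval_none hN D hcon] at h
  cases h

/-- The instance. -/
def instT (n : ℕ) (hN : 0 < N) (D : Fin 3 × (Fin N × Fin N) → Option (Fin R)) :
    TriBits n → Bool
  | (u, v, none) => (eval hN D u v).isSome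
  | (u, v, some none) => match eval hN D u v with
    | none => false
    | some x => x.1
  | (u, v, some (some l)) => match eval hN D u v with
    | none => false
    | some x => x.2.testBit l

/-- The weight of a pair. -/
def wtv : Option (Bool × ℕ) → ℤ
  | none => 0
  | some x => (if x.1 = true then -1 else 1) * (x.2 : ℤ)

lemma eval_comm (hN : 0 < N) (D : Fin 3 × (Fin N × Fin N) → Option (Fin R)) (u v : ℕ) :
    eval hN D u v = eval hN D v u := by
  unfold eval
  rw [ecell_comm]

lemma ev_lt {m : Fin 3} {o : Option (Fin R)} {x : Bool × ℕ} (h : ev m o = some x) : x.2 < R := by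
  cases o with
  | none => cases h
  | some r =>
    have h' : (decide (m = 2), r.val) = x := Option.some.inj h
    rw [← h']
    exact r.2

lemma eval_lt (hN : 0 < N) (D : Fin 3 × (Fin N × Fin N) → Option (Fin R)) (u v : ℕ)
    {x : Bool × ℕ} (h : eval hN D u v = some x) : x.2 < R := by
  cases hc : ecell hN u v with
  | none => rw [eval_none hN D hc] at h; cases h
  | some e => rw [eval_cell hN D hc] at h; exact ev_lt h

lemma triWeight_instT (hN : 0 < N) (D : Fin 3 × (Fin N × Fin N) → Option (Fin R))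
    (hRn : R ≤ n ^ 300) (u v : Fin n) :
    triWeight (instT n hN D) u v = wtv (eval hN D u v) := by
  unfold triWeight
  have h1 : instT n hN D (u, v, some none) = match eval hN D u v with
    | none => false
    | some x => x.1 := rfl
  have h2 : ∀ l : Fin (Nat.size (n ^ 300)), instT n hN D (u, v, some (some l)) =
    match eval hN D u v with
    | none => false
    | some x => x.2.testBit l := fun l => rfl
  simp only [h1, h2]
  cases h : eval hN D u v with
  | none => simp [wtv]
  | some x =>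
    simp only [wtv]
    rw [sum_testBit]
    have := eval_lt hN D u v h
    exact lt_of_lt_of_le this (hRn.trans (Nat.lt_size_self _).le)

lemma instT_valid (hN : 0 < N) (D : Fin 3 × (Fin N × Fin N) → Option (Fin R))
    (hRn : R ≤ n ^ 300) : TriValid (instT n hN D) := by
  refine ⟨?_, ?_, ?_⟩
  · intro i j b
    rcases b with _ | _ | l
    · show (eval hN D i j).isSome = (eval hN D j i).isSome
      rw [eval_comm]
    · show (match eval hN D i j with | none => false | some x => x.1) =
        (match eval hN D j i with | none => false | some x => x.1)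
      rw [eval_comm]
    · show (match eval hN D i j with | none => false | some x => x.2.testBit l) =
        (match eval hN D j i with | none => false | some x => x.2.testBit l)
      rw [eval_comm]
  · intro i
    show (eval hN D i i).isSome = false
    by_contra hcon
    rw [Bool.not_eq_false] at hcon
    exact (eval_parts hN D i i hcon).2.2 rfl
  · intro i j
    rw [triWeight_instT hN D hRn]
    cases h : eval hN D i j with
    | none => simp [wtv]
    | some x =>
      have h1 := eval_lt hN D i j h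
      have h2 : ((x.2 : ℕ) : ℤ) ≤ (n : ℤ) ^ 300 := by exact_mod_cast (h1.le.trans hRn)
      unfold wtv
      rw [abs_mul]
      split_ifs <;> simp <;> exact h2

lemma lt_of_div {u v : ℕ} (h : u / N < v / N) : u < v := by
  by_contra hcon
  exact absurd (Nat.div_le_div_right (c := N) (not_lt.1 hcon)) (not_le.2 h)

lemma ecell_01 (hN : 0 < N) {u v : ℕ} (hu : u / N = 0) (hv : v / N = 1) :
    ecell hN u v = some (0, (⟨u % N, Nat.mod_lt _ hN⟩, ⟨v % N, Nat.mod_lt _ hN⟩)) := by
  have huv : u < v := lt_of_div (N := N) (by omega)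
  unfold ecell
  simp only [min_eq_left huv.le, max_eq_right huv.le, hu, hv]
  rw [if_pos (by norm_num)]

lemma ecell_12 (hN : 0 < N) {u v : ℕ} (hu : u / N = 1) (hv : v / N = 2) :
    ecell hN u v = some (1, (⟨u % N, Nat.mod_lt _ hN⟩, ⟨v % N, Nat.mod_lt _ hN⟩)) := by
  have huv : u < v := lt_of_div (N := N) (by omega)
  unfold ecell
  simp only [min_eq_left huv.le, max_eq_right huv.le, hu, hv]
  rw [if_neg (by norm_num), if_pos (by norm_num)]

lemma ecell_02 (hN : 0 < N) {u v : ℕ} (hu : u / N = 0) (hv : v / N = 2) :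
    ecell hN u v = some (2, (⟨u % N, Nat.mod_lt _ hN⟩, ⟨v % N, Nat.mod_lt _ hN⟩)) := by
  have huv : u < v := lt_of_div (N := N) (by omega)
  unfold ecell
  simp only [min_eq_left huv.le, max_eq_right huv.le, hu, hv]
  rw [if_neg (by norm_num), if_neg (by norm_num), if_pos (by norm_num)]

lemma perm_parts (x y z : ℕ) (h1 : x ≤ 2) (h2 : y ≤ 2) (h3 : x ≠ y) (h4 : z ≤ 2) (h5 : y ≠ z)
    (h6 : x ≠ z) : (x = 0 ∧ y = 1 ∧ z = 2) ∨ (x = 0 ∧ y = 2 ∧ z = 1) ∨
    (x = 1 ∧ y = 0 ∧ z = 2) ∨ (x = 1 ∧ y = 2 ∧ z = 0) ∨ (x = 2 ∧ y = 0 ∧ z = 1) ∨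
    (x = 2 ∧ y = 1 ∧ z = 0) := by omega

lemma tri_key (hN : 0 < N) (D : Fin 3 × (Fin N × Fin N) → Option (Fin R)) (u v w : ℕ)
    (hu : u / N = 0) (hv : v / N = 1) (hw : w / N = 2)
    (h1 : (eval hN D u v).isSome = true) (h2 : (eval hN D v w).isSome = true)
    (h3 : (eval hN D u w).isSome = true)
    (hsum : wtv (eval hN D u v) + wtv (eval hN D v w) + wtv (eval hN D u w) = 0) :
    ∃ (i j k : Fin N) (r s t : Fin R), D (0, (i, j)) = some r ∧
      D (1, (j, k)) = some s ∧ D (2, (i, k)) = some t ∧ r.val + s.val = t.val := by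
  rw [eval_cell hN D (ecell_01 hN hu hv)] at h1 hsum
  rw [eval_cell hN D (ecell_12 hN hv hw)] at h2 hsum
  rw [eval_cell hN D (ecell_02 hN hu hw)] at h3 hsum
  refine ⟨⟨u % N, Nat.mod_lt _ hN⟩, ⟨v % N, Nat.mod_lt _ hN⟩, ⟨w % N, Nat.mod_lt _ hN⟩, ?_⟩
  cases c1 : D (0, (⟨u % N, Nat.mod_lt _ hN⟩, ⟨v % N, Nat.mod_lt _ hN⟩)) with
  | none => rw [c1] at h1; cases h1
  | some r =>
    cases c2 : D (1, (⟨v % N, Nat.mod_lt _ hN⟩, ⟨w % N, Nat.mod_lt _ hN⟩)) with
    | none => rw [c2] at h2; cases h2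
    | some s =>
      cases c3 : D (2, (⟨u % N, Nat.mod_lt _ hN⟩, ⟨w % N, Nat.mod_lt _ hN⟩)) with
      | none => rw [c3] at h3; cases h3
      | some t =>
        refine ⟨r, s, t, rfl, rfl, rfl, ?_⟩
        rw [c1, c2, c3] at hsum
        simp [wtv, ev] at hsum
        omega

lemma instT_tri (hN : 0 < N) (D : Fin 3 × (Fin N × Fin N) → Option (Fin R))
    (hRn : R ≤ n ^ 300) (h3N : 3 * N ≤ n) :
    HasTri (instT n hN D) ↔ ∃ (i j k : Fin N) (r s t : Fin R), D (0, (i, j)) = some r ∧
      D (1, (j, k)) = some s ∧ D (2, (i, k)) = some t ∧ r.val + s.val = t.val := by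
  constructor
  · rintro ⟨a, b, c, _, _, _, f1, f2, f3, hs⟩
    simp only [triWeight_instT hN D hRn] at hs
    have g1 : (eval hN D a b).isSome = true := f1
    have g2 : (eval hN D b c).isSome = true := f2
    have g3 : (eval hN D a c).isSome = true := f3
    obtain ⟨p1, p2, p3⟩ := eval_parts hN D a b g1
    obtain ⟨_, p4, p5⟩ := eval_parts hN D b c g2
    obtain ⟨_, _, p6⟩ := eval_parts hN D a c g3
    have q1 := eval_comm hN D a b
    have q2 := eval_comm hN D b c
    have q3 := eval_comm hN D a c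
    rcases perm_parts _ _ _ p1 p2 p3 p4 p5 p6 with h | h | h | h | h | h
    · exact tri_key hN D a b c h.1 h.2.1 h.2.2 g1 g2 g3 hs
    · exact tri_key hN D a c b h.1 h.2.2 h.2.1 g3 (q2 ▸ g2) g1 (by rw [← q2]; linarith)
    · exact tri_key hN D b a c h.2.1 h.1 h.2.2 (q1 ▸ g1) g3 g2 (by rw [← q1]; linarith)
    · exact tri_key hN D c a b h.2.2 h.1 h.2.1 (q3 ▸ g3) g1 (q2 ▸ g2)
        (by rw [← q3, ← q2]; linarith)
    · exact tri_key hN D b c a h.2.1 h.2.2 h.1 g2 (q3 ▸ g3) (q1 ▸ g1)
        (by rw [← q3, ← q1]; linarith)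
    · exact tri_key hN D c b a h.2.2 h.2.1 h.1 (q2 ▸ g2) (q1 ▸ g1) (q3 ▸ g3) (by
        rw [← q3, ← q1, ← q2]; linarith)
  · rintro ⟨i, j, k, r, s, t, h1, h2, h3, h4⟩
    have b1 : (i : ℕ) < n := by have := i.2; omega
    have b2 : N + (j : ℕ) < n := by have := j.2; omega
    have b3 : 2 * N + (k : ℕ) < n := by have := k.2; omega
    have d1 : (i : ℕ) / N = 0 := Nat.div_eq_of_lt i.2
    have d2 : (N + (j : ℕ)) / N = 1 := by
      rw [Nat.add_div_left _ hN, Nat.div_eq_of_lt j.2]
    have d3 : (2 * N + (k : ℕ)) / N = 2 := by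
      rw [mul_comm, Nat.mul_add_div hN, Nat.div_eq_of_lt k.2]
    have m1 : (i : ℕ) % N = i := Nat.mod_eq_of_lt i.2
    have m2 : (N + (j : ℕ)) % N = j := by
      rw [Nat.add_mod_left, Nat.mod_eq_of_lt j.2]
    have m3 : (2 * N + (k : ℕ)) % N = k := by
      rw [mul_comm, Nat.mul_add_mod, Nat.mod_eq_of_lt k.2]
    have e1 : eval hN D i (N + j) = some (false, r.val) := by
      rw [eval_cell hN D (ecell_01 hN d1 d2)]
      simp only [m1, m2, Fin.eta]
      rw [h1]
      rfl
    have e2 : eval hN D (N + j) (2 * N + k) = some (false, s.val) := by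
      rw [eval_cell hN D (ecell_12 hN d2 d3)]
      simp only [m2, m3, Fin.eta]
      rw [h2]
      rfl
    have e3 : eval hN D i (2 * N + k) = some (true, t.val) := by
      rw [eval_cell hN D (ecell_02 hN d1 d3)]
      simp only [m1, m3, Fin.eta]
      rw [h3]
      rfl
    refine ⟨⟨i, b1⟩, ⟨N + j, b2⟩, ⟨2 * N + k, b3⟩, ?_, ?_, ?_, ?_, ?_, ?_, ?_⟩
    · rw [Ne, Fin.mk.injEq]; have := i.2; omega
    · rw [Ne, Fin.mk.injEq]; have := j.2; omega
    · rw [Ne, Fin.mk.injEq]; have := i.2; omega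
    · show (eval hN D i (N + j)).isSome = true
      rw [e1]; rfl
    · show (eval hN D (N + j) (2 * N + k)).isSome = true
      rw [e2]; rfl
    · show (eval hN D i (2 * N + k)).isSome = true
      rw [e3]; rfl
    · rw [triWeight_instT hN D hRn, triWeight_instT hN D hRn, triWeight_instT hN D hRn]
      show wtv (eval hN D i (N + j)) + wtv (eval hN D (N + j) (2 * N + k)) +
        wtv (eval hN D i (2 * N + k)) = 0
      rw [e1, e2, e3]
      simp [wtv]
      omega

end InstT

end H592R3.Hp
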