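import Mathlib
import Pool.Agent.H592R4.Tri

/-!
The lower bound for Exact Triangle.
-/

set_option linter.unusedSectionVars false

namespace H592R3.Hp

open Finset DomAC0 H568R2 SmallDepth

section MainT
variable {n N R : ℕ}

/-- The three pairs of a triangle. -/
def clT (a : Fin 3 → Fin N) (m : Fin 3) : Fin N × Fin N :=
  if m = 0 then (a 0, a 1) else if m = 1 then (a 1, a 2) else (a 0, a 2)

/-- The good pairs. -/
def UqT (a : (Fin 3 → Fin N) × Pr R) (X : ((Fin 3 × (Fin N × Fin N)) × Fin R) → Bool) : Prop :=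
  Emp clT a X ∧ NoP (clT (N := N)) X

lemma uqT_no {a : (Fin 3 → Fin N) × Pr R} {X : ((Fin 3 × (Fin N × Fin N)) × Fin R) → Bool}
    (h : UqT a X) (hN : 0 < N) (hRn : R ≤ n ^ 300) (h3N : 3 * N ≤ n) :
    TriValid (instT n hN (dec X)) ∧ ¬ HasTri (instT n hN (dec X)) := by
  constructor
  · exact instT_valid hN _ hRn
  · rw [instT_tri hN _ hRn h3N]
    rintro ⟨i, j, k, r, s, t, h1, h2, h3, h4⟩
    obtain ⟨m, hm⟩ := h.2 (fun m => if m = 0 then i else if m = 1 then j else k,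
      ⟨(r, s), by show r.val + s.val < R; rw [h4]; exact t.2⟩)
    have e1 := ((dec_iff _ _ _).1 h1).1
    have e2 := ((dec_iff _ _ _).1 h2).1
    have e3 := ((dec_iff _ _ _).1 h3).1
    have ht : (⟨r.val + s.val, by rw [h4]; exact t.2⟩ : Fin R) = t := Fin.ext h4
    rw [← ht] at e3
    unfold vr3 cand clT at hm
    fin_cases m
    · simp at hm; rw [e1] at hm; cases hm
    · simp at hm; rw [e2] at hm; cases hm
    · simp at hm; rw [e3] at hm; cases hm

lemma uqT_yes {a : (Fin 3 → Fin N) × Pr R} {X : ((Fin 3 × (Fin N × Fin N)) × Fin R) → Bool}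
    (h : UqT a X) (hN : 0 < N) (hRn : R ≤ n ^ 300) (h3N : 3 * N ≤ n) :
    TriValid (instT n hN (dec (plant (vr3 clT a) univ X))) ∧
      HasTri (instT n hN (dec (plant (vr3 clT a) univ X))) := by
  constructor
  · exact instT_valid hN _ hRn
  · rw [instT_tri hN _ hRn h3N]
    exact ⟨a.1 0, a.1 1, a.1 2, cand a.2 0, cand a.2 1, cand a.2 2, dec_planted h.1 0,
      dec_planted h.1 1, dec_planted h.1 2, rfl⟩

lemma instT_row (hN : 0 < N) :
    RowDep (fun X : ((Fin 3 × (Fin N × Fin N)) × Fin R) → Bool => instT n hN (dec X)) := by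
  rintro ⟨u, v, b⟩
  cases hc : ecell hN u v with
  | none =>
    refine ⟨(0, (⟨0, hN⟩, ⟨0, hN⟩)), fun X X' _ => ?_⟩
    have e : ∀ X : ((Fin 3 × (Fin N × Fin N)) × Fin R) → Bool,
        eval hN (dec X) u v = none := fun X => eval_none hN _ hc
    rcases b with _ | _ | l
    · show (eval hN (dec X) u v).isSome = (eval hN (dec X') u v).isSome
      rw [e, e]
    · show (match eval hN (dec X) u v with | none => false | some x => x.1) =
        (match eval hN (dec X') u v with | none => false | some x => x.1)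
      rw [e, e]
    · show (match eval hN (dec X) u v with | none => false | some x => x.2.testBit l) =
        (match eval hN (dec X') u v with | none => false | some x => x.2.testBit l)
      rw [e, e]
  | some c =>
    refine ⟨c, fun X X' hX => ?_⟩
    have e : eval hN (dec X) u v = eval hN (dec X') u v := by
      rw [eval_cell hN _ hc, eval_cell hN _ hc, dec_congr hX]
    rcases b with _ | _ | l
    · show (eval hN (dec X) u v).isSome = (eval hN (dec X') u v).isSome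
      rw [e]
    · show (match eval hN (dec X) u v with | none => false | some x => x.1) =
        (match eval hN (dec X') u v with | none => false | some x => x.1)
      rw [e]
    · show (match eval hN (dec X) u v with | none => false | some x => x.2.testBit l) =
        (match eval hN (dec X') u v with | none => false | some x => x.2.testBit l)
      rw [e]

/-- The bad events. -/
def ZfT (a : (Fin 3 → Fin N) × Pr R) :
    (Fin 3 × Fin R) ⊕ ((Fin 3 → Fin N) × Pr R) →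
    Finset ((Fin 3 × (Fin N × Fin N)) × Fin R)
  | Sum.inl (m, r) => {((m, clT a.1 m), r)}
  | Sum.inr a' => univ.image (vr3 clT a')

lemma uqT_of (a : (Fin 3 → Fin N) × Pr R) (X : ((Fin 3 × (Fin N × Fin N)) × Fin R) → Bool)
    (h : ¬ ∃ x, ∀ i ∈ ZfT a x, X i = true) : UqT a X := by
  push Not at h
  refine ⟨?_, ?_⟩
  · intro m r
    obtain ⟨i, hi, h1⟩ := h (Sum.inl (m, r))
    rw [ZfT, Finset.mem_singleton] at hi
    subst hi
    exact Bool.eq_false_iff.2 h1
  · intro a'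
    obtain ⟨i, hi, h1⟩ := h (Sum.inr a')
    rw [ZfT, Finset.mem_image] at hi
    obtain ⟨m, _, rfl⟩ := hi
    exact ⟨m, Bool.eq_false_iff.2 h1⟩

lemma zfT_sum (a : (Fin 3 → Fin N) × Pr R) (hR : 0 < R) (hNR : N ^ 3 ≤ R) :
    ∑ x, (1 / (24 * (R : ℝ))) ^ (ZfT a x).card ≤ 1 / 2 := by
  obtain ⟨p, hp⟩ : ∃ p : ℝ, p = 1 / (24 * (R : ℝ)) := ⟨_, rfl⟩
  have hR0 : (0 : ℝ) < R := by exact_mod_cast hR
  have hp0 : 0 < p := by rw [hp]; positivity
  have hpR : p * R = 1 / 24 := by rw [hp]; field_simp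
  rw [← hp]
  rw [Fintype.sum_sum_type]
  have s1 : ∑ x : Fin 3 × Fin R, p ^ (ZfT a (Sum.inl x)).card = 1 / 8 := by
    have : ∀ x : Fin 3 × Fin R, p ^ (ZfT a (Sum.inl x)).card = p := by
      rintro ⟨m, r⟩
      rw [ZfT, Finset.card_singleton, pow_one]
    rw [Finset.sum_congr rfl fun x _ => this x, Finset.sum_const, Finset.card_univ,
      Fintype.card_prod, Fintype.card_fin, Fintype.card_fin, nsmul_eq_mul]
    push_cast
    linarith
  have s2 : ∑ x : (Fin 3 → Fin N) × Pr R, p ^ (ZfT a (Sum.inr x)).card ≤ 1 / 1000 := by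
    have : ∀ x : (Fin 3 → Fin N) × Pr R, p ^ (ZfT a (Sum.inr x)).card = p ^ 3 := by
      intro x
      rw [ZfT, Finset.card_image_of_injective _ (vr3_inj _ x), Finset.card_univ, Fintype.card_fin]
    rw [Finset.sum_congr rfl fun x _ => this x, Finset.sum_const, Finset.card_univ,
      Fintype.card_prod, Fintype.card_fun, Fintype.card_fin, Fintype.card_fin, nsmul_eq_mul]
    have h1 : Fintype.card (Pr R) ≤ R * R := by
      refine (Fintype.card_subtype_le _).trans ?_
      rw [Fintype.card_prod, Fintype.card_fin]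
    have h2 : ((N ^ 3 * Fintype.card (Pr R) : ℕ) : ℝ) ≤ (R : ℝ) ^ 3 := by
      have : N ^ 3 * Fintype.card (Pr R) ≤ R ^ 3 := by
        calc N ^ 3 * Fintype.card (Pr R) ≤ R * (R * R) := Nat.mul_le_mul hNR h1
          _ = R ^ 3 := by ring
      exact_mod_cast this
    calc ((N ^ 3 * Fintype.card (Pr R) : ℕ) : ℝ) * p ^ 3 ≤ (R : ℝ) ^ 3 * p ^ 3 := by gcongr
      _ = (p * R) ^ 3 := by ring
      _ ≤ 1 / 1000 := by rw [hpR]; norm_num
  rw [s1]
  linarith

lemma cntT_one (m : Fin 3) (f : Fin N × Fin N) :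
    (univ.filter (fun a : Fin 3 → Fin N => clT a m = f)).card ≤ N := by
  have h : (univ.filter (fun a : Fin 3 → Fin N => clT a m = f)).card ≤
      (univ : Finset (Fin N)).card := by
    apply Finset.card_le_card_of_injOn
      (fun a => if m = 0 then a 2 else if m = 1 then a 0 else a 1)
    · intro a _; exact Finset.mem_univ _
    · intro a ha a' ha' h
      have h1 := (Finset.mem_filter.1 ha).2
      have h2 := (Finset.mem_filter.1 ha').2
      have h3 := h1.trans h2.symm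
      clear h1 h2 ha ha'
      funext k
      fin_cases m <;> fin_cases k <;> simp_all [clT]
  rwa [Finset.card_univ, Fintype.card_fin] at h

lemma cntT_two (m m' : Fin 3) (f f' : Fin N × Fin N) (hm : m ≠ m') :
    (univ.filter (fun a : Fin 3 → Fin N => clT a m = f ∧ clT a m' = f')).card ≤ 1 := by
  rw [Finset.card_le_one]
  intro a ha a' ha'
  have h1 := (Finset.mem_filter.1 ha).2
  have h2 := (Finset.mem_filter.1 ha').2
  have h3 := h1.1.trans h2.1.symm
  have h4 := h1.2.trans h2.2.symm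
  clear h1 h2 ha ha'
  funext k
  fin_cases m <;> fin_cases m' <;> fin_cases k <;> simp_all [clT]

lemma card_triBits (hn : 1000 ≤ n) : Fintype.card (TriBits n) ≤ n ^ 4 := by
  rw [Fintype.card_prod, Fintype.card_prod, Fintype.card_option, Fintype.card_option,
    Fintype.card_fin, Fintype.card_fin]
  have h1 : Nat.size (n ^ 300) ≤ 300 * n := by
    rw [Nat.size_le]
    calc n ^ 300 < (2 ^ n) ^ 300 := Nat.pow_lt_pow_left Nat.lt_two_pow_self (by norm_num)
      _ = 2 ^ (300 * n) := by rw [← pow_mul, mul_comm]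
  have h2 : Nat.size (n ^ 300) + 1 + 1 ≤ n * n := by nlinarith
  calc n * (n * (Nat.size (n ^ 300) + 1 + 1)) ≤ n * (n * (n * n)) := by gcongr
    _ = n ^ 4 := by ring

open Classical in
/-- The general form of the lower bound. -/
theorem tri_main (ε : ℝ) (hε : 0 < ε) : ∃ C : ℝ, 0 < C ∧ ∀ n d g S : ℕ, 2 ≤ n → 1 ≤ d →
    C * (d * Real.log (Real.log n + g + 2)) ≤ Real.log n →
    ∀ G : Game (TriBits n), G.Bounded d S g →
    (∀ (N R : ℕ) (hN : 0 < N), R ≤ n ^ 300 → 3 * N ≤ n →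
      ∀ X : ((Fin 3 × (Fin N × Fin N)) × Fin R) → Bool,
      ∑ a : (Fin 3 → Fin N) × Pr R, (1 / 3) * (1 - (if ¬ UqT a X then (1 : ℝ) else 0)) ≤
        ms (vr3 clT) (fun X => instT n hN (dec X)) G X) →
    (n : ℝ) ^ (3 - ε) < S := by
  obtain ⟨C, hC, hpar⟩ := params5 ε hε
  refine ⟨C, hC, ?_⟩
  intro n d g S hn hd hcond G hG hpt
  by_contra hcon
  rw [not_lt] at hcon
  obtain ⟨h, l, hh, c1, c2, hrest⟩ := hpar n d g hn hd hcond 3 (le_refl _) S hcon
  obtain ⟨N, hN⟩ : ∃ N, N = n / 3 := ⟨_, rfl⟩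
  obtain ⟨R, hR⟩ : ∃ R, R = N ^ 3 := ⟨_, rfl⟩
  have hhR : (1 : ℝ) ≤ h := by exact_mod_cast hh
  -- n is large
  have hbig : (10 : ℝ) ^ 9 ≤ n := by
    refine le_trans ?_ c2
    have h1 : (1 : ℝ) ≤ (24 * (h : ℝ)) ^ d := one_le_pow₀ (by linarith)
    have h2 : (1 : ℝ) ≤ (24 * (h : ℝ)) ^ d * h := by nlinarith
    linarith
  have hbig' : 10 ^ 9 ≤ n := by exact_mod_cast hbig
  have hN1 : 0 < N := by omega
  have h3N : 3 * N ≤ n := by omega
  have hNn : N ≤ n := by omega
  have hR0 : 0 < R := by rw [hR]; positivity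
  have hRn4 : R ≤ n ^ 4 := by
    rw [hR]
    exact (Nat.pow_le_pow_left hNn 3).trans (Nat.pow_le_pow_right (by omega) (by norm_num))
  have hRn : R ≤ n ^ 300 := hRn4.trans (Nat.pow_le_pow_right (by omega) (by norm_num))
  have hNn2 : N * N ≤ n ^ 2 := by rw [sq]; exact Nat.mul_le_mul hNn hNn
  obtain ⟨hlen, hN2⟩ := hrest (Fintype.card (TriBits n)) (N * N) R
    (card_triBits (by omega)) hNn2 hRn4
  have hNreal : (n : ℝ) ≤ 4 * N := by
    have : n ≤ 4 * N := by omega
    exact_mod_cast this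
  have hN0 : (0 : ℝ) < N := by exact_mod_cast hN1
  have hN1R : (1 : ℝ) ≤ N := by exact_mod_cast hN1
  refine sum_core (F := Fin N × Fin N) (A := Fin 3 → Fin N) (J := TriBits n) (R := R)
    clT (κ1 := N) (κ2 := 1) cntT_one cntT_two ?_ hR0
    (fun X => instT n hN1 (dec X)) (instT_row hN1) G hG (h := h) (l := l) hh hlen ZfT
    (fun a => zfT_sum a hR0 hR.ge) UqT uqT_of (hpt N R hN1 hRn h3N) ?_ ?_
  · rw [Fintype.card_fun, Fintype.card_fin, Fintype.card_fin]
    positivity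
  · rw [Fintype.card_fun, Fintype.card_fin, Fintype.card_fin]
    push_cast
    have e1 : (n : ℝ) ^ (3 : ℝ) = (n : ℝ) ^ 3 := by
      rw [← Real.rpow_natCast]; norm_num
    rw [e1] at c1
    obtain ⟨P, hP⟩ : ∃ P : ℝ, P = (S : ℝ) * (24 * h) ^ (2 * d) * (h : ℝ) ^ 2 * (l : ℝ) ^ 2 :=
      ⟨_, rfl⟩
    obtain ⟨Q, hQ⟩ : ∃ Q : ℝ, Q = (24 * (h : ℝ)) ^ d * h := ⟨_, rfl⟩
    rw [← hP] at c1
    rw [← hQ] at c2
    have e2 : 331776 * (S : ℝ) * (24 * h) ^ (2 * d) * (h : ℝ) ^ 2 * (l : ℝ) ^ 2 * 1 +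
        6912 * (24 * (h : ℝ)) ^ d * h * (N : ℝ) = 331776 * P + 6912 * Q * (N : ℝ) := by
      rw [hP, hQ]; ring
    rw [e2]
    have hn3R : (n : ℝ) ^ 3 ≤ 64 * (N : ℝ) ^ 3 := by
      calc (n : ℝ) ^ 3 ≤ (4 * (N : ℝ)) ^ 3 := pow_le_pow_left₀ (by positivity) hNreal 3
        _ = 64 * (N : ℝ) ^ 3 := by ring
    have hP2 : P * 10 ^ 12 ≤ 64 * (N : ℝ) ^ 3 := by linarith
    have hQ2 : Q * 10 ^ 9 ≤ 4 * N := by linarith
    have f1 : 331776 * P ≤ (1 / 2) * (N : ℝ) ^ 3 := by
      have : (0 : ℝ) ≤ (N : ℝ) ^ 3 := by positivity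
      nlinarith
    have f2 : 6912 * Q * (N : ℝ) ≤ (1 / 2) * (N : ℝ) ^ 3 := by
      have g1 : 6912 * Q ≤ (1 / 2) * (N : ℝ) := by linarith
      have g2 : (N : ℝ) ^ 2 ≤ (N : ℝ) ^ 3 := pow_le_pow_right₀ hN1R (by norm_num)
      calc 6912 * Q * (N : ℝ) ≤ (1 / 2) * (N : ℝ) * (N : ℝ) := by gcongr
        _ = (1 / 2) * (N : ℝ) ^ 2 := by ring
        _ ≤ _ := by linarith
    linarith
  · rw [Fintype.card_prod, Fintype.card_fin]
    exact hN2

/-- The lower bound for interactive proofs of no-instances of Exact Triangle. -/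
theorem tri_game (ε : ℝ) (hε : 0 < ε) : ∃ C : ℝ, 0 < C ∧ ∀ n d g S : ℕ, 2 ≤ n → 1 ≤ d →
    C * (d * Real.log (Real.log n + g + 2)) ≤ Real.log n →
    ∀ G : Game (TriBits n), G.Bounded d S g →
    (∀ z, TriValid z → ¬ HasTri z → 2 / 3 ≤ G.value z) →
    (∀ z, TriValid z → HasTri z → G.value z ≤ 1 / 3) →
    (n : ℝ) ^ (3 - ε) < S := by
  obtain ⟨C, hC, h⟩ := tri_main ε hε
  refine ⟨C, hC, ?_⟩
  intro n d g S hn hd hcond G hG hyes hno
  apply h n d g S hn hd hcond G hG
  intro N R hN hRn h3N X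
  refine game_pt (vr3 clT) (fun X => instT n hN (dec X)) G hG UqT ?_ ?_ X
  · intro a X hU
    have := uqT_no hU hN hRn h3N
    exact hyes _ this.1 this.2
  · intro a X hU
    have := uqT_yes hU hN hRn h3N
    exact hno _ this.1 this.2

/-- The lower bound for randomized circuits for Exact Triangle. -/
theorem tri_rand (ε : ℝ) (hε : 0 < ε) : ∃ C : ℝ, 0 < C ∧ ∀ n d S : ℕ, 2 ≤ n → 1 ≤ d →
    C * (d * Real.log (Real.log n + 2)) ≤ Real.log n →
    ∀ Rc : RandCircuit (TriBits n), Rc.Bounded d S →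
    (∀ z, TriValid z → Rc.Correct z (HasTri z)) →
    (n : ℝ) ^ (3 - ε) < S := by
  obtain ⟨C, hC, h⟩ := tri_main ε hε
  refine ⟨C, hC, ?_⟩
  intro n d S hn hd hcond Rc hRc hcor
  let _ := Rc.fin
  obtain ⟨eq⟩ : Nonempty (Rc.Ω ≃ Fin (Fintype.card Rc.Ω)) := ⟨Fintype.equivFin Rc.Ω⟩
  have hp1 : ∑ i, Rc.prob (eq.symm i) = 1 := by
    rw [← Rc.total]
    exact Equiv.sum_comp eq.symm Rc.prob
  apply h n d 0 S hn hd (by
    simpa using hcond) (Game.arthur (Fintype.card Rc.Ω) (fun i => Rc.prob (eq.symm i))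
      (fun i => .verify (Rc.circ (eq.symm i))))
    ⟨fun i => Rc.nonneg _, hp1, fun i => ⟨(hRc _).1, (hRc _).2⟩⟩
  intro N R hN hRn h3N X
  refine rand_pt (vr3 clT) (fun X => instT n hN (dec X)) _ (fun i => Rc.nonneg _) hp1 _
    UqT ?_ ?_ X
  · intro a X hU
    have hv := uqT_no hU hN hRn h3N
    have h1 := hcor _ hv.1
    unfold RandCircuit.Correct at h1
    simp only [hv.2, decide_false] at h1
    refine h1.trans (le_of_eq ?_)
    exact (Equiv.sum_comp eq.symm (fun ω =>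
      if (Rc.circ ω).eval (instT n hN (dec X)) = false then Rc.prob ω else 0)).symm
  · intro a X hU
    have hv := uqT_yes hU hN hRn h3N
    have h1 := hcor _ hv.1
    unfold RandCircuit.Correct at h1
    simp only [hv.2, decide_true] at h1
    refine h1.trans (le_of_eq ?_)
    exact (Equiv.sum_comp eq.symm (fun ω =>
      if (Rc.circ ω).eval (instT n hN (dec (plant (vr3 clT a) univ X))) = true
      then Rc.prob ω else 0)).symm

end MainT

end H592R3.Hp
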